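import Mathlib

/-!
# Positions at which an integer is close to a multiple of `q ^ l`

`Near q X l x` says that `x` lies within `q ^ l / ((q + 1) q ^ X)` of a multiple of `q ^ l`.
-/

namespace Pool.Agent.DigitPowers

/-- `x` lies within distance less than `q ^ l / ((q + 1) q ^ X)` of a multiple of `q ^ l`. -/
def Near (q X l : ℕ) (x : ℤ) : Prop :=
  ∃ a : ℤ, ((q : ℤ) + 1) * (q : ℤ) ^ X * |x - a * (q : ℤ) ^ l| < (q : ℤ) ^ l

section basic

variable {q : ℕ}

lemma near_zero_level (X : ℕ) (x : ℤ) : Near q X 0 x := by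
  refine ⟨x, ?_⟩
  simp

lemma Near.mono (hq : 1 ≤ q) {X X' l : ℕ} {x : ℤ} (hX : X ≤ X') (h : Near q X' l x) :
    Near q X l x := by
  obtain ⟨a, ha⟩ := h
  refine ⟨a, lt_of_le_of_lt ?_ ha⟩
  have h1 : (q : ℤ) ^ X ≤ (q : ℤ) ^ X' := pow_le_pow_right₀ (by exact_mod_cast hq) hX
  have h2 : (0 : ℤ) ≤ |x - a * (q : ℤ) ^ l| := abs_nonneg _
  have h3 : (0 : ℤ) ≤ (q : ℤ) + 1 := by positivity
  gcongr

lemma near_of_small {X l : ℕ} {x : ℤ} (h : ((q : ℤ) + 1) * (q : ℤ) ^ X * |x| < (q : ℤ) ^ l) :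
    Near q X l x := ⟨0, by simpa using h⟩

lemma near_succ_succ (hq : 2 ≤ q) (X l : ℕ) (x : ℤ) :
    Near q (X + 1) (l + 1) x ↔ Near q 0 (l + 1) x ∧ Near q X l x := by
  have hq0 : (0 : ℤ) < q := by exact_mod_cast (by omega : 0 < q)
  constructor
  · intro h
    refine ⟨h.mono (by omega) (Nat.zero_le _), ?_⟩
    obtain ⟨a, ha⟩ := h
    refine ⟨a * q, ?_⟩
    have e : x - a * q * (q : ℤ) ^ l = x - a * (q : ℤ) ^ (l + 1) := by ring
    rw [e]
    have : (q : ℤ) * (((q : ℤ) + 1) * (q : ℤ) ^ X * |x - a * (q : ℤ) ^ (l + 1)|)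
        < (q : ℤ) * (q : ℤ) ^ l := by
      calc _ = ((q : ℤ) + 1) * (q : ℤ) ^ (X + 1) * |x - a * (q : ℤ) ^ (l + 1)| := by ring
        _ < (q : ℤ) ^ (l + 1) := ha
        _ = _ := by ring
    exact lt_of_mul_lt_mul_left this hq0.le
  · rintro ⟨⟨a', h'⟩, ⟨a, h⟩⟩
    set r' := x - a' * (q : ℤ) ^ (l + 1) with hr'
    set r := x - a * (q : ℤ) ^ l with hr
    have hql : (0 : ℤ) < (q : ℤ) ^ l := by positivity
    have hX1 : (1 : ℤ) ≤ (q : ℤ) ^ X := one_le_pow₀ (by omega)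
    have h1 : ((q : ℤ) + 1) * |r'| < (q : ℤ) ^ (l + 1) := by simpa using h'
    have h2 : ((q : ℤ) + 1) * |r| < (q : ℤ) ^ l := by
      refine lt_of_le_of_lt ?_ h
      calc ((q : ℤ) + 1) * |r| = ((q : ℤ) + 1) * 1 * |r| := by ring
        _ ≤ ((q : ℤ) + 1) * (q : ℤ) ^ X * |r| := by gcongr
    have h3 : (a - q * a') * (q : ℤ) ^ l = r' - r := by
      rw [hr, hr']; ring
    have h4 : a = q * a' := by
      by_contra hne
      have h5 : 1 ≤ |a - q * a'| := Int.one_le_abs (sub_ne_zero.2 hne)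
      have h6 : |a - q * a'| * (q : ℤ) ^ l ≤ |r'| + |r| := by
        rw [← abs_of_pos hql, ← abs_mul, h3]
        exact abs_sub _ _
      have h7 : ((q : ℤ) + 1) * (q : ℤ) ^ l ≤ ((q : ℤ) + 1) * (|r'| + |r|) := by
        refine mul_le_mul_of_nonneg_left ?_ (by positivity)
        nlinarith
      have h8 : (q : ℤ) ^ (l + 1) = q * (q : ℤ) ^ l := by ring
      nlinarith
    refine ⟨a', ?_⟩
    have e : x - a' * (q : ℤ) ^ (l + 1) = r := by rw [hr, h4]; ring
    rw [e]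
    calc ((q : ℤ) + 1) * (q : ℤ) ^ (X + 1) * |r| = q * (((q : ℤ) + 1) * (q : ℤ) ^ X * |r|) := by ring
      _ < q * (q : ℤ) ^ l := mul_lt_mul_of_pos_left h hq0
      _ = (q : ℤ) ^ (l + 1) := by ring

/-- `Near q X l x` unfolded into the levels `l, l - 1, …, l - X`. -/
lemma near_iff_forall (hq : 2 ≤ q) (X l : ℕ) (x : ℤ) :
    Near q X l x ↔ ∀ j ≤ X, Near q 0 (l - j) x := by
  induction X generalizing l with
  | zero =>
    constructor
    · intro h j hj
      obtain rfl : j = 0 := by omega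
      simpa using h
    · intro h
      simpa using h 0 le_rfl
  | succ X ih =>
    cases l with
    | zero =>
      constructor
      · intro _ j _
        rw [Nat.zero_sub]
        exact near_zero_level _ _
      · intro _
        exact near_zero_level _ _
    | succ l =>
      rw [near_succ_succ hq, ih]
      constructor
      · rintro ⟨h0, h⟩ j hj
        cases j with
        | zero => simpa using h0
        | succ j =>
          have := h j (by omega)
          rwa [Nat.add_sub_add_right]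
      · intro h
        refine ⟨by simpa using h 0 (Nat.zero_le _), ?_⟩
        intro j hj
        have := h (j + 1) (by omega)
        rwa [Nat.add_sub_add_right] at this

/-- A non-near level of the coarse kind produces non-near levels up to `X` further on. -/
lemma not_near_of_le (hq : 2 ≤ q) {X l j : ℕ} {x : ℤ} (h : ¬ Near q 0 l x) (hj : j ≤ X) :
    ¬ Near q X (l + j) x := by
  intro h'
  rw [near_iff_forall hq] at h'
  have := h' j hj
  rw [Nat.add_sub_cancel] at this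
  exact h this

/-- Levels above which everything is near. -/
lemma near_of_log_lt (hq : 2 ≤ q) {X l : ℕ} {x : ℤ}
    (h : Nat.log q ((q + 1) * x.natAbs) + X < l) : Near q X l x := by
  rw [near_iff_forall hq]
  intro j hj
  apply near_of_small
  have h1 : (q + 1) * x.natAbs < q ^ (l - j) := by
    apply Nat.lt_pow_of_log_lt (by omega)
    omega
  have h2 : (((q + 1) * x.natAbs : ℕ) : ℤ) < ((q ^ (l - j) : ℕ) : ℤ) := by exact_mod_cast h1
  push_cast at h2
  simpa using h2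

end basic

section mul

variable {p q : ℕ}

/-- A new left end point persists under multiplication by a number prime to `q`. -/
lemma not_near_mul (hq : 2 ≤ q) {X l : ℕ} {x m : ℤ} (hm : IsCoprime m (q : ℤ)) (hm0 : 0 < m)
    (hmX : m ≤ (q : ℤ) ^ X) (h1 : Near q X l x) (h2 : ¬ Near q 0 (l + 1) x) :
    ¬ Near q 0 (l + 1) (m * x) := by
  have hq0 : (0 : ℤ) < q := by exact_mod_cast (by omega : 0 < q)
  obtain ⟨a, ha⟩ := h1
  rintro ⟨b, hb⟩
  set r := x - a * (q : ℤ) ^ l with hr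
  set r' := m * x - b * (q : ℤ) ^ (l + 1) with hr'
  have hql : (0 : ℤ) < (q : ℤ) ^ l := by positivity
  have h3 : ((q : ℤ) + 1) * |m * r| < (q : ℤ) ^ l := by
    rw [abs_mul, abs_of_pos hm0]
    refine lt_of_le_of_lt ?_ ha
    calc ((q : ℤ) + 1) * (m * |r|) = (((q : ℤ) + 1) * |r|) * m := by ring
      _ ≤ (((q : ℤ) + 1) * |r|) * (q : ℤ) ^ X := by gcongr
      _ = _ := by ring
  have h4 : ((q : ℤ) + 1) * |r'| < (q : ℤ) ^ (l + 1) := by simpa using hb
  have h5 : (q * b - m * a) * (q : ℤ) ^ l = m * r - r' := by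
    rw [hr, hr']; ring
  have h6 : q * b = m * a := by
    by_contra hne
    have h5' : 1 ≤ |q * b - m * a| := Int.one_le_abs (sub_ne_zero.2 hne)
    have h6' : |q * b - m * a| * (q : ℤ) ^ l ≤ |m * r| + |r'| := by
      rw [← abs_of_pos hql, ← abs_mul, h5]
      exact abs_sub _ _
    have h7 : ((q : ℤ) + 1) * (q : ℤ) ^ l ≤ ((q : ℤ) + 1) * (|m * r| + |r'|) := by
      refine mul_le_mul_of_nonneg_left ?_ (by positivity)
      nlinarith
    have h8 : (q : ℤ) ^ (l + 1) = q * (q : ℤ) ^ l := by ring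
    nlinarith
  have h7 : (q : ℤ) ∣ a := by
    have : (q : ℤ) ∣ m * a := ⟨b, h6.symm⟩
    exact hm.symm.dvd_of_dvd_mul_left this
  obtain ⟨c, hc⟩ := h7
  apply h2
  refine ⟨c, ?_⟩
  have e : x - c * (q : ℤ) ^ (l + 1) = r := by rw [hr, hc]; ring
  rw [e, pow_zero, mul_one]
  have hX1 : (1 : ℤ) ≤ (q : ℤ) ^ X := one_le_pow₀ (by omega)
  have : ((q : ℤ) + 1) * |r| ≤ ((q : ℤ) + 1) * (q : ℤ) ^ X * |r| := by
    calc ((q : ℤ) + 1) * |r| = ((q : ℤ) + 1) * 1 * |r| := by ring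
      _ ≤ ((q : ℤ) + 1) * (q : ℤ) ^ X * |r| := by gcongr
  have h8 : (q : ℤ) ^ l ≤ (q : ℤ) ^ (l + 1) := pow_le_pow_right₀ (by omega) (by omega)
  linarith

/-- If `x = a q ^ e + r` with `q ^ l ≤ (q + 1) |r| < q ^ (l + 1)` and `l < e` then level `l` is not
near. -/
lemma not_near_of_remainder (hq : 2 ≤ q) {l e : ℕ} {x a r : ℤ} (hx : x = a * (q : ℤ) ^ e + r)
    (hle : l ≤ e) (h1 : (q : ℤ) ^ l ≤ ((q : ℤ) + 1) * |r|)
    (h2 : ((q : ℤ) + 1) * |r| < (q : ℤ) ^ (l + 1)) : ¬ Near q 0 l x := by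
  have hq0 : (0 : ℤ) < q := by exact_mod_cast (by omega : 0 < q)
  have hql : (0 : ℤ) < (q : ℤ) ^ l := by positivity
  rintro ⟨b, hb⟩
  rw [pow_zero, mul_one] at hb
  obtain ⟨k, rfl⟩ := Nat.exists_eq_add_of_le hle
  set d := b - a * (q : ℤ) ^ k with hd
  have e1 : x - b * (q : ℤ) ^ l = r - d * (q : ℤ) ^ l := by
    rw [hx, hd]; ring
  rw [e1] at hb
  by_cases hd0 : d = 0
  · rw [hd0] at hb
    simp at hb
    omega
  · have hd1 : 1 ≤ |d| := Int.one_le_abs hd0
    have h3 : |d| * (q : ℤ) ^ l ≤ |r| + |r - d * (q : ℤ) ^ l| := by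
      have : |d * (q : ℤ) ^ l| ≤ |r| + |r - d * (q : ℤ) ^ l| := by
        have := abs_sub r (r - d * (q : ℤ) ^ l)
        rwa [sub_sub_cancel] at this
      rwa [abs_mul, abs_of_pos hql] at this
    have h7 : ((q : ℤ) + 1) * (q : ℤ) ^ l ≤ ((q : ℤ) + 1) * (|r| + |r - d * (q : ℤ) ^ l|) := by
      refine mul_le_mul_of_nonneg_left ?_ (by positivity)
      nlinarith
    have h8 : (q : ℤ) ^ (l + 1) = q * (q : ℤ) ^ l := by ring
    nlinarith

/-- If `x = a q ^ e + r` and `(q + 1) |r| < q ^ l`, `l ≤ e`, then level `l` is near. -/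
lemma near_of_remainder {l e : ℕ} {x a r : ℤ} (hx : x = a * (q : ℤ) ^ e + r)
    (hle : l ≤ e) (h2 : ((q : ℤ) + 1) * |r| < (q : ℤ) ^ l) : Near q 0 l x := by
  obtain ⟨k, rfl⟩ := Nat.exists_eq_add_of_le hle
  refine ⟨a * (q : ℤ) ^ k, ?_⟩
  have e1 : x - a * (q : ℤ) ^ k * (q : ℤ) ^ l = r := by rw [hx]; ring
  rw [e1]
  simpa using h2

end mul

end Pool.Agent.DigitPowers
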