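import Mathlib
import Pool.Agent.DigitPowers.Near

/-!
# The sets of far levels of an integer and their evolution under multiplication
-/

open Finset

namespace Pool.Agent.DigitPowers

open Classical in
/-- The finite set of levels `l` which are not `Near q X l x`. -/
noncomputable def farSet (q X : ℕ) (x : ℤ) : Finset ℕ :=
  (Finset.range (Nat.log q ((q + 1) * x.natAbs) + X + 1)).filter (fun l => ¬ Near q X l x)

/-- Left end points of the blocks of far levels. -/
noncomputable def upSteps (q X : ℕ) (x : ℤ) : Finset ℕ :=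
  farSet q X x \ (farSet q X x).image (· + 1)

/-- Right end points (plus one) of the blocks of far levels. -/
noncomputable def downSteps (q X : ℕ) (x : ℤ) : Finset ℕ :=
  (farSet q X x).image (· + 1) \ farSet q X x

variable {q : ℕ}

lemma mem_farSet (hq : 2 ≤ q) {X l : ℕ} {x : ℤ} : l ∈ farSet q X x ↔ ¬ Near q X l x := by
  classical
  unfold farSet
  rw [Finset.mem_filter, Finset.mem_range]
  constructor
  · exact fun h => h.2
  · intro h
    refine ⟨?_, h⟩
    by_contra hl
    exact h (near_of_log_lt hq (by omega))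

lemma mem_upSteps (hq : 2 ≤ q) {X l : ℕ} {x : ℤ} (h : l ∈ upSteps q X x) :
    ∃ k, l = k + 1 ∧ Near q X k x ∧ ¬ Near q 0 (k + 1) x := by
  unfold upSteps at h
  rw [Finset.mem_sdiff, Finset.mem_image, mem_farSet hq] at h
  obtain ⟨h1, h2⟩ := h
  cases l with
  | zero => exact absurd (near_zero_level _ _) h1
  | succ k =>
    have hk : Near q X k x := by
      by_contra hk
      exact h2 ⟨k, (mem_farSet hq).2 hk, rfl⟩
    refine ⟨k, rfl, hk, ?_⟩
    intro h0
    cases X with
    | zero => exact h1 h0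
    | succ X =>
      apply h1
      rw [near_succ_succ hq]
      exact ⟨h0, hk.mono (by omega) (by omega)⟩

lemma mem_downSteps (hq : 2 ≤ q) {X e : ℕ} {x : ℤ} (h : e ∈ downSteps q X x) :
    Near q X e x ∧ ∃ k, e = k + X + 1 ∧ ¬ Near q 0 k x := by
  unfold downSteps at h
  rw [Finset.mem_sdiff, Finset.mem_image, mem_farSet hq] at h
  obtain ⟨⟨m, hm, rfl⟩, h2⟩ := h
  have h2 : Near q X (m + 1) x := not_not.1 h2
  rw [mem_farSet hq] at hm
  refine ⟨h2, ?_⟩
  rw [near_iff_forall hq] at hm h2
  push Not at hm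
  obtain ⟨j, hj, hj'⟩ := hm
  have hjX : j = X := by
    by_contra hne
    have := h2 (j + 1) (by omega)
    rw [Nat.add_sub_add_right] at this
    exact hj' this
  subst hjX
  have hm : j < m := by
    by_contra hle
    have : m - j = 0 := by omega
    rw [this] at hj'
    exact hj' (near_zero_level _ _)
  exact ⟨m - j, by omega, hj'⟩

lemma card_upSteps_eq (q X : ℕ) (x : ℤ) : (upSteps q X x).card = (downSteps q X x).card := by
  unfold upSteps downSteps
  have h1 : ((farSet q X x).image (· + 1)).card = (farSet q X x).card :=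
    Finset.card_image_of_injective _ (add_left_injective 1)
  have h2 := Finset.card_sdiff_add_card_inter (farSet q X x) ((farSet q X x).image (· + 1))
  have h3 := Finset.card_sdiff_add_card_inter ((farSet q X x).image (· + 1)) (farSet q X x)
  rw [Finset.inter_comm] at h3
  omega

lemma farSet_succ (hq : 2 ≤ q) (X : ℕ) (x : ℤ) :
    farSet q (X + 1) x = farSet q X x ∪ downSteps q X x := by
  ext l
  unfold downSteps
  rw [Finset.union_sdiff_self_eq_union, Finset.mem_union, mem_farSet hq, mem_farSet hq,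
    Finset.mem_image]
  cases l with
  | zero =>
    constructor
    · intro h; exact absurd (near_zero_level _ _) h
    · rintro (h | ⟨m, _, hm⟩)
      · exact absurd (near_zero_level _ _) h
      · omega
  | succ l =>
    rw [near_succ_succ hq]
    constructor
    · intro h
      by_cases h0 : Near q 0 (l + 1) x
      · right
        refine ⟨l, ?_, rfl⟩
        rw [mem_farSet hq]
        exact fun h' => h ⟨h0, h'⟩
      · left
        exact fun h' => h0 (h'.mono (by omega) (Nat.zero_le _))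
    · rintro (h | ⟨m, hm, hml⟩)
      · rintro ⟨h1, h2⟩
        cases X with
        | zero => exact h h1
        | succ X => exact h (by rw [near_succ_succ hq]; exact ⟨h1, h2.mono (by omega) (by omega)⟩)
      · obtain rfl : m = l := by omega
        rw [mem_farSet hq] at hm
        exact fun h' => hm h'.2

lemma card_farSet_succ (hq : 2 ≤ q) (X : ℕ) (x : ℤ) :
    (farSet q (X + 1) x).card = (farSet q X x).card + (downSteps q X x).card := by
  rw [farSet_succ hq, Finset.card_union_of_disjoint]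
  unfold downSteps
  exact Finset.disjoint_sdiff

section key

variable {p : ℕ}

lemma far_mul_of_up (hq : 2 ≤ q) {X l u : ℕ} {x m : ℤ} (hm : IsCoprime m (q : ℤ)) (hm0 : 0 < m)
    (hmX : m ≤ (q : ℤ) ^ X) (h : l ∈ upSteps q X x) (hu : u ≤ X) :
    l + u ∈ farSet q X (m * x) := by
  obtain ⟨k, rfl, h1, h2⟩ := mem_upSteps hq h
  rw [mem_farSet hq]
  exact not_near_of_le hq (not_near_mul hq hm hm0 hmX h1 h2) hu

/-- The position of the top of the remainder after a down step. -/
lemma down_top (hq : 2 ≤ q) {X e u d : ℕ} {y K : ℤ} (he : e ∈ downSteps q X y) (hK : 0 < K)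
    (h1 : K * (q : ℤ) ^ u ≤ (q : ℤ) ^ X) (h2 : (q : ℤ) ^ X < K * (q : ℤ) ^ (u + d)) :
    ∃ l, l + u + 1 ≤ e ∧ e ≤ l + u + d + 1 ∧ ¬ Near q 0 l (K * y) ∧
      ∀ j, l + 1 ≤ j → j ≤ e → Near q 0 j (K * y) := by
  have hq0 : (0 : ℤ) < q := by exact_mod_cast (by omega : 0 < q)
  obtain ⟨⟨a, ha⟩, m, rfl, hm⟩ := mem_downSteps hq he
  set e := m + X + 1 with he
  set r := y - a * (q : ℤ) ^ e with hr
  have hrm : (q : ℤ) ^ m ≤ ((q : ℤ) + 1) * |r| := by
    by_contra hlt
    push Not at hlt
    apply hm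
    refine near_of_remainder (a := a) (e := e) (r := r) ?_ (by omega) hlt
    rw [hr]; ring
  set R := K * r with hR
  have hRabs : |R| = K * |r| := by rw [hR, abs_mul, abs_of_pos hK]
  have hup : (q : ℤ) ^ u * (((q : ℤ) + 1) * |R|) < (q : ℤ) ^ e := by
    refine lt_of_le_of_lt ?_ ha
    rw [hRabs]
    calc (q : ℤ) ^ u * (((q : ℤ) + 1) * (K * |r|)) = ((q : ℤ) + 1) * (K * (q : ℤ) ^ u) * |r| := by
          ring
      _ ≤ ((q : ℤ) + 1) * (q : ℤ) ^ X * |r| := by gcongr
  have hlow : (q : ℤ) ^ (X + m) < (q : ℤ) ^ (u + d) * (((q : ℤ) + 1) * |R|) := by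
    rw [hRabs]
    have hpos : 0 < ((q : ℤ) + 1) * |r| := lt_of_lt_of_le (by positivity) hrm
    calc (q : ℤ) ^ (X + m) = (q : ℤ) ^ X * (q : ℤ) ^ m := by ring
      _ ≤ (q : ℤ) ^ X * (((q : ℤ) + 1) * |r|) := by gcongr
      _ < (K * (q : ℤ) ^ (u + d)) * (((q : ℤ) + 1) * |r|) := by gcongr
      _ = _ := by ring
  -- natural number version
  set N := (q + 1) * R.natAbs with hN
  have hNcast : ((N : ℕ) : ℤ) = ((q : ℤ) + 1) * |R| := by
    rw [hN]; push_cast; rfl
  have hNpos : N ≠ 0 := by
    intro h0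
    have : ((q : ℤ) + 1) * |R| = 0 := by rw [← hNcast, h0]; rfl
    rw [this, mul_zero] at hlow
    have : (0 : ℤ) < (q : ℤ) ^ (X + m) := by positivity
    omega
  set l := Nat.log q N with hl
  have hl1 : q ^ l ≤ N := Nat.pow_log_le_self q hNpos
  have hl2 : N < q ^ (l + 1) := Nat.lt_pow_succ_log_self (by omega) N
  have hl1' : (q : ℤ) ^ l ≤ ((q : ℤ) + 1) * |R| := by rw [← hNcast]; exact_mod_cast hl1
  have hl2' : ((q : ℤ) + 1) * |R| < (q : ℤ) ^ (l + 1) := by rw [← hNcast]; exact_mod_cast hl2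
  have hle1 : l + u + 1 ≤ e := by
    have : (q : ℤ) ^ (l + u) < (q : ℤ) ^ e := by
      refine lt_of_le_of_lt ?_ hup
      calc (q : ℤ) ^ (l + u) = (q : ℤ) ^ u * (q : ℤ) ^ l := by ring
        _ ≤ _ := by gcongr
    have := (pow_lt_pow_iff_right₀ (by exact_mod_cast (by omega : 1 < q) : (1 : ℤ) < q)).1 this
    omega
  have hle2 : e ≤ l + u + d + 1 := by
    have : (q : ℤ) ^ (X + m) < (q : ℤ) ^ (u + d + (l + 1)) := by
      refine lt_trans hlow ?_
      calc (q : ℤ) ^ (u + d) * (((q : ℤ) + 1) * |R|) < (q : ℤ) ^ (u + d) * (q : ℤ) ^ (l + 1) := by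
            gcongr
        _ = _ := by ring
    have := (pow_lt_pow_iff_right₀ (by exact_mod_cast (by omega : 1 < q) : (1 : ℤ) < q)).1 this
    omega
  have hKy : K * y = (K * a) * (q : ℤ) ^ e + R := by rw [hR, hr]; ring
  refine ⟨l, hle1, hle2, not_near_of_remainder hq hKy (by omega) hl1' hl2', ?_⟩
  intro j hj1 hj2
  refine near_of_remainder hKy hj2 (lt_of_lt_of_le hl2' ?_)
  exact pow_le_pow_right₀ (by omega) hj1

/-- The key inequality. -/
theorem key_inequality (hq : 2 ≤ q) (hp : 2 ≤ p) (hpq : Nat.Coprime p q) {c X : ℕ}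
    (hc : p ≤ q ^ c) (hX : 2 * c ≤ X) (y : ℤ) :
    ∑ u ∈ Finset.range (X - c + 1),
        (upSteps q X ((p : ℤ) ^ (Nat.log p (q ^ X) - Nat.clog p (q ^ u)) * y)).card
      + (X - 2 * c + 1) * (downSteps q X y).card
      ≤ (farSet q X ((p : ℤ) ^ (Nat.log p (q ^ X)) * y)).card := by
  classical
  have hc1 : 1 ≤ c := by
    rcases Nat.eq_zero_or_pos c with rfl | h
    · simp at hc; omega
    · exact h
  set S := Nat.log p (q ^ X) with hS
  set s : ℕ → ℕ := fun u => Nat.clog p (q ^ u) with hs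
  have hcop : ∀ k : ℕ, IsCoprime ((p : ℤ) ^ k) (q : ℤ) := fun k =>
    (Nat.isCoprime_iff_coprime.2 hpq).pow_left
  have hpk0 : ∀ k : ℕ, (0 : ℤ) < (p : ℤ) ^ k := fun k => by
    have : (0 : ℤ) < p := by exact_mod_cast (by omega : 0 < p)
    positivity
  have hSle : p ^ S ≤ q ^ X := Nat.pow_log_le_self p (by positivity)
  have hSlt : q ^ X < p ^ (S + 1) := Nat.lt_pow_succ_log_self (by omega) _
  have hs0 : s 0 = 0 := by simp [hs]
  have hsle : ∀ u, p ^ (s u) ≤ q ^ (u + c) := by
    intro u
    rcases Nat.eq_zero_or_pos u with rfl | hu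
    · rw [hs0]; simpa using Nat.one_le_pow _ _ (by omega)
    · have h1 : p ^ (s u - 1) < q ^ u :=
        Nat.pow_pred_clog_lt_self (by omega) (Nat.one_lt_pow (by omega) (by omega))
      have h2 : 0 < s u := by
        apply Nat.clog_pos (by omega)
        calc 2 ≤ q := hq
          _ ≤ q ^ u := Nat.le_self_pow (by omega) q
      calc p ^ (s u) = p ^ (s u - 1) * p := by rw [← pow_succ]; congr 1; omega
        _ ≤ q ^ u * q ^ c := Nat.mul_le_mul h1.le hc
        _ = q ^ (u + c) := by rw [pow_add]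
  have hsge : ∀ u, q ^ u ≤ p ^ (s u) := fun u => Nat.le_pow_clog (by omega) _
  have hsS : ∀ u, u + c ≤ X → s u ≤ S := by
    intro u hu
    apply Nat.le_log_of_pow_le (by omega)
    exact (hsle u).trans (Nat.pow_le_pow_right (by omega) hu)
  -- the two size conditions
  have size1 : ∀ u, u + c ≤ X → ((p : ℤ) ^ (S - s u)) * (q : ℤ) ^ u ≤ (q : ℤ) ^ X := by
    intro u hu
    have : p ^ (S - s u) * q ^ u ≤ q ^ X := by
      calc p ^ (S - s u) * q ^ u ≤ p ^ (S - s u) * p ^ (s u) := Nat.mul_le_mul_left _ (hsge u)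
        _ = p ^ S := by rw [← pow_add]; congr 1; have := hsS u hu; omega
        _ ≤ q ^ X := hSle
    exact_mod_cast this
  have size2 : ∀ u, u + c ≤ X →
      (q : ℤ) ^ X < ((p : ℤ) ^ (S - s u)) * (q : ℤ) ^ (u + 2 * c) := by
    intro u hu
    have : q ^ X < p ^ (S - s u) * q ^ (u + 2 * c) := by
      calc q ^ X < p ^ (S + 1) := hSlt
        _ = p ^ (S - s u) * (p ^ (s u) * p) := by
            rw [← pow_succ, ← pow_add]; congr 1; have := hsS u hu; omega
        _ ≤ p ^ (S - s u) * (q ^ (u + c) * q ^ c) :=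
            Nat.mul_le_mul_left _ (Nat.mul_le_mul (hsle u) hc)
        _ = _ := by rw [← pow_add]; congr 2; omega
    exact_mod_cast this
  have size20 : (q : ℤ) ^ X < ((p : ℤ) ^ (S - s 0)) * (q : ℤ) ^ (0 + c) := by
    have : q ^ X < p ^ (S - s 0) * q ^ (0 + c) := by
      calc q ^ X < p ^ (S + 1) := hSlt
        _ = p ^ (S - s 0) * p := by rw [← pow_succ, hs0]; rfl
        _ ≤ _ := by rw [Nat.zero_add]; gcongr
    exact_mod_cast this
  set A : ℕ → Finset ℕ := fun u =>
    (upSteps q X ((p : ℤ) ^ (S - s u) * y)).image (· + u) with hA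
  set B : Finset ℕ := (downSteps q X y ×ˢ Finset.range (X - 2 * c + 1)).image
    (fun ev => ev.1 + ev.2) with hB
  have hAcard : ∀ u, (A u).card = (upSteps q X ((p : ℤ) ^ (S - s u) * y)).card := fun u =>
    Finset.card_image_of_injective _ (add_left_injective u)
  have hBcard : B.card = (X - 2 * c + 1) * (downSteps q X y).card := by
    rw [hB, Finset.card_image_of_injOn, Finset.card_product, Finset.card_range, mul_comm]
    have main : ∀ e ∈ downSteps q X y, ∀ e' ∈ downSteps q X y, ∀ v v' : ℕ,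
        v ≤ X - 2 * c → e + v = e' + v' → ¬ e < e' := by
      intro e he e' he' v v' hv hev hlt
      obtain ⟨h1, -⟩ := mem_downSteps hq he
      obtain ⟨-, k, hk, h2⟩ := mem_downSteps hq he'
      rw [near_iff_forall hq] at h1
      have h3 := h1 (e - k) (by omega)
      have h4 : e - (e - k) = k := by omega
      rw [h4] at h3
      exact h2 h3
    rintro ⟨e, v⟩ he ⟨e', v'⟩ he' h
    simp only [Finset.coe_product, Set.mem_prod, Finset.mem_coe, Finset.mem_range] at he he'
    simp only at h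
    have h1 := main e he.1 e' he'.1 v v' (by omega) h
    have h2 := main e' he'.1 e he.1 v' v (by omega) h.symm
    have h3 : e = e' := by omega
    have h4 : v = v' := by omega
    rw [h3, h4]
  have hAF : ∀ u ∈ Finset.range (X - c + 1), A u ⊆ farSet q X ((p : ℤ) ^ S * y) := by
    intro u hu l hl
    rw [Finset.mem_range] at hu
    rw [hA, Finset.mem_image] at hl
    obtain ⟨l', hl', rfl⟩ := hl
    have hsu := hsS u (by omega)
    have e1 : (p : ℤ) ^ S * y = (p : ℤ) ^ (s u) * ((p : ℤ) ^ (S - s u) * y) := by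
      rw [← mul_assoc, ← pow_add]; congr 2; omega
    rw [e1]
    refine far_mul_of_up hq (hcop _) (hpk0 _) ?_ hl' (by omega)
    have : p ^ (s u) ≤ q ^ X := (hsle u).trans (Nat.pow_le_pow_right (by omega) (by omega))
    exact_mod_cast this
  have hBF : B ⊆ farSet q X ((p : ℤ) ^ S * y) := by
    intro l hl
    rw [hB, Finset.mem_image] at hl
    obtain ⟨⟨e, v⟩, hev, rfl⟩ := hl
    rw [Finset.mem_product, Finset.mem_range] at hev
    obtain ⟨he, hv⟩ := hev
    simp only at he hv ⊢
    obtain ⟨l, hl1, hl2, hl3, -⟩ := down_top hq he (hpk0 (S - s 0)) (size1 0 (by omega)) size20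
    rw [hs0, Nat.sub_zero] at hl3
    rw [mem_farSet hq]
    have := not_near_of_le hq (X := X) (j := e + v - l) hl3 (by omega)
    have h4 : l + (e + v - l) = e + v := by omega
    rwa [h4] at this
  have hAA : ∀ u ∈ Finset.range (X - c + 1), ∀ w ∈ Finset.range (X - c + 1), u ≠ w →
      Disjoint (A u) (A w) := by
    have main : ∀ u w, w < X - c + 1 → u < w → Disjoint (A u) (A w) := by
      intro u w hw huw
      rw [Finset.disjoint_left]
      intro l hl1 hl2
      rw [hA, Finset.mem_image] at hl1 hl2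
      obtain ⟨l1, hl1, rfl⟩ := hl1
      obtain ⟨l2, hl2, h12⟩ := hl2
      obtain ⟨k1, rfl, h1, -⟩ := mem_upSteps hq hl1
      obtain ⟨k2, rfl, h2, h3⟩ := mem_upSteps hq hl2
      have hsw := hsS w (by omega)
      have hsm : s u ≤ s w := Nat.clog_mono_right p (Nat.pow_le_pow_right (by omega) huw.le)
      have e1 : (p : ℤ) ^ (S - s u) * y = (p : ℤ) ^ (s w - s u) * ((p : ℤ) ^ (S - s w) * y) := by
        rw [← mul_assoc, ← pow_add]; congr 2; omega
      rw [e1] at h1
      have h4 : ¬ Near q 0 (k2 + 1) ((p : ℤ) ^ (s w - s u) * ((p : ℤ) ^ (S - s w) * y)) := by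
        refine not_near_mul hq (hcop _) (hpk0 _) ?_ h2 h3
        have : p ^ (s w - s u) ≤ q ^ X :=
          (Nat.pow_le_pow_right (by omega) (Nat.sub_le _ _)).trans
            ((hsle w).trans (Nat.pow_le_pow_right (by omega) (by omega)))
        exact_mod_cast this
      rw [near_iff_forall hq] at h1
      have h5 := h1 (k1 - (k2 + 1)) (by omega)
      have h6 : k1 - (k1 - (k2 + 1)) = k2 + 1 := by omega
      rw [h6] at h5
      exact h4 h5
    intro u hu w hw hne
    rw [Finset.mem_range] at hu hw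
    rcases lt_or_gt_of_ne hne with h | h
    · exact main u w hw h
    · exact (main w u hu h).symm
  have hAB : Disjoint ((Finset.range (X - c + 1)).biUnion A) B := by
    rw [Finset.disjoint_left]
    intro l hl1 hl2
    rw [Finset.mem_biUnion] at hl1
    obtain ⟨u, hu, hl1⟩ := hl1
    rw [Finset.mem_range] at hu
    rw [hA, Finset.mem_image] at hl1
    obtain ⟨l1, hl1, rfl⟩ := hl1
    rw [hB, Finset.mem_image] at hl2
    obtain ⟨⟨e, v⟩, hev, h12⟩ := hl2
    rw [Finset.mem_product, Finset.mem_range] at hev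
    obtain ⟨he, hv⟩ := hev
    simp only at he hv h12
    obtain ⟨k1, rfl, h1, h1'⟩ := mem_upSteps hq hl1
    obtain ⟨l, hl1, hl2, hl3, hl4⟩ :=
      down_top hq he (hpk0 (S - s u)) (size1 u (by omega)) (size2 u (by omega))
    have h2 : ¬ (l + 1 ≤ k1 + 1 ∧ k1 + 1 ≤ e) := fun h => h1' (hl4 _ h.1 h.2)
    rw [near_iff_forall hq] at h1
    by_cases h3 : k1 + 1 ≤ e
    · omega
    · have h5 := h1 (k1 - l) (by omega)
      have h6 : k1 - (k1 - l) = l := by omega
      rw [h6] at h5
      exact hl3 h5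
  calc ∑ u ∈ Finset.range (X - c + 1),
        (upSteps q X ((p : ℤ) ^ (S - s u) * y)).card
      + (X - 2 * c + 1) * (downSteps q X y).card
      = ∑ u ∈ Finset.range (X - c + 1), (A u).card + B.card := by
        rw [hBcard]; simp only [hAcard]
    _ = ((Finset.range (X - c + 1)).biUnion A).card + B.card := by
        rw [Finset.card_biUnion hAA]
    _ = ((Finset.range (X - c + 1)).biUnion A ∪ B).card := by
        rw [Finset.card_union_of_disjoint hAB]
    _ ≤ _ := Finset.card_le_card
        (Finset.union_subset (Finset.biUnion_subset.2 hAF) hBF)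

end key

end Pool.Agent.DigitPowers
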