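import Mathlib
import Pool.Agent.DigitPowers.Far

/-!
# Elementary bounds on the sets of far levels
-/

open Finset

namespace Pool.Agent.DigitPowers

variable {q : ℕ}

lemma mem_upSteps_iff (hq : 2 ≤ q) {X l : ℕ} {x : ℤ} : l ∈ upSteps q X x ↔
    ∃ k, l = k + 1 ∧ Near q X k x ∧ ¬ Near q 0 (k + 1) x := by
  refine ⟨mem_upSteps hq, ?_⟩
  rintro ⟨k, rfl, h1, h2⟩
  unfold upSteps
  rw [Finset.mem_sdiff, Finset.mem_image, mem_farSet hq]
  refine ⟨fun h => h2 (h.mono (by omega) (Nat.zero_le _)), ?_⟩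
  rintro ⟨m, hm, hmk⟩
  obtain rfl : m = k := by omega
  exact (mem_farSet hq).1 hm h1

lemma upSteps_anti (hq : 2 ≤ q) {X X' : ℕ} (hX : X ≤ X') (x : ℤ) :
    upSteps q X' x ⊆ upSteps q X x := by
  intro l hl
  rw [mem_upSteps_iff hq] at hl ⊢
  obtain ⟨k, hk, h1, h2⟩ := hl
  exact ⟨k, hk, h1.mono (by omega) hX, h2⟩

lemma card_downSteps_anti (hq : 2 ≤ q) {X X' : ℕ} (hX : X ≤ X') (x : ℤ) :
    (downSteps q X' x).card ≤ (downSteps q X x).card := by
  rw [← card_upSteps_eq, ← card_upSteps_eq]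
  exact Finset.card_le_card (upSteps_anti hq hX x)

lemma mul_card_downSteps_le (hq : 2 ≤ q) (X : ℕ) (x : ℤ) :
    (X + 1) * (downSteps q X x).card ≤ (farSet q X x).card := by
  classical
  rw [← card_upSteps_eq]
  have h : ((upSteps q X x ×ˢ Finset.range (X + 1)).image (fun ev => ev.1 + ev.2)).card
      = (X + 1) * (upSteps q X x).card := by
    rw [Finset.card_image_of_injOn, Finset.card_product, Finset.card_range, mul_comm]
    have main : ∀ e ∈ upSteps q X x, ∀ e' ∈ upSteps q X x, ∀ v v' : ℕ,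
        v ≤ X → e + v = e' + v' → ¬ e < e' := by
      intro e he e' he' v v' hv hev hlt
      obtain ⟨k, rfl, -, h1⟩ := mem_upSteps hq he
      obtain ⟨k', rfl, h2, -⟩ := mem_upSteps hq he'
      rw [near_iff_forall hq] at h2
      have h3 := h2 (k' - (k + 1)) (by omega)
      have h4 : k' - (k' - (k + 1)) = k + 1 := by omega
      rw [h4] at h3
      exact h1 h3
    rintro ⟨e, v⟩ he ⟨e', v'⟩ he' h
    simp only [Finset.coe_product, Set.mem_prod, Finset.mem_coe, Finset.mem_range] at he he'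
    simp only at h
    have h1 := main e he.1 e' he'.1 v v' (by omega) h
    have h2 := main e' he'.1 e he.1 v' v (by omega) h.symm
    have h3 : e = e' := by omega
    have h4 : v = v' := by omega
    rw [h3, h4]
  rw [← h]
  apply Finset.card_le_card
  intro l hl
  rw [Finset.mem_image] at hl
  obtain ⟨⟨e, v⟩, hev, rfl⟩ := hl
  rw [Finset.mem_product, Finset.mem_range] at hev
  obtain ⟨he, hv⟩ := hev
  simp only at he hv ⊢
  obtain ⟨k, rfl, -, h1⟩ := mem_upSteps hq he
  rw [mem_farSet hq]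
  exact not_near_of_le hq h1 (by omega)

lemma card_farSet_le_log (q X : ℕ) (x : ℤ) :
    (farSet q X x).card ≤ Nat.log q ((q + 1) * x.natAbs) + X + 1 := by
  classical
  unfold farSet
  refine (Finset.card_filter_le _ _).trans ?_
  rw [Finset.card_range]

lemma succ_le_card_farSet (hq : 2 ≤ q) (X : ℕ) {x : ℤ} (hx : x ≠ 0) :
    X + 1 ≤ (farSet q X x).card := by
  classical
  set N := (q + 1) * x.natAbs with hN
  have hNcast : ((N : ℕ) : ℤ) = ((q : ℤ) + 1) * |x| := by
    rw [hN]; push_cast; rfl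
  have hNpos : N ≠ 0 := by
    rw [hN]
    have := Int.natAbs_ne_zero.2 hx
    positivity
  set l := Nat.log q N with hl
  have hl1 : q ^ l ≤ N := Nat.pow_log_le_self q hNpos
  have hl2 : N < q ^ (l + 1) := Nat.lt_pow_succ_log_self (by omega) N
  have hl1' : (q : ℤ) ^ l ≤ ((q : ℤ) + 1) * |x| := by rw [← hNcast]; exact_mod_cast hl1
  have hl2' : ((q : ℤ) + 1) * |x| < (q : ℤ) ^ (l + 1) := by rw [← hNcast]; exact_mod_cast hl2
  have h0 : ¬ Near q 0 l x :=
    not_near_of_remainder hq (e := l) (a := 0) (r := x) (by ring) le_rfl hl1' hl2'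
  have h1 : ((Finset.range (X + 1)).image (fun j => l + j)).card = X + 1 := by
    rw [Finset.card_image_of_injective _ (add_right_injective l), Finset.card_range]
  rw [← h1]
  apply Finset.card_le_card
  intro m hm
  rw [Finset.mem_image] at hm
  obtain ⟨j, hj, rfl⟩ := hm
  rw [Finset.mem_range] at hj
  rw [mem_farSet hq]
  exact not_near_of_le hq h0 (by omega)

lemma card_farSet_add_le (hq : 2 ≤ q) (X h : ℕ) (x : ℤ) :
    (farSet q (X + h) x).card ≤ (farSet q X x).card + h * (downSteps q X x).card := by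
  induction h with
  | zero => simp
  | succ h ih =>
    rw [← add_assoc, card_farSet_succ hq, add_mul, one_mul, ← add_assoc]
    exact Nat.add_le_add ih (card_downSteps_anti hq (by omega) x)

lemma card_farSet_le_mul (hq : 2 ≤ q) (X : ℕ) (x : ℤ) :
    (farSet q X x).card ≤ (X + 1) * (farSet q 0 x).card := by
  have h1 := card_farSet_add_le hq 0 X x
  have h2 := mul_card_downSteps_le hq 0 x
  rw [Nat.zero_add] at h1
  nlinarith

lemma log_mul_pow_le {p : ℕ} (hq : 2 ≤ q) {c : ℕ} (hc : p ≤ q ^ c) (B t : ℕ) :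
    Nat.log q (B * p ^ t) ≤ Nat.log q B + c * t + 1 := by
  rcases Nat.eq_zero_or_pos B with rfl | hB
  · simp
  · have h1 : B * p ^ t < q ^ (Nat.log q B + c * t + 1) := by
      calc B * p ^ t ≤ B * (q ^ c) ^ t := Nat.mul_le_mul_left _ (Nat.pow_le_pow_left hc t)
        _ < q ^ (Nat.log q B + 1) * (q ^ c) ^ t := by
            apply Nat.mul_lt_mul_of_pos_right
            · exact Nat.lt_pow_succ_log_self (by omega) B
            · positivity
        _ = _ := by rw [← pow_mul, ← pow_add]; congr 1; ring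
    exact (Nat.log_lt_of_lt_pow' (by omega) h1).le

end Pool.Agent.DigitPowers
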