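import Mathlib
import Pool.Agent.DigitPowers.FarBasic

/-!
# The average number of far levels
-/

open Finset

namespace Pool.Agent.DigitPowers

/-- A pure recursion lemma giving the exponent `3 / 2`. -/
theorem recursion_lemma (S : ℕ → ℕ → ℝ) (c g : ℕ) (C3 C5 : ℝ) (hc : 1 ≤ c) (hC3 : 0 ≤ C3)
    (hC5 : 0 ≤ C5) (hmono : ∀ X n n', n ≤ n' → S X n ≤ S X n') (h0 : ∀ X n, 0 ≤ S X n)
    (h2 : ∀ X n : ℕ, (n : ℝ) * X ≤ S X n)
    (h3 : ∀ X m : ℕ, 6 * c ≤ X → S (2 * X) m ≤ 5 / 3 * S X (m + g * X) + C3 * (X : ℝ) ^ 2)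
    (h4 : ∀ X N : ℕ, 3 * c ≤ X → X ≤ N →
      S (X + 1) N ≤ S X N * (1 + 1 / (2 * (X : ℝ) - 3 * c + 2)) + C5 * N) :
    ∃ κ : ℝ, 0 < κ ∧ ∃ N₀ : ℕ, ∀ N : ℕ, N₀ ≤ N → κ * (N : ℝ) ^ ((3 : ℝ) / 2) ≤ S (3 * c) N := by
  -- stage one
  have stage1 : ∀ k X m : ℕ, 6 * c ≤ X →
      (X : ℝ) * (6 / 5) ^ k * ((m : ℝ) - C3 * (2 ^ k - 1) * X) ≤ S X (m + g * (2 ^ k - 1) * X) := by
    intro k
    induction k with
    | zero =>
      intro X m _
      have := h2 X (m + g * (2 ^ 0 - 1) * X)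
      simp only [pow_zero, Nat.sub_self, Nat.mul_zero, Nat.zero_mul, Nat.add_zero] at this ⊢
      nlinarith
    | succ k ih =>
      intro X m hX
      have i1 := ih (2 * X) m (by omega)
      have i2 := h3 X (m + g * (2 ^ k - 1) * (2 * X)) hX
      have e1 : m + g * (2 ^ k - 1) * (2 * X) + g * X = m + g * (2 ^ (k + 1) - 1) * X := by
        obtain ⟨j, hj⟩ : ∃ j, 2 ^ k = j + 1 := ⟨2 ^ k - 1, by have := Nat.one_le_two_pow (n := k); omega⟩
        have : 2 ^ (k + 1) = 2 * j + 2 := by rw [pow_succ, hj]; ring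
        rw [hj, this]
        have e2 : 2 * j + 2 - 1 = 2 * j + 1 := by omega
        rw [e2, Nat.add_sub_cancel]
        ring
      rw [e1] at i2
      push_cast at i1
      have h65 : (1 : ℝ) ≤ (6 / 5) ^ k := one_le_pow₀ (by norm_num)
      have h65' : ((6 : ℝ) / 5) ^ (k + 1) = (6 / 5) ^ k * (6 / 5) := pow_succ _ _
      have h2' : (2 : ℝ) ^ (k + 1) = 2 ^ k * 2 := pow_succ _ _
      have hX0 : (0 : ℝ) ≤ X := Nat.cast_nonneg X
      have i3 : 3 / 5 * (2 * (X : ℝ) * (6 / 5) ^ k * ((m : ℝ) - C3 * (2 ^ k - 1) * (2 * X)))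
          - 3 / 5 * (C3 * (X : ℝ) ^ 2) ≤ S X (m + g * (2 ^ (k + 1) - 1) * X) := by linarith
      refine le_trans ?_ i3
      rw [h65', h2']
      have i4 : 0 ≤ C3 * (X : ℝ) ^ 2 := by positivity
      nlinarith [mul_le_mul_of_nonneg_right h65 i4]
  -- choose k
  obtain ⟨k, hk⟩ : ∃ k : ℕ, 8 * (2 * C5 + 1) ≤ ((6 : ℝ) / 5) ^ k := by
    obtain ⟨k, hk⟩ := pow_unbounded_of_one_lt (8 * (2 * C5 + 1)) (by norm_num : (1 : ℝ) < 6 / 5)
    exact ⟨k, hk.le⟩
  obtain ⟨B, hB1, hB2⟩ : ∃ B : ℕ, 4 * C3 * 2 ^ k ≤ B ∧ 4 * g * 2 ^ k + 4 ≤ B := by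
    obtain ⟨B, hB⟩ := exists_nat_ge (4 * C3 * 2 ^ k)
    exact ⟨B + (4 * g * 2 ^ k + 4), by push_cast; nlinarith [show (0:ℝ) ≤ 4 * g * 2 ^ k by positivity], by omega⟩
  have hBpos : 0 < B := by omega
  have hBR : (0 : ℝ) < B := by exact_mod_cast hBpos
  -- stage two
  have stage2 : ∀ N Y : ℕ, 3 * c ≤ Y → Y ≤ N →
      S Y N ≤ √(2 * (Y : ℝ) - 3 * c + 1) * S (3 * c) N + C5 * N * (2 * (Y : ℝ) - 3 * c + 1) := by
    intro N Y hY
    induction Y, hY using Nat.le_induction with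
    | base =>
      intro _
      have hc' : (1 : ℝ) ≤ c := by exact_mod_cast hc
      have h1 : (1 : ℝ) ≤ √(2 * ((3 * c : ℕ) : ℝ) - 3 * c + 1) := by
        rw [Real.one_le_sqrt]; push_cast; linarith
      have h5 : 0 ≤ C5 * N * (2 * ((3 * c : ℕ) : ℝ) - 3 * c + 1) := by
        have : 0 ≤ 2 * ((3 * c : ℕ) : ℝ) - 3 * c + 1 := by push_cast; linarith
        positivity
      have := mul_le_mul_of_nonneg_right h1 (h0 (3 * c) N)
      linarith
    | succ Y hY ih =>
      intro hYN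
      have i1 := ih (by omega)
      have i2 := h4 Y N hY (by omega)
      have hYc : (3 * c : ℝ) ≤ Y := by exact_mod_cast hY
      have hc' : (1 : ℝ) ≤ c := by exact_mod_cast hc
      set j : ℝ := 2 * (Y : ℝ) - 3 * c + 2 with hj
      have hj1 : 1 < j := by rw [hj]; linarith
      have e1 : 2 * (Y : ℝ) - 3 * c + 1 = j - 1 := by rw [hj]; ring
      have e2 : 2 * ((Y + 1 : ℕ) : ℝ) - 3 * c + 1 = j + 1 := by rw [hj]; push_cast; ring
      rw [e1] at i1
      rw [e2]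
      have hsq : (1 + 1 / j) * √(j - 1) ≤ √(j + 1) := by
        apply Real.le_sqrt_of_sq_le
        rw [mul_pow, Real.sq_sqrt (by linarith)]
        have : (1 + 1 / j) ^ 2 * (j - 1) = j + 1 - (j + 1) / j ^ 2 := by
          field_simp
          ring
        rw [this]
        have : 0 ≤ (j + 1) / j ^ 2 := by positivity
        linarith
      have hG := h0 (3 * c) N
      have hN0 : 0 ≤ C5 * (N : ℝ) := by positivity
      have hfac : 0 ≤ 1 + 1 / j := by positivity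
      calc S (Y + 1) N ≤ S Y N * (1 + 1 / j) + C5 * N := i2
        _ ≤ (√(j - 1) * S (3 * c) N + C5 * N * (j - 1)) * (1 + 1 / j) + C5 * N := by
            have := mul_le_mul_of_nonneg_right i1 hfac
            linarith
        _ = ((1 + 1 / j) * √(j - 1)) * S (3 * c) N + C5 * N * ((j - 1) * (1 + 1 / j) + 1) := by ring
        _ ≤ √(j + 1) * S (3 * c) N + C5 * N * (j + 1) := by
            have h6 : (j - 1) * (1 + 1 / j) + 1 ≤ j + 1 := by
              have : (j - 1) * (1 + 1 / j) + 1 = j + 1 - 1 / j := by field_simp; ring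
              rw [this]
              have : 0 ≤ 1 / j := by positivity
              linarith
            have := mul_le_mul_of_nonneg_right hsq hG
            have := mul_le_mul_of_nonneg_left h6 hN0
            linarith
  -- conclusion
  refine ⟨1 / (4 * B), by positivity, B * (6 * c + 1) + 4, ?_⟩
  intro N hN
  set X := N / B with hXdef
  have hXc : 6 * c ≤ X := by
    rw [hXdef, Nat.le_div_iff_mul_le hBpos]
    nlinarith
  have hXN : B * X ≤ N := Nat.mul_div_le N B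
  have hXN' : N < B * (X + 1) := by
    have := Nat.lt_mul_div_succ N hBpos
    simpa [hXdef] using this
  have hXleN : X ≤ N := Nat.div_le_self N B
  have hX1 : 1 ≤ X := by omega
  -- apply stage one
  have s1 := stage1 k X (N / 2) hXc
  have hle : N / 2 + g * (2 ^ k - 1) * X ≤ N := by
    have : g * (2 ^ k - 1) * X ≤ g * 2 ^ k * X := by
      apply Nat.mul_le_mul_right
      exact Nat.mul_le_mul_left _ (Nat.sub_le _ _)
    have h6 : 4 * (g * 2 ^ k * X) ≤ N := by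
      calc 4 * (g * 2 ^ k * X) = (4 * g * 2 ^ k) * X := by ring
        _ ≤ B * X := Nat.mul_le_mul_right _ (by omega)
        _ ≤ N := hXN
    omega
  have s1' := s1.trans (hmono X _ _ hle)
  have s2 := stage2 N X (by omega) hXleN
  have hNR : (B : ℝ) * X ≤ N := by exact_mod_cast hXN
  have hNR' : (N : ℝ) < B * (X + 1) := by exact_mod_cast hXN'
  have hX1R : (1 : ℝ) ≤ X := by exact_mod_cast hX1
  have hhalf : (N : ℝ) / 2 - 1 / 2 ≤ ((N / 2 : ℕ) : ℝ) := by
    have h7 : N ≤ 2 * (N / 2) + 1 := by omega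
    have h8 : (N : ℝ) ≤ 2 * ((N / 2 : ℕ) : ℝ) + 1 := by exact_mod_cast h7
    linarith
  have hN4 : (4 : ℝ) ≤ N := by
    have : 4 ≤ N := by omega
    exact_mod_cast this
  have hmid : (N : ℝ) / 8 ≤ ((N / 2 : ℕ) : ℝ) - C3 * (2 ^ k - 1) * X := by
    have h9 : C3 * (2 ^ k - 1) * X ≤ N / 4 := by
      have : C3 * (2 ^ k - 1) * X ≤ C3 * 2 ^ k * X := by
        have : 0 ≤ C3 * X := by positivity
        nlinarith
      have : 4 * C3 * 2 ^ k * X ≤ B * X := by
        exact mul_le_mul_of_nonneg_right hB1 (by linarith)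
      linarith
    linarith
  have s3 : (X : ℝ) * (8 * (2 * C5 + 1)) * (N / 8) ≤ S X N := by
    refine le_trans ?_ s1'
    have hX0 : (0 : ℝ) ≤ X := by linarith
    have : (0 : ℝ) ≤ (6 / 5) ^ k := by positivity
    gcongr
  have hcR : (1 : ℝ) ≤ c := by exact_mod_cast hc
  have s4 : S X N ≤ √(2 * X) * S (3 * c) N + C5 * N * (2 * X) := by
    refine s2.trans ?_
    have h10 : 2 * (X : ℝ) - 3 * c + 1 ≤ 2 * X := by linarith
    have h11 : √(2 * (X : ℝ) - 3 * c + 1) ≤ √(2 * X) := Real.sqrt_le_sqrt h10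
    have h12 := mul_le_mul_of_nonneg_right h11 (h0 (3 * c) N)
    have h13 : C5 * N * (2 * (X : ℝ) - 3 * c + 1) ≤ C5 * N * (2 * X) :=
      mul_le_mul_of_nonneg_left h10 (by positivity)
    linarith
  have s5 : (X : ℝ) * N ≤ √(2 * X) * S (3 * c) N := by
    have : (X : ℝ) * (8 * (2 * C5 + 1)) * (N / 8) = X * N + C5 * N * (2 * X) := by ring
    linarith
  set w := √(2 * (X : ℝ)) with hw
  have hw2 : w * w = 2 * X := Real.mul_self_sqrt (by linarith)
  have hw0 : 0 < w := Real.sqrt_pos.2 (by linarith)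
  have s6 : w * N / 2 ≤ S (3 * c) N := by
    have : w * (w * N / 2) ≤ w * S (3 * c) N := by
      calc w * (w * N / 2) = (w * w) * N / 2 := by ring
        _ = X * N := by rw [hw2]; ring
        _ ≤ _ := s5
    exact le_of_mul_le_mul_left this hw0
  have hB1R : (1 : ℝ) ≤ B := by exact_mod_cast hBpos
  have s7 : √(N : ℝ) ≤ B * w := by
    apply Real.sqrt_le_iff.2
    refine ⟨by positivity, ?_⟩
    have : (B * w) ^ 2 = B * (B * (2 * X)) := by rw [← hw2]; ring
    rw [this]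
    have h14 : (N : ℝ) ≤ B * (2 * X) := by nlinarith
    nlinarith
  have e3 : (N : ℝ) ^ ((3 : ℝ) / 2) = N * √(N : ℝ) := by
    have : (3 : ℝ) / 2 = 1 + 1 / 2 := by norm_num
    rw [this, Real.rpow_add (by linarith), Real.rpow_one, Real.sqrt_eq_rpow]
  rw [e3]
  calc 1 / (4 * (B : ℝ)) * (N * √(N : ℝ)) ≤ 1 / (4 * (B : ℝ)) * (N * (B * w)) := by
        gcongr
    _ = w * N / 4 := by field_simp
    _ ≤ w * N / 2 := by
        have : 0 ≤ w * N := by positivity
        linarith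
    _ ≤ _ := s6

end Pool.Agent.DigitPowers
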