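import Mathlib
import Pool.Agent.DigitPowers.Average

/-!
# The average number of far levels of `A p ^ t`
-/

open Finset

namespace Pool.Agent.DigitPowers

/-- Number of far levels of `p ^ t A`. -/
noncomputable def farN (p q : ℕ) (A : ℤ) (X t : ℕ) : ℕ := (farSet q X ((p : ℤ) ^ t * A)).card

/-- Number of blocks of far levels of `p ^ t A`. -/
noncomputable def dwnN (p q : ℕ) (A : ℤ) (X t : ℕ) : ℕ := (downSteps q X ((p : ℤ) ^ t * A)).card

lemma sum_shift_le (f : ℕ → ℕ) {a a' : ℕ} (h : a ≤ a') (m : ℕ) :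
    ∑ t ∈ range m, f t ≤ ∑ t ∈ range m, f (a + t) + ∑ t ∈ range a', f t := by
  have h1 : ∑ t ∈ range m, f t ≤ ∑ t ∈ range (a + m), f t :=
    Finset.sum_le_sum_of_subset (Finset.range_mono (by omega))
  have h2 : ∑ t ∈ range (a + m), f t = ∑ t ∈ range a, f t + ∑ t ∈ range m, f (a + t) :=
    Finset.sum_range_add f a m
  have h3 : ∑ t ∈ range a, f t ≤ ∑ t ∈ range a', f t :=
    Finset.sum_le_sum_of_subset (Finset.range_mono h)
  omega

variable {p q : ℕ}

lemma summed_key (hq : 2 ≤ q) (hp : 2 ≤ p) (hpq : Nat.Coprime p q) {c g X : ℕ}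
    (hc : p ≤ q ^ c) (hg : q ≤ p ^ g) (hX : 2 * c ≤ X) (A : ℤ) (m : ℕ) :
    ((X - c + 1) + (X - 2 * c + 1)) * ∑ t ∈ range m, dwnN p q A X t
      ≤ ∑ t ∈ range (m + g * X), farN p q A X t
        + (X - c + 1) * ∑ t ∈ range (g * X), dwnN p q A X t := by
  set S := Nat.log p (q ^ X) with hS
  have hSg : S ≤ g * X := by
    have h1 : q ^ X ≤ p ^ (g * X) := by
      rw [pow_mul]; exact Nat.pow_le_pow_left hg X
    calc S ≤ Nat.log p (p ^ (g * X)) := Nat.log_mono_right h1
      _ = g * X := Nat.log_pow (by omega) _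
  have h1 : ∀ t, ∑ u ∈ Finset.range (X - c + 1),
        dwnN p q A X ((S - Nat.clog p (q ^ u)) + t) + (X - 2 * c + 1) * dwnN p q A X t
      ≤ farN p q A X (S + t) := by
    intro t
    have := key_inequality hq hp hpq hc hX ((p : ℤ) ^ t * A)
    simp only [dwnN, farN]
    rw [pow_add, mul_assoc]
    refine le_trans (le_of_eq ?_) this
    congr 1
    apply Finset.sum_congr rfl
    intro u _
    rw [card_upSteps_eq, pow_add, mul_assoc]
  have h2 : ∑ t ∈ range m, (∑ u ∈ Finset.range (X - c + 1),
        dwnN p q A X ((S - Nat.clog p (q ^ u)) + t) + (X - 2 * c + 1) * dwnN p q A X t)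
      ≤ ∑ t ∈ range m, farN p q A X (S + t) := Finset.sum_le_sum (fun t _ => h1 t)
  rw [Finset.sum_add_distrib, Finset.sum_comm, ← Finset.mul_sum] at h2
  have h3 : ∑ t ∈ range m, farN p q A X (S + t) ≤ ∑ t ∈ range (m + g * X), farN p q A X t := by
    have e1 : ∑ t ∈ range (S + m), farN p q A X t
        = ∑ t ∈ range S, farN p q A X t + ∑ t ∈ range m, farN p q A X (S + t) :=
      Finset.sum_range_add _ _ _
    have e2 : ∑ t ∈ range (S + m), farN p q A X t ≤ ∑ t ∈ range (m + g * X), farN p q A X t :=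
      Finset.sum_le_sum_of_subset (Finset.range_mono (by omega))
    omega
  have h4 : (X - c + 1) * ∑ t ∈ range m, dwnN p q A X t
      ≤ ∑ u ∈ Finset.range (X - c + 1), ∑ t ∈ range m,
          dwnN p q A X ((S - Nat.clog p (q ^ u)) + t)
        + (X - c + 1) * ∑ t ∈ range (g * X), dwnN p q A X t := by
    have e1 : ∀ u ∈ Finset.range (X - c + 1), ∑ t ∈ range m, dwnN p q A X t ≤
        ∑ t ∈ range m, dwnN p q A X ((S - Nat.clog p (q ^ u)) + t)
          + ∑ t ∈ range (g * X), dwnN p q A X t := by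
      intro u _
      exact sum_shift_le _ ((Nat.sub_le _ _).trans hSg) m
    have e2 := Finset.sum_le_sum e1
    rw [Finset.sum_const, Finset.card_range, smul_eq_mul, Finset.sum_add_distrib,
      Finset.sum_const, Finset.card_range, smul_eq_mul] at e2
    exact e2
  rw [add_mul]
  omega

lemma farN_le (hq : 2 ≤ q) {c : ℕ} (hc : p ≤ q ^ c) (A : ℤ) (X t : ℕ) :
    farN p q A X t ≤ Nat.log q ((q + 1) * A.natAbs) + c * t + X + 2 := by
  unfold farN
  refine (card_farSet_le_log q X _).trans ?_
  have e1 : (q + 1) * ((p : ℤ) ^ t * A).natAbs = ((q + 1) * A.natAbs) * p ^ t := by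
    rw [Int.natAbs_mul, Int.natAbs_pow, Int.natAbs_natCast]; ring
  rw [e1]
  have := log_mul_pow_le hq hc ((q + 1) * A.natAbs) t
  omega

lemma mul_dwnN_le (hq : 2 ≤ q) {c : ℕ} (hc : p ≤ q ^ c) (A : ℤ) (X t : ℕ) :
    (X + 1) * dwnN p q A X t ≤ Nat.log q ((q + 1) * A.natAbs) + c * t + X + 2 :=
  (mul_card_downSteps_le hq X _).trans (farN_le hq hc A X t)

/-- On average `p ^ t A`, `t < N`, has at least `κ √N` far levels. -/
theorem far_average (hq : 2 ≤ q) (hp : 2 ≤ p) (hpq : Nat.Coprime p q) {A : ℤ} (hA : A ≠ 0) :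
    ∃ κ : ℝ, 0 < κ ∧ ∃ N₀ : ℕ, ∀ N : ℕ, N₀ ≤ N →
      κ * (N : ℝ) ^ ((3 : ℝ) / 2) ≤ ∑ t ∈ range N, (farN p q A 0 t : ℝ) := by
  obtain ⟨c, hc1, hc⟩ : ∃ c, 1 ≤ c ∧ p ≤ q ^ c := by
    refine ⟨p, by omega, ?_⟩
    exact (Nat.lt_pow_self (by omega)).le
  obtain ⟨g, hg⟩ : ∃ g, q ≤ p ^ g := ⟨q, (Nat.lt_pow_self (by omega)).le⟩
  set L := Nat.log q ((q + 1) * A.natAbs) with hL
  set S : ℕ → ℕ → ℝ := fun X n => ∑ t ∈ range n, (farN p q A X t : ℝ) with hS
  set D : ℕ → ℕ → ℝ := fun X n => ∑ t ∈ range n, (dwnN p q A X t : ℝ) with hD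
  have hx : ∀ t : ℕ, (p : ℤ) ^ t * A ≠ 0 := by
    intro t
    refine mul_ne_zero (pow_ne_zero _ ?_) hA
    exact_mod_cast (by omega : p ≠ 0)
  have hDbound : ∀ X t : ℕ, ((X : ℝ) + 1) * (dwnN p q A X t : ℝ) ≤ L + c * t + X + 2 := by
    intro X t
    have := mul_dwnN_le hq hc A X t
    exact_mod_cast this
  have hDnn : ∀ X n, 0 ≤ D X n := fun X n => Finset.sum_nonneg (fun t _ => Nat.cast_nonneg _)
  have hSnn : ∀ X n, 0 ≤ S X n := fun X n => Finset.sum_nonneg (fun t _ => Nat.cast_nonneg _)
  -- boundary sums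
  have hDsum : ∀ X n : ℕ, ((X : ℝ) + 1) * D X n ≤ n * (L + c * n + X + 2) := by
    intro X n
    rw [hD]
    simp only
    rw [Finset.mul_sum]
    calc ∑ t ∈ range n, ((X : ℝ) + 1) * (dwnN p q A X t : ℝ)
        ≤ ∑ t ∈ range n, ((L : ℝ) + c * n + X + 2) := by
          apply Finset.sum_le_sum
          intro t ht
          refine (hDbound X t).trans ?_
          have : (t : ℝ) ≤ n := by exact_mod_cast (Finset.mem_range.1 ht).le
          gcongr
      _ = n * (L + c * n + X + 2) := by rw [Finset.sum_const, Finset.card_range, nsmul_eq_mul]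
  set C3 : ℝ := g * (L + c * g + 3) with hC3
  set C5 : ℝ := C3 + g * (L + c + 3) with hC5
  have hC3nn : 0 ≤ C3 := by positivity
  have hkey : ∀ X m : ℕ, 2 * c ≤ X →
      (2 * (X : ℝ) - 3 * c + 2) * D X m ≤ S X (m + g * X) + C3 * (X : ℝ) ^ 2 := by
    intro X m hX
    have h1 := summed_key hq hp hpq hc hg hX A m
    have h1' : (((X - c + 1) + (X - 2 * c + 1) : ℕ) : ℝ) * D X m
        ≤ S X (m + g * X) + ((X - c + 1 : ℕ) : ℝ) * D X (g * X) := by
      rw [hS, hD]
      simp only
      exact_mod_cast h1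
    have e1 : (((X - c + 1) + (X - 2 * c + 1) : ℕ) : ℝ) = 2 * (X : ℝ) - 3 * c + 2 := by
      push_cast [Nat.cast_sub (by omega : c ≤ X), Nat.cast_sub hX]
      ring
    rw [e1] at h1'
    have h2 : ((X - c + 1 : ℕ) : ℝ) * D X (g * X) ≤ C3 * (X : ℝ) ^ 2 := by
      have h3 : ((X - c + 1 : ℕ) : ℝ) ≤ (X : ℝ) + 1 := by
        have : X - c + 1 ≤ X + 1 := by omega
        exact_mod_cast this
      have h4 := hDsum X (g * X)
      have h5 : (1 : ℝ) ≤ X := by exact_mod_cast (by omega : 1 ≤ X)
      calc ((X - c + 1 : ℕ) : ℝ) * D X (g * X) ≤ ((X : ℝ) + 1) * D X (g * X) :=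
            mul_le_mul_of_nonneg_right h3 (hDnn _ _)
        _ ≤ ((g * X : ℕ) : ℝ) * (L + c * ((g * X : ℕ) : ℝ) + X + 2) := h4
        _ = g * X * (L + c * g * X + X + 2) := by push_cast; ring
        _ ≤ g * X * (L * X + c * g * X + X + 2 * X) := by
            have h6 : (L : ℝ) ≤ L * X := le_mul_of_one_le_right (by positivity) h5
            gcongr
            linarith
        _ = C3 * (X : ℝ) ^ 2 := by rw [hC3]; ring
    linarith
  have hS2 : ∀ X h m : ℕ, S (X + h) m ≤ S X m + h * D X m := by
    intro X h m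
    rw [hS, hD]
    simp only
    rw [Finset.mul_sum, ← Finset.sum_add_distrib]
    apply Finset.sum_le_sum
    intro t _
    have := card_farSet_add_le hq X h ((p : ℤ) ^ t * A)
    unfold farN dwnN
    exact_mod_cast this
  obtain ⟨κ, hκ, N₀, hN₀⟩ := recursion_lemma S c g C3 C5 hc1 hC3nn (by positivity)
    (by
      intro X n n' hn
      rw [hS]
      simp only
      exact Finset.sum_le_sum_of_subset_of_nonneg (Finset.range_mono hn)
        (fun _ _ _ => Nat.cast_nonneg _))
    hSnn
    (by
      intro X n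
      rw [hS]
      simp only
      calc (n : ℝ) * X = ∑ t ∈ range n, (X : ℝ) := by
            rw [Finset.sum_const, Finset.card_range, nsmul_eq_mul]
        _ ≤ _ := by
            apply Finset.sum_le_sum
            intro t _
            have h9 : X ≤ farN p q A X t := by
              have := succ_le_card_farSet hq X (hx t)
              unfold farN
              omega
            exact_mod_cast h9)
    (by
      intro X m hX
      have h1 := hS2 X X m
      have h2 := hkey X m (by omega)
      have hcR : (1 : ℝ) ≤ c := by exact_mod_cast hc1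
      have hXR : (6 : ℝ) * c ≤ X := by exact_mod_cast hX
      have h3 : S X m ≤ S X (m + g * X) := by
        rw [hS]
        simp only
        exact Finset.sum_le_sum_of_subset_of_nonneg (Finset.range_mono (by omega))
          (fun _ _ _ => Nat.cast_nonneg _)
      have h4 : (3 / 2 : ℝ) * X * D X m ≤ (2 * (X : ℝ) - 3 * c + 2) * D X m :=
        mul_le_mul_of_nonneg_right (by linarith) (hDnn _ _)
      have e1 : X + X = 2 * X := by ring
      rw [e1] at h1
      have h5 : 0 ≤ C3 * (X : ℝ) ^ 2 := by positivity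
      linarith)
    (by
      intro X N hX hXN
      have h1 := hS2 X 1 N
      rw [Nat.cast_one, one_mul] at h1
      have hcR : (1 : ℝ) ≤ c := by exact_mod_cast hc1
      have hXR : (3 : ℝ) * c ≤ X := by exact_mod_cast hX
      have hX1 : (1 : ℝ) ≤ X := by linarith
      have hXNR : (X : ℝ) ≤ N := by exact_mod_cast hXN
      set j : ℝ := 2 * (X : ℝ) - 3 * c + 2 with hj
      have hjX : (X : ℝ) ≤ j := by rw [hj]; linarith
      have hj0 : 0 < j := by linarith
      -- main part
      set m := N - g * X with hm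
      have h2 : j * D X m ≤ S X N + C3 * (X : ℝ) ^ 2 := by
        by_cases hle : g * X ≤ N
        · have := hkey X m (by omega)
          have e1 : m + g * X = N := by omega
          rwa [e1] at this
        · have e1 : m = 0 := by omega
          have e2 : D X m = 0 := by rw [hD, e1]; simp
          rw [e2, mul_zero]
          have := hSnn X N
          positivity
      have h3 : D X m ≤ S X N * (1 / j) + C3 * N := by
        have h4 : D X m ≤ (S X N + C3 * (X : ℝ) ^ 2) / j := by
          rw [le_div_iff₀ hj0]; linarith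
        refine h4.trans ?_
        rw [add_div]
        have h5 : C3 * (X : ℝ) ^ 2 / j ≤ C3 * N := by
          rw [div_le_iff₀ hj0]
          calc C3 * (X : ℝ) ^ 2 = C3 * (X * X) := by ring
            _ ≤ C3 * (N * j) := by gcongr
            _ = _ := by ring
        have h6 : S X N / j = S X N * (1 / j) := by ring
        linarith
      -- boundary part
      have h7 : D X N ≤ D X m + g * (L + c + 3) * N := by
        have e1 : D X N = D X m + ∑ t ∈ Finset.Ico m N, (dwnN p q A X t : ℝ) := by
          rw [hD]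
          simp only
          exact (Finset.sum_range_add_sum_Ico _ (by omega)).symm
        rw [e1]
        have h8 : ((X : ℝ) + 1) * ∑ t ∈ Finset.Ico m N, (dwnN p q A X t : ℝ)
            ≤ (X + 1) * (g * (L + c + 3) * N) := by
          rw [Finset.mul_sum]
          calc ∑ t ∈ Finset.Ico m N, ((X : ℝ) + 1) * (dwnN p q A X t : ℝ)
              ≤ ∑ t ∈ Finset.Ico m N, ((L : ℝ) + c * N + X + 2) := by
                apply Finset.sum_le_sum
                intro t ht
                refine (hDbound X t).trans ?_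
                have : (t : ℝ) ≤ N := by exact_mod_cast (Finset.mem_Ico.1 ht).2.le
                gcongr
            _ = ((N - m : ℕ) : ℝ) * (L + c * N + X + 2) := by
                rw [Finset.sum_const, Nat.card_Ico, nsmul_eq_mul]
            _ ≤ ((g * X : ℕ) : ℝ) * (L + c * N + X + 2) := by
                have : N - m ≤ g * X := by omega
                have : ((N - m : ℕ) : ℝ) ≤ ((g * X : ℕ) : ℝ) := by exact_mod_cast this
                gcongr
            _ ≤ g * (X + 1) * (L * N + c * N + N + 2 * N) := by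
                push_cast
                have hN1 : (1 : ℝ) ≤ N := by linarith
                have h9 : (L : ℝ) ≤ L * N := le_mul_of_one_le_right (by positivity) hN1
                gcongr
                · linarith
                · linarith
            _ = _ := by ring
        have := le_of_mul_le_mul_left h8 (by linarith)
        linarith
      have e9 : S X N * (1 + 1 / j) = S X N + S X N * (1 / j) := by ring
      rw [e9, hC5]
      linarith)
  refine ⟨κ / (3 * c + 1), by positivity, N₀, ?_⟩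
  intro N hN
  have h1 := hN₀ N hN
  have h2 : S (3 * c) N ≤ (3 * c + 1) * S 0 N := by
    rw [hS]
    simp only
    rw [Finset.mul_sum]
    apply Finset.sum_le_sum
    intro t _
    have := card_farSet_le_mul hq (3 * c) ((p : ℤ) ^ t * A)
    unfold farN
    exact_mod_cast this
  have h3 : (0 : ℝ) < 3 * c + 1 := by positivity
  rw [div_mul_eq_mul_div, div_le_iff₀ h3]
  have : κ * (N : ℝ) ^ ((3 : ℝ) / 2) ≤ (3 * c + 1) * S 0 N := h1.trans h2
  linarith

end Pool.Agent.DigitPowers
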