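import Mathlib

/-!
# The semigroup generated by two coprime integers is non-lacunary
-/

namespace Pool.Agent.DigitPowers

lemma irrational_log_div_log {p q : ℕ} (hp : 2 ≤ p) (hq : 2 ≤ q) (hpq : Nat.Coprime p q) :
    Irrational (Real.log p / Real.log q) := by
  have hlp : 0 < Real.log p := Real.log_pos (by exact_mod_cast (by omega : 1 < p))
  have hlq : 0 < Real.log q := Real.log_pos (by exact_mod_cast (by omega : 1 < q))
  rintro ⟨r, hr⟩
  have hr0 : 0 < (r : ℝ) := by rw [hr]; positivity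
  have hr0' : 0 < r := by exact_mod_cast hr0
  have hnum : 0 < r.num := Rat.num_pos.2 hr0'
  obtain ⟨m, hm⟩ : ∃ m : ℕ, r.num = m := ⟨r.num.toNat, (Int.toNat_of_nonneg hnum.le).symm⟩
  have hden : 0 < r.den := r.den_pos
  have h1 : (r : ℝ) = (m : ℝ) / (r.den : ℝ) := by
    rw [Rat.cast_def, hm]; simp
  have hdR : (0 : ℝ) < (r.den : ℝ) := by exact_mod_cast hden
  have h2 : (r.den : ℝ) * Real.log p = m * Real.log q := by
    rw [h1] at hr
    field_simp at hr
    linarith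
  have h3 : Real.log ((p : ℝ) ^ r.den) = Real.log ((q : ℝ) ^ m) := by
    rw [Real.log_pow, Real.log_pow]; exact h2
  have h4 : (p : ℝ) ^ r.den = (q : ℝ) ^ m := by
    apply Real.log_injOn_pos _ _ h3
    · have : (0 : ℝ) < p := by exact_mod_cast (by omega : 0 < p)
      exact Set.mem_Ioi.2 (by positivity)
    · have : (0 : ℝ) < q := by exact_mod_cast (by omega : 0 < q)
      exact Set.mem_Ioi.2 (by positivity)
  have h5 : p ^ r.den = q ^ m := by exact_mod_cast h4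
  have h6 : Nat.Coprime (p ^ r.den) (q ^ m) := hpq.pow _ _
  rw [← h5, Nat.coprime_self] at h6
  have : 1 < p ^ r.den := Nat.one_lt_pow (by omega) (by omega)
  omega

lemma exists_ratio {p q : ℕ} (hp : 2 ≤ p) (hq : 2 ≤ q) (hpq : Nat.Coprime p q) {ε : ℝ}
    (hε : 0 < ε) : ∃ a b : ℕ,
      (1 < (p : ℝ) ^ a / (q : ℝ) ^ b ∧ (p : ℝ) ^ a / (q : ℝ) ^ b < 1 + ε) ∨
      (1 < (q : ℝ) ^ a / (p : ℝ) ^ b ∧ (q : ℝ) ^ a / (p : ℝ) ^ b < 1 + ε) := by
  have hpR : (0 : ℝ) < p := by exact_mod_cast (by omega : 0 < p)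
  have hqR : (0 : ℝ) < q := by exact_mod_cast (by omega : 0 < q)
  have hp2 : Real.log 2 ≤ Real.log p :=
    Real.log_le_log (by norm_num) (by exact_mod_cast hp)
  have hq2 : Real.log 2 ≤ Real.log q :=
    Real.log_le_log (by norm_num) (by exact_mod_cast hq)
  have hl2 : 0 < Real.log 2 := Real.log_pos (by norm_num)
  have hd := dense_addSubgroupClosure_pair_iff.2 (irrational_log_div_log hp hq hpq)
  set δ := min (Real.log (1 + ε)) (Real.log 2) with hδ
  have hδ0 : 0 < δ := lt_min (Real.log_pos (by linarith)) hl2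
  obtain ⟨x, hx1, hx2⟩ := hd.exists_mem_open (isOpen_Ioo (a := (0 : ℝ)) (b := δ))
    ⟨δ / 2, by constructor <;> linarith⟩
  rw [SetLike.mem_coe, AddSubgroup.mem_closure_pair] at hx1
  obtain ⟨m, n, hmn⟩ := hx1
  rw [zsmul_eq_mul, zsmul_eq_mul] at hmn
  rw [← hmn] at hx2
  obtain ⟨h0, h1⟩ := hx2
  have h1a : (m : ℝ) * Real.log p + n * Real.log q < Real.log (1 + ε) :=
    lt_of_lt_of_le h1 (min_le_left _ _)
  have h1b : (m : ℝ) * Real.log p + n * Real.log q < Real.log 2 :=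
    lt_of_lt_of_le h1 (min_le_right _ _)
  have gen : ∀ (P Q : ℕ) (_ : 0 < P) (_ : 0 < Q) (a b : ℕ),
      0 < (a : ℝ) * Real.log P - b * Real.log Q →
      (a : ℝ) * Real.log P - b * Real.log Q < Real.log (1 + ε) →
      1 < (P : ℝ) ^ a / (Q : ℝ) ^ b ∧ (P : ℝ) ^ a / (Q : ℝ) ^ b < 1 + ε := by
    intro P Q hP hQ a b h2 h3
    have hPR : (0 : ℝ) < P := by exact_mod_cast hP
    have hQR : (0 : ℝ) < Q := by exact_mod_cast hQ
    have e : (a : ℝ) * Real.log P - b * Real.log Q = Real.log ((P : ℝ) ^ a / (Q : ℝ) ^ b) := by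
      rw [Real.log_div (by positivity) (by positivity), Real.log_pow, Real.log_pow]
    rw [e] at h2 h3
    have hpos : 0 < (P : ℝ) ^ a / (Q : ℝ) ^ b := by positivity
    exact ⟨(Real.log_pos_iff hpos.le).1 h2, (Real.log_lt_log_iff hpos (by linarith)).1 h3⟩
  rcases le_or_gt 0 m with hm | hm
  · rcases le_or_gt 0 n with hn | hn
    · exfalso
      have hmR : (0 : ℝ) ≤ m := by exact_mod_cast hm
      have hnR : (0 : ℝ) ≤ n := by exact_mod_cast hn
      rcases eq_or_lt_of_le hm with hm0 | hm0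
      · rcases eq_or_lt_of_le hn with hn0 | hn0
        · rw [← hm0, ← hn0] at h0
          simp at h0
        · have : (1 : ℝ) ≤ n := by exact_mod_cast hn0
          nlinarith
      · have : (1 : ℝ) ≤ m := by exact_mod_cast hm0
        nlinarith
    · refine ⟨m.toNat, (-n).toNat, Or.inl (gen p q (by omega) (by omega) _ _ ?_ ?_)⟩
      · have e1 : ((m.toNat : ℕ) : ℝ) = m := by
          have := Int.toNat_of_nonneg hm
          exact_mod_cast this
        have e2 : (((-n).toNat : ℕ) : ℝ) = -n := by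
          have := Int.toNat_of_nonneg (by omega : 0 ≤ -n)
          exact_mod_cast this
        rw [e1, e2]; linarith
      · have e1 : ((m.toNat : ℕ) : ℝ) = m := by
          have := Int.toNat_of_nonneg hm
          exact_mod_cast this
        have e2 : (((-n).toNat : ℕ) : ℝ) = -n := by
          have := Int.toNat_of_nonneg (by omega : 0 ≤ -n)
          exact_mod_cast this
        rw [e1, e2]; linarith
  · rcases le_or_gt n 0 with hn | hn
    · exfalso
      have hmR : (m : ℝ) ≤ 0 := by exact_mod_cast hm.le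
      have hnR : (n : ℝ) ≤ 0 := by exact_mod_cast hn
      nlinarith
    · refine ⟨n.toNat, (-m).toNat, Or.inr (gen q p (by omega) (by omega) _ _ ?_ ?_)⟩
      · have e1 : ((n.toNat : ℕ) : ℝ) = n := by
          have := Int.toNat_of_nonneg hn.le
          exact_mod_cast this
        have e2 : (((-m).toNat : ℕ) : ℝ) = -m := by
          have := Int.toNat_of_nonneg (by omega : 0 ≤ -m)
          exact_mod_cast this
        rw [e1, e2]; linarith
      · have e1 : ((n.toNat : ℕ) : ℝ) = n := by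
          have := Int.toNat_of_nonneg hn.le
          exact_mod_cast this
        have e2 : (((-m).toNat : ℕ) : ℝ) = -m := by
          have := Int.toNat_of_nonneg (by omega : 0 ≤ -m)
          exact_mod_cast this
        rw [e1, e2]; linarith

lemma step_up {P Q a b : ℕ} (hP : 2 ≤ P) (hQ : 2 ≤ Q) {ε : ℝ}
    (h1 : 1 < (P : ℝ) ^ a / (Q : ℝ) ^ b) (h2 : (P : ℝ) ^ a / (Q : ℝ) ^ b < 1 + ε) :
    ∃ R : ℝ, 0 < R ∧ ∀ z : ℝ, R ≤ z → ∃ i j : ℕ,
      z ≤ (P : ℝ) ^ i * (Q : ℝ) ^ j ∧ (P : ℝ) ^ i * (Q : ℝ) ^ j ≤ (1 + ε) * z := by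
  have hPR : (0 : ℝ) < P := by exact_mod_cast (by omega : 0 < P)
  have hQR : (0 : ℝ) < Q := by exact_mod_cast (by omega : 0 < Q)
  have hQ1 : (1 : ℝ) < Q := by exact_mod_cast (by omega : 1 < Q)
  set θ := (P : ℝ) ^ a / (Q : ℝ) ^ b with hθ
  have hε : 0 < ε := by linarith
  obtain ⟨M, hM⟩ := pow_unbounded_of_one_lt (Q : ℝ) h1
  refine ⟨(Q : ℝ) ^ (b * M), by positivity, ?_⟩
  intro z hz
  have hz1 : 1 ≤ z := le_trans (one_le_pow₀ hQ1.le) hz
  obtain ⟨j, hj1, hj2⟩ := exists_nat_pow_near hz1 hQ1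
  have hbj : b * M ≤ j := by
    have : (Q : ℝ) ^ (b * M) < (Q : ℝ) ^ (j + 1) := lt_of_le_of_lt hz hj2
    have := (pow_lt_pow_iff_right₀ hQ1).1 this
    omega
  have hex : ∃ k, z ≤ (Q : ℝ) ^ j * θ ^ k := by
    refine ⟨M, ?_⟩
    rw [pow_succ] at hj2
    have : (Q : ℝ) ^ j * Q ≤ (Q : ℝ) ^ j * θ ^ M := by gcongr
    linarith
  classical
  set k := Nat.find hex with hk
  have hk1 : z ≤ (Q : ℝ) ^ j * θ ^ k := Nat.find_spec hex
  have hkM : k ≤ M := by
    apply Nat.find_min' hex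
    rw [pow_succ] at hj2
    have : (Q : ℝ) ^ j * Q ≤ (Q : ℝ) ^ j * θ ^ M := by gcongr
    linarith
  have hval : (P : ℝ) ^ (a * k) * (Q : ℝ) ^ (j - b * k) = (Q : ℝ) ^ j * θ ^ k := by
    have hbk : b * k ≤ j := (Nat.mul_le_mul_left b hkM).trans hbj
    rw [hθ, div_pow, ← pow_mul, ← pow_mul]
    rw [mul_div_assoc', eq_div_iff (by positivity), mul_assoc, ← pow_add]
    rw [Nat.sub_add_cancel hbk]
    ring
  refine ⟨a * k, j - b * k, ?_, ?_⟩
  · rw [hval]; exact hk1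
  · rw [hval]
    rcases Nat.eq_zero_or_pos k with h0 | h0
    · rw [h0]
      nlinarith
    · have h3 : ¬ z ≤ (Q : ℝ) ^ j * θ ^ (k - 1) := Nat.find_min hex (by omega)
      push Not at h3
      have h4 : θ ^ k = θ ^ (k - 1) * θ := by rw [← pow_succ]; congr 1; omega
      rw [h4, ← mul_assoc]
      have h5 : 0 ≤ (Q : ℝ) ^ j * θ ^ (k - 1) := by positivity
      calc (Q : ℝ) ^ j * θ ^ (k - 1) * θ ≤ z * (1 + ε) := by gcongr
        _ = _ := by ring

/-- The multiplicative semigroup generated by coprime `p, q ≥ 2` is non-lacunary. -/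
theorem nonlacunary {p q : ℕ} (hp : 2 ≤ p) (hq : 2 ≤ q) (hpq : Nat.Coprime p q) {ε : ℝ}
    (hε : 0 < ε) : ∃ R : ℝ, 0 < R ∧ ∀ z : ℝ, R ≤ z → ∃ i j : ℕ,
      z ≤ (p : ℝ) ^ i * (q : ℝ) ^ j ∧ (p : ℝ) ^ i * (q : ℝ) ^ j ≤ (1 + ε) * z := by
  obtain ⟨a, b, h | h⟩ := exists_ratio hp hq hpq hε
  · exact step_up hp hq h.1 h.2
  · obtain ⟨R, hR, hR'⟩ := step_up hq hp h.1 h.2
    refine ⟨R, hR, fun z hz => ?_⟩
    obtain ⟨i, j, h1, h2⟩ := hR' z hz
    exact ⟨j, i, by rwa [mul_comm], by rwa [mul_comm]⟩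

end Pool.Agent.DigitPowers
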