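import Mathlib
import Pool.Agent.DigitPowers.Nonlacunary

/-!
# Furstenberg's theorem on closed sets invariant under two coprime multiplications

We follow Boshernitzan's elementary proof.
-/

open Set Filter Topology

namespace Pool.Agent.DigitPowers

lemma circle_nsmul_coe (n : ℕ) (a : ℝ) :
    n • (a : UnitAddCircle) = ((n * a : ℝ) : UnitAddCircle) := by
  rw [← nsmul_eq_mul, AddCircle.coe_nsmul]

lemma circle_coe_int (n : ℤ) : ((n : ℝ) : UnitAddCircle) = 0 := by
  rw [AddCircle.coe_eq_zero_iff]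
  exact ⟨n, by simp⟩

lemma circle_norm_le (a : ℝ) : ‖(a : UnitAddCircle)‖ ≤ |a| := by
  rw [UnitAddCircle.norm_eq]
  simpa using round_le a 0

lemma circle_lift (x : UnitAddCircle) : ∃ a : ℝ, (a : UnitAddCircle) = x ∧ |a| = ‖x‖ := by
  induction x using QuotientAddGroup.induction_on with
  | H t =>
    refine ⟨t - round t, ?_, ?_⟩
    · rw [AddCircle.coe_sub, circle_coe_int, sub_zero]
    · exact (UnitAddCircle.norm_eq (x := t)).symm

lemma circle_lift_Ico (x : UnitAddCircle) : ∃ a : ℝ, (a : UnitAddCircle) = x ∧ 0 ≤ a ∧ a < 1 := by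
  induction x using QuotientAddGroup.induction_on with
  | H t =>
    refine ⟨Int.fract t, ?_, Int.fract_nonneg t, Int.fract_lt_one t⟩
    rw [Int.fract, AddCircle.coe_sub, circle_coe_int, sub_zero]

lemma circle_nsmul_mem {P : ℕ} {A : Set UnitAddCircle} (h1 : ∀ x ∈ A, P • x ∈ A) (i : ℕ) :
    ∀ x ∈ A, P ^ i • x ∈ A := by
  induction i with
  | zero => intro x hx; simpa using hx
  | succ i ih =>
    intro x hx
    rw [pow_succ, mul_comm, mul_nsmul]
    exact ih _ (h1 x hx) |> fun h => by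
      rw [smul_comm] at h ⊢
      exact h

lemma circle_nsmul_sub_eq_zero {a b : ℕ} (h : a ≤ b) {x : UnitAddCircle} (hx : a • x = b • x) :
    (b - a) • x = 0 := by
  have : (b - a + a) • x = b • x := by rw [Nat.sub_add_cancel h]
  rw [add_nsmul, hx] at this
  exact add_eq_right.1 this

lemma eq_univ_of_zero_acc {P Q : ℕ} (hP : 2 ≤ P) (hQ : 2 ≤ Q) (hPQ : Nat.Coprime P Q)
    {A : Set UnitAddCircle} (hA : IsClosed A) (h1 : ∀ x ∈ A, P • x ∈ A)
    (h2 : ∀ x ∈ A, Q • x ∈ A) (h0 : ∀ ε > 0, ∃ x ∈ A, x ≠ 0 ∧ ‖x‖ < ε) : A = univ := by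
  rw [← hA.closure_eq, ← dense_iff_closure_eq, Metric.dense_iff]
  intro y r hr
  obtain ⟨R, hR, hR'⟩ := nonlacunary hP hQ hPQ (show (0 : ℝ) < r / 4 by positivity)
  obtain ⟨x, hxA, hx0, hxn⟩ := h0 (1 / R) (by positivity)
  obtain ⟨a, rfl, ha⟩ := circle_lift x
  have ha0 : a ≠ 0 := by
    rintro rfl
    exact hx0 (by simp)
  have habs : 0 < |a| := abs_pos.2 ha0
  rw [← ha] at hxn
  have hRa : R ≤ 1 / |a| := by
    rw [le_div_iff₀ habs]
    rw [lt_div_iff₀ hR] at hxn
    linarith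
  -- reduce to a common statement
  have main : ∀ y' : UnitAddCircle, ∃ (s : ℕ) (t : ℝ), (∀ z ∈ A, s • z ∈ A) ∧
      (t : UnitAddCircle) = y' ∧ |(s : ℝ) * |a| - t| < r := by
    intro y'
    obtain ⟨t, rfl, ht0, ht1⟩ := circle_lift_Ico y'
    have hz : R ≤ (t + 1) / |a| := by
      refine hRa.trans ?_
      gcongr
      linarith
    obtain ⟨i, j, hij1, hij2⟩ := hR' _ hz
    refine ⟨P ^ i * Q ^ j, t + 1, ?_, ?_, ?_⟩
    · intro z hz
      rw [mul_nsmul]
      exact circle_nsmul_mem h2 j _ (circle_nsmul_mem h1 i z hz)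
    · rw [AddCircle.coe_add]
      have := circle_coe_int 1
      rw [Int.cast_one] at this
      rw [this, add_zero]
    · push_cast
      rw [div_le_iff₀ habs] at hij1
      have h3 : (P : ℝ) ^ i * (Q : ℝ) ^ j * |a| ≤ (1 + r / 4) * (t + 1) := by
        calc (P : ℝ) ^ i * (Q : ℝ) ^ j * |a| ≤ ((1 + r / 4) * ((t + 1) / |a|)) * |a| := by gcongr
          _ = _ := by field_simp
      rw [abs_of_nonneg (by linarith)]
      nlinarith
  rcases lt_or_gt_of_ne ha0 with hneg | hpos
  · obtain ⟨s, t, hs, ht, hst⟩ := main (-y)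
    refine ⟨s • (a : UnitAddCircle), ?_, hs _ hxA⟩
    rw [Metric.mem_ball, dist_eq_norm]
    have hy : y = ((-t : ℝ) : UnitAddCircle) := by rw [AddCircle.coe_neg, ht, neg_neg]
    rw [hy, circle_nsmul_coe, ← AddCircle.coe_sub]
    refine lt_of_le_of_lt (circle_norm_le _) ?_
    rw [abs_of_neg hneg] at hst
    rw [← abs_neg]
    have e : -((s : ℝ) * a - -t) = s * -a - t := by ring
    rwa [e]
  · obtain ⟨s, t, hs, ht, hst⟩ := main y
    refine ⟨s • (a : UnitAddCircle), ?_, hs _ hxA⟩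
    rw [Metric.mem_ball, dist_eq_norm]
    rw [← ht, circle_nsmul_coe, ← AddCircle.coe_sub]
    refine lt_of_le_of_lt (circle_norm_le _) ?_
    rwa [abs_of_pos hpos] at hst

lemma eq_univ_of_interior {P : ℕ} (hP : 2 ≤ P) {A : Set UnitAddCircle}
    (h1 : ∀ x ∈ A, P • x ∈ A) (hint : (interior A).Nonempty) : A = univ := by
  obtain ⟨x0, hx0⟩ := hint
  rw [mem_interior_iff_mem_nhds, Metric.mem_nhds_iff] at hx0
  obtain ⟨r, hr, hball⟩ := hx0
  have hPR : (1 : ℝ) < P := by exact_mod_cast (by omega : 1 < P)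
  obtain ⟨n, hn⟩ := pow_unbounded_of_one_lt (1 / r) hPR
  have hPn : (0 : ℝ) < (P : ℝ) ^ n := by positivity
  rw [eq_univ_iff_forall]
  intro w
  obtain ⟨v, hv, hv0, hv1⟩ := circle_lift_Ico (w - P ^ n • x0)
  have hmem : x0 + ((v / (P : ℝ) ^ n : ℝ) : UnitAddCircle) ∈ A := by
    apply hball
    rw [Metric.mem_ball, dist_eq_norm, add_sub_cancel_left]
    refine lt_of_le_of_lt (circle_norm_le _) ?_
    rw [abs_of_nonneg (by positivity), div_lt_iff₀ hPn]
    rw [div_lt_iff₀ hr] at hn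
    linarith
  have h3 := circle_nsmul_mem h1 n _ hmem
  have h4 : P ^ n • (x0 + ((v / (P : ℝ) ^ n : ℝ) : UnitAddCircle)) = w := by
    rw [nsmul_add, circle_nsmul_coe]
    have : ((P ^ n : ℕ) : ℝ) * (v / (P : ℝ) ^ n) = v := by
      push_cast; field_simp
    rw [this, hv]
    abel
  rwa [h4] at h3

lemma eq_univ_of_torsion_acc {P Q : ℕ} (hP : 2 ≤ P) (hQ : 2 ≤ Q) (hPQ : Nat.Coprime P Q)
    {X : Set UnitAddCircle} (hX : IsClosed X) (h1 : ∀ x ∈ X, P • x ∈ X)
    (h2 : ∀ x ∈ X, Q • x ∈ X) {d : ℕ} (hd : 0 < d) {r : UnitAddCircle} (hr : d • r = 0)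
    (h0 : ∀ ε > 0, ∃ x ∈ X, x ≠ r ∧ ‖x - r‖ < ε) : X = univ := by
  have hdR : (0 : ℝ) < d := by exact_mod_cast hd
  have hd1 : (1 : ℝ) ≤ d := by exact_mod_cast hd
  -- the multiple `d X` is everything
  have hdX : (fun x : UnitAddCircle => d • x) '' X = univ := by
    apply eq_univ_of_zero_acc hP hQ hPQ
    · exact (hX.isCompact.image (continuous_nsmul d)).isClosed
    · rintro _ ⟨x, hx, rfl⟩
      exact ⟨P • x, h1 x hx, smul_comm d P x⟩
    · rintro _ ⟨x, hx, rfl⟩
      exact ⟨Q • x, h2 x hx, smul_comm d Q x⟩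
    · intro ε hε
      obtain ⟨x, hxX, hxr, hxn⟩ := h0 (min (ε / d) (1 / (2 * d))) (by positivity)
      refine ⟨d • x, ⟨x, hxX, rfl⟩, ?_⟩
      obtain ⟨a, ha, hab⟩ := circle_lift (x - r)
      rw [← hab] at hxn
      have e1 : d • x = ((d * a : ℝ) : UnitAddCircle) := by
        rw [← circle_nsmul_coe, ha, nsmul_sub, hr, sub_zero]
      have ha1 : |a| < ε / d := lt_of_lt_of_le hxn (min_le_left _ _)
      have ha2 : |a| < 1 / (2 * d) := lt_of_lt_of_le hxn (min_le_right _ _)
      have ha0 : a ≠ 0 := by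
        rintro rfl
        apply hxr
        have : x - r = 0 := by rw [← ha]; simp
        exact sub_eq_zero.1 this
      rw [e1]
      constructor
      · intro h
        rw [AddCircle.coe_eq_zero_iff] at h
        obtain ⟨n, hn⟩ := h
        have hn' : (n : ℝ) = d * a := by simpa using hn
        have h3 : |(n : ℝ)| < 1 := by
          rw [hn', abs_mul, abs_of_pos hdR]
          rw [lt_div_iff₀ (by positivity)] at ha2
          nlinarith [abs_nonneg a]
        have h4 : |n| < 1 := by exact_mod_cast h3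
        have h5 : n = 0 := Int.abs_lt_one_iff.1 h4
        rw [h5, Int.cast_zero] at hn'
        rcases mul_eq_zero.1 hn'.symm with h6 | h6
        · exact hdR.ne' h6
        · exact ha0 h6
      · refine lt_of_le_of_lt (circle_norm_le _) ?_
        rw [abs_mul, abs_of_pos hdR]
        rw [lt_div_iff₀ hdR] at ha1
        linarith
  -- hence finitely many translates of `X` cover the circle
  have hcov : ⋃ j : Fin d, {w : UnitAddCircle | w - (((j : ℕ) / (d : ℝ) : ℝ) : UnitAddCircle) ∈ X}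
      = univ := by
    rw [eq_univ_iff_forall]
    intro w
    have : d • w ∈ (fun x : UnitAddCircle => d • x) '' X := by rw [hdX]; exact mem_univ _
    obtain ⟨x, hx, hxw⟩ := this
    simp only at hxw
    obtain ⟨a, ha, ha0, ha1⟩ := circle_lift_Ico (w - x)
    have h3 : ((d * a : ℝ) : UnitAddCircle) = 0 := by
      rw [← circle_nsmul_coe, ha, nsmul_sub, hxw, sub_self]
    rw [AddCircle.coe_eq_zero_iff] at h3
    obtain ⟨n, hn⟩ := h3
    have hn' : (n : ℝ) = d * a := by simpa using hn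
    have hn0 : 0 ≤ n := by
      have : (0 : ℝ) ≤ n := by rw [hn']; positivity
      exact_mod_cast this
    have hnd : n < d := by
      have : (n : ℝ) < d := by rw [hn']; nlinarith
      exact_mod_cast this
    rw [mem_iUnion]
    refine ⟨⟨n.toNat, by omega⟩, ?_⟩
    rw [mem_ofPred_eq]
    have e1 : (((n.toNat : ℕ) : ℝ) / (d : ℝ) : ℝ) = a := by
      have : ((n.toNat : ℕ) : ℝ) = n := by
        have := Int.toNat_of_nonneg hn0
        exact_mod_cast this
      rw [this, hn']; field_simp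
    simp only
    rw [e1, ha, sub_sub_cancel]
    exact hx
  obtain ⟨j, x0, hj⟩ := nonempty_interior_of_iUnion_of_closed (fun j => by
    exact hX.preimage (continuous_id.sub continuous_const)) hcov
  rw [mem_interior_iff_mem_nhds, Metric.mem_nhds_iff] at hj
  obtain ⟨ρ, hρ, hball⟩ := hj
  apply eq_univ_of_interior hP h1
  refine ⟨x0 - (((j : ℕ) / (d : ℝ) : ℝ) : UnitAddCircle), ?_⟩
  rw [mem_interior_iff_mem_nhds, Metric.mem_nhds_iff]
  refine ⟨ρ, hρ, ?_⟩
  intro y hy
  have h5 : y + (((j : ℕ) / (d : ℝ) : ℝ) : UnitAddCircle) ∈ Metric.ball x0 ρ := by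
    rw [Metric.mem_ball, dist_eq_norm] at hy ⊢
    have e : y + (((j : ℕ) / (d : ℝ) : ℝ) : UnitAddCircle) - x0
        = y - (x0 - (((j : ℕ) / (d : ℝ) : ℝ) : UnitAddCircle)) := by abel
    rwa [e]
  have h6 := hball h5
  rw [mem_ofPred_eq, add_sub_cancel_right] at h6
  exact h6

lemma exists_sub_eq {P Q : ℕ} (hP : 2 ≤ P) (hQ : 2 ≤ Q) (hPQ : Nat.Coprime P Q)
    {Y : Set UnitAddCircle} (hY : IsClosed Y) (hne : Y.Nonempty) (h1 : ∀ x ∈ Y, P • x ∈ Y)
    (h2 : ∀ x ∈ Y, Q • x ∈ Y) (htor : ∀ x ∈ Y, ∀ n : ℕ, 0 < n → n • x ≠ 0)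
    (w : UnitAddCircle) : ∃ y ∈ Y, ∃ y' ∈ Y, y' - y = w := by
  have hinf : Y.Infinite := by
    obtain ⟨x, hx⟩ := hne
    apply Set.infinite_of_injective_forall_mem (f := fun n : ℕ => P ^ n • x)
    · have main : ∀ n m : ℕ, n < m → P ^ n • x ≠ P ^ m • x := by
        intro n m hnm h
        have hlt : P ^ n < P ^ m := Nat.pow_lt_pow_right (by omega) hnm
        apply htor x hx (P ^ m - P ^ n) (by omega)
        exact circle_nsmul_sub_eq_zero hlt.le h
      intro n m h
      rcases lt_trichotomy n m with h3 | h3 | h3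
      · exact absurd h (main n m h3)
      · exact h3
      · exact absurd h.symm (main m n h3)
    · intro n
      exact circle_nsmul_mem h1 n x hx
  obtain ⟨x0, hx0, hacc⟩ := hinf.exists_accPt_of_subset_isCompact hY.isCompact Subset.rfl
  rw [accPt_iff_frequently] at hacc
  have hD : (fun z : UnitAddCircle × UnitAddCircle => z.2 - z.1) '' (Y ×ˢ Y) = univ := by
    apply eq_univ_of_zero_acc hP hQ hPQ
    · exact ((hY.isCompact.prod hY.isCompact).image (continuous_snd.sub continuous_fst)).isClosed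
    · rintro _ ⟨⟨x, y⟩, ⟨hx, hy⟩, rfl⟩
      exact ⟨(P • x, P • y), ⟨h1 _ hx, h1 _ hy⟩, (nsmul_sub _ _ _).symm⟩
    · rintro _ ⟨⟨x, y⟩, ⟨hx, hy⟩, rfl⟩
      exact ⟨(Q • x, Q • y), ⟨h2 _ hx, h2 _ hy⟩, (nsmul_sub _ _ _).symm⟩
    · intro ε hε
      obtain ⟨y, hy, hyne, hyY⟩ := (hacc.and_eventually (Metric.ball_mem_nhds x0 hε)).exists.imp
        (fun y hy => (⟨hy.2, hy.1.1, hy.1.2⟩ : y ∈ Metric.ball x0 ε ∧ y ≠ x0 ∧ y ∈ Y))
      refine ⟨y - x0, ⟨(x0, y), ⟨hx0, hyY⟩, rfl⟩, sub_ne_zero.2 hyne, ?_⟩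
      rwa [Metric.mem_ball, dist_eq_norm] at hy
  have : w ∈ (fun z : UnitAddCircle × UnitAddCircle => z.2 - z.1) '' (Y ×ˢ Y) := by
    rw [hD]; exact mem_univ _
  obtain ⟨⟨y, y'⟩, ⟨hy, hy'⟩, h⟩ := this
  exact ⟨y, hy, y', hy', h⟩

lemma exists_chain {p q : ℕ} (hp : 2 ≤ p) (hq : 2 ≤ q) (hpq : Nat.Coprime p q)
    {Y : Set UnitAddCircle} (hY : IsClosed Y) (hne : Y.Nonempty) (h1 : ∀ x ∈ Y, p • x ∈ Y)
    (h2 : ∀ x ∈ Y, q • x ∈ Y) (htor : ∀ x ∈ Y, ∀ n : ℕ, 0 < n → n • x ≠ 0)
    {t : ℕ} (ht : 0 < t) (htp : Nat.Coprime p t) (htq : Nat.Coprime q t) (i : ℕ) :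
    ∃ x, ∀ j ≤ i, x + (((j : ℕ) / (t : ℝ) : ℝ) : UnitAddCircle) ∈ Y := by
  set u := Nat.totient t with hu
  have hu0 : 0 < u := Nat.totient_pos.2 ht
  have hPmod : ∀ p : ℕ, Nat.Coprime p t → ∃ k : ℕ, p ^ u = 1 + t * k ∨ t = 1 := by
    intro p hp
    by_cases ht1 : t = 1
    · exact ⟨0, Or.inr ht1⟩
    have h3 : p ^ u ≡ 1 [MOD t] := Nat.ModEq.pow_totient hp
    have h4 : p ^ u % t = 1 := by
      rw [h3, Nat.mod_eq_of_lt (by omega)]
    refine ⟨p ^ u / t, Or.inl ?_⟩
    have := Nat.mod_add_div (p ^ u) t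
    omega
  have hshift : ∀ P : ℕ, (∃ k : ℕ, P = 1 + t * k ∨ t = 1) → ∀ j : ℕ,
      P • ((((j : ℕ) / (t : ℝ) : ℝ)) : UnitAddCircle) = (((j : ℕ) / (t : ℝ) : ℝ) : UnitAddCircle) := by
    rintro P ⟨k, hk⟩ j
    have htR : (0 : ℝ) < t := by exact_mod_cast ht
    rw [circle_nsmul_coe]
    rcases hk with hk | hk
    · have e : (P : ℝ) * ((j : ℝ) / t) = (j : ℝ) / t + ((k * j : ℕ) : ℤ) := by
        rw [hk]; push_cast; field_simp
      rw [e, AddCircle.coe_add, circle_coe_int, add_zero]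
    · have e1 : (P : ℝ) * ((j : ℝ) / t) = (((P * j : ℕ) : ℤ) : ℝ) := by
        rw [hk]; push_cast; ring
      have e2 : ((j : ℝ) / t) = (((j : ℕ) : ℤ) : ℝ) := by
        rw [hk]; push_cast; ring
      rw [e1, e2, circle_coe_int, circle_coe_int]
  have hP2 : 2 ≤ p ^ u := le_trans hp (Nat.le_self_pow (by omega) p)
  have hQ2 : 2 ≤ q ^ u := le_trans hq (Nat.le_self_pow (by omega) q)
  have hPQ : Nat.Coprime (p ^ u) (q ^ u) := hpq.pow _ _
  have hPs := hshift _ (hPmod p htp)
  have hQs := hshift _ (hPmod q htq)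
  induction i with
  | zero =>
    obtain ⟨x, hx⟩ := hne
    refine ⟨x, ?_⟩
    intro j hj
    obtain rfl : j = 0 := by omega
    simpa using hx
  | succ i ih =>
    set Z : Set UnitAddCircle :=
      {x | ∀ j ≤ i, x + (((j : ℕ) / (t : ℝ) : ℝ) : UnitAddCircle) ∈ Y} with hZ
    have hZclosed : IsClosed Z := by
      have : Z = ⋂ j : ℕ, ⋂ _ : j ≤ i, {x | x + (((j : ℕ) / (t : ℝ) : ℝ) : UnitAddCircle) ∈ Y} := by
        ext x
        simp [hZ]
      rw [this]
      refine isClosed_iInter fun j => isClosed_iInter fun _ => ?_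
      exact hY.preimage (continuous_id.add continuous_const)
    have hZY : Z ⊆ Y := by
      intro x hx
      have := hx 0 (Nat.zero_le _)
      simpa using this
    obtain ⟨y, hy, y', hy', hyy⟩ := exists_sub_eq hP2 hQ2 hPQ hZclosed ih
      (by
        intro x hx j hj
        have := circle_nsmul_mem h1 u _ (hx j hj)
        rw [nsmul_add, hPs] at this
        exact this)
      (by
        intro x hx j hj
        have := circle_nsmul_mem h2 u _ (hx j hj)
        rw [nsmul_add, hQs] at this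
        exact this)
      (fun x hx => htor x (hZY hx)) (((1 / (t : ℝ) : ℝ)) : UnitAddCircle)
    refine ⟨y, ?_⟩
    intro j hj
    rcases Nat.lt_or_ge j (i + 1) with h3 | h3
    · exact hy j (by omega)
    · obtain rfl : j = i + 1 := by omega
      have h4 := hy' i le_rfl
      have e : y + ((((i + 1 : ℕ) : ℝ) / (t : ℝ) : ℝ) : UnitAddCircle)
          = y' + (((i : ℕ) / (t : ℝ) : ℝ) : UnitAddCircle) := by
        have e2 : (((i + 1 : ℕ) : ℝ) / (t : ℝ) : ℝ) = 1 / (t : ℝ) + (i : ℝ) / t := by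
          push_cast; ring
        rw [e2, AddCircle.coe_add, ← hyy]
        abel
      rw [e]
      exact h4

/-- **Furstenberg's theorem**: a proper closed subset of the circle which is invariant under
multiplication by two coprime integers `p, q ≥ 2` is finite and consists of torsion points. -/
theorem furstenberg {p q : ℕ} (hp : 2 ≤ p) (hq : 2 ≤ q) (hpq : Nat.Coprime p q)
    {X : Set UnitAddCircle} (hX : IsClosed X) (h1 : ∀ x ∈ X, p • x ∈ X)
    (h2 : ∀ x ∈ X, q • x ∈ X) (hne : X ≠ univ) :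
    X.Finite ∧ ∀ x ∈ X, ∃ n : ℕ, 0 < n ∧ n • x = 0 := by
  have hfin : X.Finite := by
    by_contra hinf
    have hinf : X.Infinite := hinf
    obtain ⟨x0, hx0, hacc⟩ := hinf.exists_accPt_of_subset_isCompact hX.isCompact Subset.rfl
    set Y := derivedSet X with hYdef
    have hYX : Y ⊆ X := (isClosed_iff_derivedSet_subset X).1 hX
    have hYclosed : IsClosed Y := isClosed_derivedSet X
    have hYne : Y.Nonempty := ⟨x0, hacc⟩
    have hacc' : ∀ x ∈ Y, ∀ ε > 0, ∃ y ∈ X, y ≠ x ∧ ‖y - x‖ < ε := by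
      intro x hx ε hε
      rw [hYdef, mem_derivedSet, accPt_iff_frequently] at hx
      obtain ⟨y, ⟨hyne, hyX⟩, hy⟩ := (hx.and_eventually (Metric.ball_mem_nhds x hε)).exists
      refine ⟨y, hyX, hyne, ?_⟩
      rwa [← dist_eq_norm]
    have hinv : ∀ P : ℕ, 2 ≤ P → (∀ x ∈ X, P • x ∈ X) → ∀ x ∈ Y, P • x ∈ Y := by
      intro P hP hPX x hx
      rw [hYdef, mem_derivedSet, accPt_iff_frequently]
      rw [Metric.nhds_basis_ball.frequently_iff]
      intro ε hε
      have hPR : (0 : ℝ) < P := by exact_mod_cast (by omega : 0 < P)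
      obtain ⟨y, hyX, hyne, hyn⟩ := hacc' x hx (min (ε / P) (1 / (2 * P))) (by positivity)
      obtain ⟨a, ha, hab⟩ := circle_lift (y - x)
      rw [← hab] at hyn
      have e1 : P • y - P • x = ((P * a : ℝ) : UnitAddCircle) := by
        rw [← circle_nsmul_coe, ha, nsmul_sub]
      have ha1 : |a| < ε / P := lt_of_lt_of_le hyn (min_le_left _ _)
      have ha2 : |a| < 1 / (2 * P) := lt_of_lt_of_le hyn (min_le_right _ _)
      have ha0 : a ≠ 0 := by
        rintro rfl
        apply hyne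
        have : y - x = 0 := by rw [← ha]; simp
        exact sub_eq_zero.1 this
      refine ⟨P • y, ?_, ?_, hPX y hyX⟩
      · rw [Metric.mem_ball, dist_eq_norm, e1]
        refine lt_of_le_of_lt (circle_norm_le _) ?_
        rw [abs_mul, abs_of_pos hPR]
        rw [lt_div_iff₀ hPR] at ha1
        linarith
      · intro h
        rw [h, sub_self] at e1
        have h := e1.symm
        rw [AddCircle.coe_eq_zero_iff] at h
        obtain ⟨n, hn⟩ := h
        have hn' : (n : ℝ) = P * a := by simpa using hn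
        have h3 : |(n : ℝ)| < 1 := by
          rw [hn', abs_mul, abs_of_pos hPR]
          rw [lt_div_iff₀ (by positivity)] at ha2
          nlinarith [abs_nonneg a]
        have h4 : |n| < 1 := by exact_mod_cast h3
        have h5 : n = 0 := Int.abs_lt_one_iff.1 h4
        rw [h5, Int.cast_zero] at hn'
        rcases mul_eq_zero.1 hn'.symm with h6 | h6
        · exact hPR.ne' h6
        · exact ha0 h6
    have htor : ∀ x ∈ Y, ∀ n : ℕ, 0 < n → n • x ≠ 0 := by
      intro x hx n hn h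
      exact hne (eq_univ_of_torsion_acc hp hq hpq hX h1 h2 hn h (hacc' x hx))
    have hdense : Y = univ := by
      rw [← hYclosed.closure_eq, ← dense_iff_closure_eq, Metric.dense_iff]
      intro w r hr
      obtain ⟨k, hk⟩ := exists_nat_gt (1 / r)
      set t := p * q * (k + 1) + 1 with ht
      have htp : Nat.Coprime p t := by
        rw [ht, mul_assoc, Nat.coprime_mul_left_add_right]
        exact Nat.coprime_one_right p
      have htq : Nat.Coprime q t := by
        rw [ht]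
        have : p * q * (k + 1) + 1 = q * (p * (k + 1)) + 1 := by ring
        rw [this, Nat.coprime_mul_left_add_right]
        exact Nat.coprime_one_right q
      have htR : (0 : ℝ) < t := by positivity
      have htk : (k : ℝ) ≤ t := by
        have : k ≤ t := by
          rw [ht]
          have : 1 ≤ p * q := Nat.mul_pos (by omega) (by omega)
          nlinarith
        exact_mod_cast this
      obtain ⟨x, hx⟩ := exists_chain hp hq hpq hYclosed hYne (hinv p hp h1) (hinv q hq h2) htor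
        (by omega) htp htq t
      obtain ⟨v, hv, hv0, hv1⟩ := circle_lift_Ico (w - x)
      set j := ⌊v * t⌋₊ with hj
      have hvt : 0 ≤ v * t := by positivity
      have hjt : j ≤ t := by
        have : (j : ℝ) ≤ t := (Nat.floor_le hvt).trans (by nlinarith)
        exact_mod_cast this
      refine ⟨x + (((j : ℕ) / (t : ℝ) : ℝ) : UnitAddCircle), ?_, hx j hjt⟩
      rw [Metric.mem_ball, dist_eq_norm]
      have e : x + (((j : ℕ) / (t : ℝ) : ℝ) : UnitAddCircle) - w
          = (((j : ℝ) / t - v : ℝ) : UnitAddCircle) := by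
        rw [AddCircle.coe_sub, hv]; abel
      rw [e]
      refine lt_of_le_of_lt (circle_norm_le _) ?_
      have h3 : (j : ℝ) ≤ v * t := Nat.floor_le hvt
      have h4 : v * t < j + 1 := Nat.lt_floor_add_one _
      have h5 : (j : ℝ) / t ≤ v := by rw [div_le_iff₀ htR]; exact h3
      rw [abs_of_nonpos (by linarith)]
      have h6 : v < (j : ℝ) / t + 1 / t := by
        rw [← add_div, lt_div_iff₀ htR]; exact h4
      have h7 : 1 / (t : ℝ) < r := by
        rw [div_lt_iff₀ htR]
        rw [div_lt_iff₀ hr] at hk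
        nlinarith
      linarith
    have h0 : (0 : UnitAddCircle) ∈ Y := by rw [hdense]; exact mem_univ _
    exact htor 0 h0 1 one_pos (by simp)
  refine ⟨hfin, ?_⟩
  intro x hx
  by_contra hcon
  push Not at hcon
  have hinf : X.Infinite := by
    apply Set.infinite_of_injective_forall_mem (f := fun n : ℕ => p ^ n • x)
    · have main : ∀ n m : ℕ, n < m → p ^ n • x ≠ p ^ m • x := by
        intro n m hnm h
        have hlt : p ^ n < p ^ m := Nat.pow_lt_pow_right (by omega) hnm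
        apply hcon (p ^ m - p ^ n) (by omega)
        exact circle_nsmul_sub_eq_zero hlt.le h
      intro n m h
      rcases lt_trichotomy n m with h3 | h3 | h3
      · exact absurd h (main n m h3)
      · exact h3
      · exact absurd h.symm (main m n h3)
    · intro n
      exact circle_nsmul_mem h1 n x hx
  exact hinf hfin

end Pool.Agent.DigitPowers
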