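import Mathlib
import Pool.Agent.DigitPowers.Furstenberg
import Pool.Agent.DigitPowers.AverageThm

/-!
# From far levels to occurrences of a digit block

By Furstenberg's theorem and compactness, every far level of `D p ^ n` produces an occurrence of a
given digit block in one of the rows `p ^ n, …, p ^ (n + K)`.
-/

open Set Filter Topology

namespace Pool.Agent.DigitPowers

/-- Positions `i` at which the block `w` of `k` digits occurs in the base `q` expansion of `m`. -/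
def blockPos (q k w m : ℕ) : Finset ℕ :=
  (Finset.range ((Nat.digits q m).length + 1)).filter
    (fun i => i + k ≤ (Nat.digits q m).length ∧ m / q ^ i % q ^ k = w)

lemma exists_killer {F : Set UnitAddCircle} (hF : F.Finite)
    (htor : ∀ x ∈ F, ∃ n : ℕ, 0 < n ∧ n • x = 0) : ∃ D : ℕ, 0 < D ∧ ∀ x ∈ F, D • x = 0 := by
  induction F, hF using Set.Finite.induction_on with
  | empty => exact ⟨1, one_pos, by simp⟩
  | @insert a s _ _ ih =>
    obtain ⟨D, hD, hD'⟩ := ih (fun x hx => htor x (mem_insert_of_mem _ hx))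
    obtain ⟨n, hn, hn'⟩ := htor a (mem_insert _ _)
    refine ⟨D * n, by positivity, ?_⟩
    intro x hx
    rcases mem_insert_iff.1 hx with rfl | hx
    · rw [mul_nsmul', hn', nsmul_zero]
    · rw [mul_nsmul, hD' x hx, nsmul_zero]

/-- Furstenberg plus compactness. -/
theorem exists_uniform_hit {p q : ℕ} (hp : 2 ≤ p) (hq : 2 ≤ q) (hpq : Nat.Coprime p q)
    {U : Set UnitAddCircle} (hU : IsOpen U) (hUne : U.Nonempty) {δ : ℝ} (hδ : 0 < δ) :
    ∃ D K : ℕ, 0 < D ∧ ∀ y : UnitAddCircle, δ ≤ ‖D • y‖ →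
      ∃ i ≤ K, ∃ j ≤ K, (p ^ i * q ^ j) • y ∈ U := by
  set F : Set UnitAddCircle := {y | ∀ i j : ℕ, (p ^ i * q ^ j) • y ∉ U} with hF
  have hFclosed : IsClosed F := by
    have : F = ⋂ i : ℕ, ⋂ j : ℕ, {y | (p ^ i * q ^ j) • y ∉ U} := by
      ext x; simp [hF]
    rw [this]
    refine isClosed_iInter fun i => isClosed_iInter fun j => ?_
    exact hU.isClosed_compl.preimage (continuous_nsmul (p ^ i * q ^ j))
  have h1 : ∀ x ∈ F, p • x ∈ F := by
    intro x hx i j
    have := hx (i + 1) j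
    have e : p ^ (i + 1) * q ^ j = p * (p ^ i * q ^ j) := by ring
    rwa [e, mul_nsmul] at this
  have h2 : ∀ x ∈ F, q • x ∈ F := by
    intro x hx i j
    have := hx i (j + 1)
    have e : p ^ i * q ^ (j + 1) = q * (p ^ i * q ^ j) := by ring
    rwa [e, mul_nsmul] at this
  have hne : F ≠ univ := by
    intro h
    obtain ⟨y, hy⟩ := hUne
    have : y ∈ F := by rw [h]; exact mem_univ _
    have := this 0 0
    simp at this
    exact this hy
  obtain ⟨hfin, htor⟩ := furstenberg hp hq hpq hFclosed h1 h2 hne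
  obtain ⟨D, hD, hDF⟩ := exists_killer hfin htor
  set G : Set UnitAddCircle := {y | δ ≤ ‖D • y‖} with hG
  have hGcompact : IsCompact G := by
    apply IsClosed.isCompact
    exact isClosed_le continuous_const (continuous_norm.comp (continuous_nsmul D))
  have hcover : G ⊆ ⋃ ij : ℕ × ℕ, {y | (p ^ ij.1 * q ^ ij.2) • y ∈ U} := by
    intro y hy
    rw [mem_iUnion]
    by_contra hcon
    push Not at hcon
    have hyF : y ∈ F := by
      intro i j hij
      exact hcon (i, j) hij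
    have h3 : δ ≤ ‖D • y‖ := hy
    rw [hDF y hyF, norm_zero] at h3
    linarith
  obtain ⟨t, ht⟩ := hGcompact.elim_finite_subcover _
    (fun ij : ℕ × ℕ => hU.preimage (continuous_nsmul (p ^ ij.1 * q ^ ij.2))) hcover
  refine ⟨D, t.sup (fun ij => max ij.1 ij.2), hD, ?_⟩
  intro y hy
  have := ht hy
  rw [mem_iUnion₂] at this
  obtain ⟨ij, hij, hy'⟩ := this
  have h4 : max ij.1 ij.2 ≤ t.sup (fun ij => max ij.1 ij.2) :=
    Finset.le_sup (f := fun ij : ℕ × ℕ => max ij.1 ij.2) hij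
  exact ⟨ij.1, (le_max_left _ _).trans h4, ij.2, (le_max_right _ _).trans h4, hy'⟩

lemma norm_of_not_near {q : ℕ} (hq : 2 ≤ q) {l : ℕ} {x : ℤ} (h : ¬ Near q 0 l x) :
    1 / ((q : ℝ) + 1) ≤ ‖(((x : ℝ) / (q : ℝ) ^ l : ℝ) : UnitAddCircle)‖ := by
  rw [UnitAddCircle.norm_eq]
  set a := round ((x : ℝ) / (q : ℝ) ^ l) with ha
  have h1 : ¬ (((q : ℤ) + 1) * (q : ℤ) ^ 0 * |x - a * (q : ℤ) ^ l| < (q : ℤ) ^ l) := by
    intro h'
    exact h ⟨a, h'⟩
  push Not at h1
  rw [pow_zero, mul_one] at h1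
  have h2 : (q : ℝ) ^ l ≤ ((q : ℝ) + 1) * |(x : ℝ) - a * (q : ℝ) ^ l| := by exact_mod_cast h1
  have hql : (0 : ℝ) < (q : ℝ) ^ l := by
    have : (0 : ℝ) < q := by exact_mod_cast (by omega : 0 < q)
    positivity
  have h3 : (x : ℝ) - a * (q : ℝ) ^ l = ((x : ℝ) / (q : ℝ) ^ l - a) * (q : ℝ) ^ l := by
    field_simp
  rw [h3, abs_mul, abs_of_pos hql] at h2
  have h4 : 1 ≤ ((q : ℝ) + 1) * |(x : ℝ) / (q : ℝ) ^ l - a| := by
    have : 1 * (q : ℝ) ^ l ≤ (((q : ℝ) + 1) * |(x : ℝ) / (q : ℝ) ^ l - a|) * (q : ℝ) ^ l := by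
      linarith
    exact le_of_mul_le_mul_right this hql
  rw [div_le_iff₀ (by positivity)]
  linarith

/-- A hit of the arc `(w / q ^ k, (w + 1) / q ^ k)` is an occurrence of the block `w`. -/
lemma block_of_hit {q : ℕ} (hq : 2 ≤ q) {k w m l j : ℕ} (hw : w < q ^ k)
    (hit : ((((q ^ j : ℕ) : ℝ) * ((m : ℝ) / (q : ℝ) ^ l) : ℝ) : UnitAddCircle) ∈
      ((fun x : ℝ => (x : UnitAddCircle)) ''
        Ioo ((w : ℝ) / (q : ℝ) ^ k) (((w : ℝ) + 1) / (q : ℝ) ^ k))) :
    ∃ e, l = e + j + k ∧ m / q ^ e % q ^ k = w := by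
  have hq0 : (0 : ℝ) < q := by exact_mod_cast (by omega : 0 < q)
  obtain ⟨v, ⟨hv1, hv2⟩, hv⟩ := hit
  simp only at hv
  have h1 : ((((q ^ j : ℕ) : ℝ) * ((m : ℝ) / (q : ℝ) ^ l) - v : ℝ) : UnitAddCircle) = 0 := by
    rw [AddCircle.coe_sub, hv, sub_self]
  rw [AddCircle.coe_eq_zero_iff] at h1
  obtain ⟨z, hz⟩ := h1
  have hz' : (z : ℝ) = ((q ^ j : ℕ) : ℝ) * ((m : ℝ) / (q : ℝ) ^ l) - v := by simpa using hz
  rw [div_lt_iff₀ (by positivity)] at hv1
  rw [lt_div_iff₀ (by positivity)] at hv2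
  push_cast at hz'
  have hlj : j + k ≤ l := by
    by_contra hlt
    push Not at hlt
    -- then `v q ^ k` would be an integer strictly between `w` and `w + 1`
    obtain ⟨e, he⟩ : ∃ e, j + k = l + e := ⟨j + k - l, by omega⟩
    have h2 : v * (q : ℝ) ^ k = (((q : ℤ) ^ e * m - z * (q : ℤ) ^ k : ℤ) : ℝ) := by
      have h3 : v = (q : ℝ) ^ j * ((m : ℝ) / (q : ℝ) ^ l) - z := by linarith
      rw [h3, sub_mul]
      push_cast
      congr 1
      have : (q : ℝ) ^ j * (q : ℝ) ^ k = (q : ℝ) ^ l * (q : ℝ) ^ e := by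
        rw [← pow_add, ← pow_add, he]
      calc (q : ℝ) ^ j * ((m : ℝ) / (q : ℝ) ^ l) * (q : ℝ) ^ k
          = ((q : ℝ) ^ j * (q : ℝ) ^ k) * m / (q : ℝ) ^ l := by ring
        _ = (q : ℝ) ^ e * m := by rw [this]; field_simp
    rw [h2] at hv1 hv2
    have h4 : (w : ℤ) < (q : ℤ) ^ e * m - z * (q : ℤ) ^ k := by exact_mod_cast hv1
    have h5 : (q : ℤ) ^ e * m - z * (q : ℤ) ^ k < (w : ℤ) + 1 := by exact_mod_cast hv2
    omega
  obtain ⟨e, rfl⟩ : ∃ e, l = e + j + k := ⟨l - j - k, by omega⟩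
  refine ⟨e, rfl, ?_⟩
  have h6 : (m : ℝ) / (q : ℝ) ^ e = (q : ℝ) ^ k * z + v * (q : ℝ) ^ k := by
    have h3 : v = (q : ℝ) ^ j * ((m : ℝ) / (q : ℝ) ^ (e + j + k)) - z := by linarith
    rw [h3, pow_add, pow_add]
    field_simp
    ring
  -- the integer `z` is nonnegative
  have hwk : (w : ℝ) + 1 ≤ (q : ℝ) ^ k := by exact_mod_cast hw
  have hz0 : 0 ≤ z := by
    by_contra hneg
    push Not at hneg
    have h7 : (z : ℝ) ≤ -1 := by
      have : z ≤ -1 := by omega
      exact_mod_cast this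
    have h8 : 0 ≤ (m : ℝ) / (q : ℝ) ^ e := by positivity
    have h9 : (q : ℝ) ^ k * z ≤ (q : ℝ) ^ k * (-1) := by gcongr
    linarith
  obtain ⟨n, rfl⟩ := Int.eq_ofNat_of_zero_le hz0
  have h10 : m / q ^ e = q ^ k * n + w := by
    have h11 : (m / q ^ e : ℕ) = ⌊(m : ℝ) / ((q ^ e : ℕ) : ℝ)⌋₊ := by
      rw [Nat.floor_div_natCast, Nat.floor_natCast]
    rw [h11, Nat.floor_eq_iff (by positivity)]
    push_cast at h6 ⊢
    constructor
    · linarith
    · linarith
  rw [h10, Nat.mul_add_mod, Nat.mod_eq_of_lt hw]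

/-- The number of far levels of `D p ^ n` is controlled by block occurrences in the rows
`n, …, n + K`. -/
theorem far_le_blocks {p q : ℕ} (hp : 2 ≤ p) (hq : 2 ≤ q) (hpq : Nat.Coprime p q)
    {k w : ℕ} (hk : 1 ≤ k) (hw : w < q ^ k) :
    ∃ D K C : ℕ, 0 < D ∧ ∀ n : ℕ, farN p q D 0 n ≤
      C + (K + 1) * ∑ i ∈ Finset.range (K + 1), (blockPos q k w (p ^ (n + i))).card := by
  classical
  have hq0 : (0 : ℝ) < q := by exact_mod_cast (by omega : 0 < q)
  set U : Set UnitAddCircle := (fun x : ℝ => (x : UnitAddCircle)) ''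
        Ioo ((w : ℝ) / (q : ℝ) ^ k) (((w : ℝ) + 1) / (q : ℝ) ^ k) with hU
  have hUopen : IsOpen U := QuotientAddGroup.isOpenMap_coe _ isOpen_Ioo
  have hUne : U.Nonempty := by
    refine Set.Nonempty.image _ (nonempty_Ioo.2 ?_)
    gcongr
    linarith
  obtain ⟨D, K, hD, hhit⟩ := exists_uniform_hit hp hq hpq hUopen hUne
    (show (0 : ℝ) < 1 / ((q : ℝ) + 1) by positivity)
  set B := (q + 1) * D with hB
  refine ⟨D, K, Nat.log q B + 2, hD, ?_⟩
  intro n
  -- the far levels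
  set T := Nat.log q (p ^ n) + 1 with hT
  have hsub : farSet q 0 ((p : ℤ) ^ n * D) ⊆
      (Finset.Ico T (T + Nat.log q B + 2)) ∪
        (Finset.range (K + 1) ×ˢ Finset.range (K + 1)).biUnion (fun ij =>
          (blockPos q k w (p ^ (n + ij.1))).image (fun e => e + ij.2 + k)) := by
    intro l hl
    rw [mem_farSet hq] at hl
    rw [Finset.mem_union]
    by_cases hlT : T ≤ l
    · left
      rw [Finset.mem_Ico]
      refine ⟨hlT, ?_⟩
      by_contra hlt
      push Not at hlt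
      apply hl
      apply near_of_log_lt hq
      have e1 : (q + 1) * ((p : ℤ) ^ n * D).natAbs = B * p ^ n := by
        rw [Int.natAbs_mul, Int.natAbs_pow, Int.natAbs_natCast, Int.natAbs_natCast]; ring
      rw [e1, Nat.add_zero]
      have h1 : B * p ^ n < q ^ (Nat.log q B + 1 + (Nat.log q (p ^ n) + 1)) := by
        rw [pow_add]
        exact Nat.mul_lt_mul'' (Nat.lt_pow_succ_log_self (by omega) B)
          (Nat.lt_pow_succ_log_self (by omega) _)
      have h2 := Nat.log_lt_of_lt_pow' (by omega) h1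
      omega
    · right
      push Not at hlT
      set y : UnitAddCircle := ((((p ^ n : ℕ) : ℝ) / (q : ℝ) ^ l : ℝ) : UnitAddCircle) with hy
      have h1 : 1 / ((q : ℝ) + 1) ≤ ‖D • y‖ := by
        have := norm_of_not_near hq hl
        rw [hy, circle_nsmul_coe]
        have e : (D : ℝ) * (((p ^ n : ℕ) : ℝ) / (q : ℝ) ^ l)
            = (((p : ℤ) ^ n * D : ℤ) : ℝ) / (q : ℝ) ^ l := by
          push_cast; ring
        rw [e]
        exact this
      obtain ⟨i, hi, j, hj, hij⟩ := hhit y h1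
      have h2 : (p ^ i * q ^ j) • y =
          ((((q ^ j : ℕ) : ℝ) * (((p ^ (n + i) : ℕ) : ℝ) / (q : ℝ) ^ l) : ℝ) : UnitAddCircle) := by
        rw [hy, circle_nsmul_coe]
        congr 1
        push_cast
        ring
      rw [h2] at hij
      obtain ⟨e, he, hew⟩ := block_of_hit hq hw hij
      rw [Finset.mem_biUnion]
      refine ⟨(i, j), Finset.mem_product.2
        ⟨Finset.mem_range.2 (by omega), Finset.mem_range.2 (by omega)⟩, ?_⟩
      rw [Finset.mem_image]
      refine ⟨e, ?_, he.symm⟩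
      unfold blockPos
      have hlen : (Nat.digits q (p ^ (n + i))).length = Nat.log q (p ^ (n + i)) + 1 :=
        Nat.length_digits q _ (by omega) (by positivity)
      have hmono : Nat.log q (p ^ n) ≤ Nat.log q (p ^ (n + i)) :=
        Nat.log_mono_right (Nat.pow_le_pow_right (by omega) (by omega))
      rw [Finset.mem_filter, Finset.mem_range, hlen]
      exact ⟨by omega, by omega, hew⟩
  unfold farN
  refine (Finset.card_le_card hsub).trans ?_
  refine (Finset.card_union_le _ _).trans ?_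
  have h1 : (Finset.Ico T (T + Nat.log q B + 2)).card = Nat.log q B + 2 := by
    rw [Nat.card_Ico]; omega
  rw [h1]
  apply Nat.add_le_add_left
  refine Finset.card_biUnion_le.trans ?_
  rw [Finset.sum_product, Finset.mul_sum]
  apply Finset.sum_le_sum
  intro i _
  calc ∑ j ∈ Finset.range (K + 1), ((blockPos q k w (p ^ (n + i))).image (fun e => e + j + k)).card
      ≤ ∑ j ∈ Finset.range (K + 1), (blockPos q k w (p ^ (n + i))).card :=
        Finset.sum_le_sum (fun j _ => Finset.card_image_le)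
    _ = (K + 1) * (blockPos q k w (p ^ (n + i))).card := by
        rw [Finset.sum_const, Finset.card_range, smul_eq_mul]

/-- Average count of a digit block in the powers `p ^ n`. -/
theorem block_average {p q : ℕ} (hp : 2 ≤ p) (hq : 2 ≤ q) (hpq : Nat.Coprime p q)
    {k w : ℕ} (hk : 1 ≤ k) (hw : w < q ^ k) :
    ∃ κ : ℝ, 0 < κ ∧ ∃ N₀ : ℕ, ∀ N : ℕ, N₀ ≤ N →
      κ * (N : ℝ) ^ ((3 : ℝ) / 2) ≤
        ∑ n ∈ Finset.Icc 1 N, ((blockPos q k w (p ^ n)).card : ℝ) := by
  obtain ⟨D, K, C, hD, hfar⟩ := far_le_blocks hp hq hpq hk hw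
  obtain ⟨κ, hκ, N₀, hN₀⟩ := far_average hq hp hpq (A := (D : ℤ)) (by exact_mod_cast hD.ne')
  set b : ℕ → ℝ := fun n => ((blockPos q k w (p ^ n)).card : ℝ) with hb
  have hb0 : ∀ n, 0 ≤ b n := fun n => Nat.cast_nonneg _
  have hb0' : b 0 ≤ 1 := by
    rw [hb]
    simp only [pow_zero]
    have h1 : blockPos q k w 1 ⊆ {0} := by
      intro i hi
      unfold blockPos at hi
      rw [Finset.mem_filter] at hi
      have hlen : (Nat.digits q 1).length = 1 := by
        rw [Nat.length_digits q 1 (by omega) one_ne_zero, Nat.log_one_right]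
      rw [hlen] at hi
      rw [Finset.mem_singleton]
      omega
    have := Finset.card_le_card h1
    rw [Finset.card_singleton] at this
    exact_mod_cast this
  -- the summed inequality
  have hsum : ∀ N : ℕ, ∑ t ∈ Finset.range N, (farN p q D 0 t : ℝ) ≤
      C * N + (K + 1) ^ 2 * (1 + ∑ n ∈ Finset.Icc 1 (N + K), b n) := by
    intro N
    have h1 : ∑ t ∈ Finset.range N, (farN p q D 0 t : ℝ) ≤
        ∑ t ∈ Finset.range N, ((C : ℝ) + (K + 1) * ∑ i ∈ Finset.range (K + 1), b (t + i)) := by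
      apply Finset.sum_le_sum
      intro t _
      have := hfar t
      rw [hb]
      simp only
      exact_mod_cast this
    refine h1.trans ?_
    rw [Finset.sum_add_distrib, Finset.sum_const, Finset.card_range, nsmul_eq_mul,
      ← Finset.mul_sum, Finset.sum_comm]
    have h2 : ∀ i ∈ Finset.range (K + 1), ∑ t ∈ Finset.range N, b (t + i) ≤
        1 + ∑ n ∈ Finset.Icc 1 (N + K), b n := by
      intro i hi
      rw [Finset.mem_range] at hi
      have h3 : ∑ t ∈ Finset.range N, b (t + i) ≤ ∑ n ∈ Finset.range (N + K + 1), b n := by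
        rw [← Finset.sum_image (f := b) (s := Finset.range N) (g := fun t => t + i)
          (fun x _ y _ h => by simpa using h)]
        apply Finset.sum_le_sum_of_subset_of_nonneg
        · intro x hx
          rw [Finset.mem_image] at hx
          obtain ⟨t, ht, rfl⟩ := hx
          rw [Finset.mem_range] at ht ⊢
          omega
        · intro _ _ _
          exact hb0 _
      refine h3.trans ?_
      rw [Finset.range_eq_Ico, Finset.sum_eq_sum_Ico_succ_bot (by omega)]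
      have e : Finset.Ico (0 + 1) (N + K + 1) = Finset.Icc 1 (N + K) := by
        ext x; simp only [Finset.mem_Ico, Finset.mem_Icc]; omega
      rw [e]
      linarith
    have h4 := Finset.sum_le_sum h2
    rw [Finset.sum_const, Finset.card_range, nsmul_eq_mul] at h4
    have h5 : ((K : ℝ) + 1) * ∑ i ∈ Finset.range (K + 1), ∑ t ∈ Finset.range N, b (t + i) ≤
        (K + 1) * (((K + 1 : ℕ) : ℝ) * (1 + ∑ n ∈ Finset.Icc 1 (N + K), b n)) := by
      gcongr
    push_cast at h5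
    have e : ((K : ℝ) + 1) * ((K + 1) * (1 + ∑ n ∈ Finset.Icc 1 (N + K), b n))
        = (K + 1) ^ 2 * (1 + ∑ n ∈ Finset.Icc 1 (N + K), b n) := by ring
    rw [e] at h5
    linarith [mul_comm (N : ℝ) C]
  -- choose the threshold
  obtain ⟨M, hM⟩ := exists_nat_ge ((2 * (C + (K + 1) ^ 2) / κ) ^ 2)
  refine ⟨κ / (2 * (K + 1) ^ 2 * 4), by positivity, 2 * (N₀ + M + K + 1), ?_⟩
  intro N' hN'
  obtain ⟨N, rfl⟩ : ∃ N, N' = N + K := ⟨N' - K, by omega⟩
  have hNK : K ≤ N := by omega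
  have h1 := hN₀ N (by omega)
  have h2 := hsum N
  have hN1 : (1 : ℝ) ≤ N := by exact_mod_cast (by omega : 1 ≤ N)
  have hNM : (M : ℝ) ≤ N := by exact_mod_cast (by omega : M ≤ N)
  have e32 : ∀ x : ℝ, 0 < x → x ^ ((3 : ℝ) / 2) = x * √x := by
    intro x hx
    have : (3 : ℝ) / 2 = 1 + 1 / 2 := by norm_num
    rw [this, Real.rpow_add hx, Real.rpow_one, Real.sqrt_eq_rpow]
  have hsqrt : 2 * ((C : ℝ) + (K + 1) ^ 2) / κ ≤ √(N : ℝ) := by
    apply Real.le_sqrt_of_sq_le
    linarith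
  rw [div_le_iff₀ hκ] at hsqrt
  -- main inequality
  have h3 : ((C : ℝ) + (K + 1) ^ 2) * N ≤ κ / 2 * (N * √(N : ℝ)) := by
    calc ((C : ℝ) + (K + 1) ^ 2) * N = (2 * ((C : ℝ) + (K + 1) ^ 2)) * (N / 2) := by ring
      _ ≤ (√(N : ℝ) * κ) * (N / 2) := mul_le_mul_of_nonneg_right hsqrt (by linarith)
      _ = _ := by ring
  rw [e32 N (by linarith)] at h1
  have h4 : κ / 2 * (N * √(N : ℝ)) ≤ (K + 1) ^ 2 * ∑ n ∈ Finset.Icc 1 (N + K), b n := by
    have h5 : ((K : ℝ) + 1) ^ 2 ≤ (K + 1) ^ 2 * N := le_mul_of_one_le_right (by positivity) hN1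
    rw [mul_add, mul_one] at h2
    rw [add_mul] at h3
    linarith
  have h6 : ((N + K : ℕ) : ℝ) ^ ((3 : ℝ) / 2) ≤ 4 * (N * √(N : ℝ)) := by
    have h7 : ((N + K : ℕ) : ℝ) ≤ 2 * N := by
      have : N + K ≤ 2 * N := by omega
      exact_mod_cast this
    calc ((N + K : ℕ) : ℝ) ^ ((3 : ℝ) / 2) ≤ (2 * (N : ℝ)) ^ ((3 : ℝ) / 2) := by
          apply Real.rpow_le_rpow (by positivity) h7 (by norm_num)
      _ = 2 * N * √(2 * (N : ℝ)) := e32 _ (by linarith)
      _ ≤ 2 * N * (2 * √(N : ℝ)) := by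
          have : √(2 * (N : ℝ)) ≤ 2 * √(N : ℝ) := by
            rw [Real.sqrt_le_left (by positivity), mul_pow, Real.sq_sqrt (by linarith)]
            linarith
          gcongr
      _ = _ := by ring
  calc κ / (2 * (K + 1) ^ 2 * 4) * ((N + K : ℕ) : ℝ) ^ ((3 : ℝ) / 2)
      ≤ κ / (2 * (K + 1) ^ 2 * 4) * (4 * (N * √(N : ℝ))) := by gcongr
    _ = (κ / 2 * (N * √(N : ℝ))) / (K + 1) ^ 2 := by field_simp
    _ ≤ ((K + 1) ^ 2 * ∑ n ∈ Finset.Icc 1 (N + K), b n) / (K + 1) ^ 2 := by gcongr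
    _ = _ := by field_simp

end Pool.Agent.DigitPowers
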