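import Mathlib
import Pool.Agent.DigitPowers.FarBasic

/-!
# Splitting an integer at a near level
-/

open Finset

namespace Pool.Agent.DigitPowers

variable {q : ℕ}

lemma near_int_zero (hq : 2 ≤ q) (X l : ℕ) : Near q X l 0 := by
  apply near_of_small
  rw [abs_zero, mul_zero]
  have : (0 : ℤ) < q := by exact_mod_cast (by omega : 0 < q)
  positivity

lemma near_low_iff {l j : ℕ} {x a r : ℤ} (hx : x = a * (q : ℤ) ^ l + r) (hj : j ≤ l) :
    Near q 0 j x ↔ Near q 0 j r := by
  obtain ⟨k, rfl⟩ := Nat.exists_eq_add_of_le hj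
  constructor
  · rintro ⟨b, hb⟩
    refine ⟨b - a * (q : ℤ) ^ k, ?_⟩
    have e : r - (b - a * (q : ℤ) ^ k) * (q : ℤ) ^ j = x - b * (q : ℤ) ^ j := by rw [hx]; ring
    rwa [e]
  · rintro ⟨b, hb⟩
    refine ⟨b + a * (q : ℤ) ^ k, ?_⟩
    have e : x - (b + a * (q : ℤ) ^ k) * (q : ℤ) ^ j = r - b * (q : ℤ) ^ j := by rw [hx]; ring
    rwa [e]

lemma near_high_iff (hq : 2 ≤ q) {l i : ℕ} {x a r : ℤ} (hx : x = a * (q : ℤ) ^ l + r)
    (hr : ((q : ℤ) + 1) * |r| < (q : ℤ) ^ l) : Near q 0 (l + i) x ↔ Near q 0 i a := by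
  have hq0 : (0 : ℤ) < q := by exact_mod_cast (by omega : 0 < q)
  have hql : (0 : ℤ) < (q : ℤ) ^ l := by positivity
  constructor
  · rintro ⟨b, hb⟩
    rcases Nat.eq_zero_or_pos i with rfl | hi
    · exact near_zero_level _ _
    refine ⟨b, ?_⟩
    rw [pow_zero, mul_one] at hb ⊢
    have e : (a - b * (q : ℤ) ^ i) * (q : ℤ) ^ l = (x - b * (q : ℤ) ^ (l + i)) - r := by
      rw [hx]; ring
    have h1 : |a - b * (q : ℤ) ^ i| * (q : ℤ) ^ l ≤ |x - b * (q : ℤ) ^ (l + i)| + |r| := by
      rw [← abs_of_pos hql, ← abs_mul, e]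
      exact abs_sub _ _
    have h2 : ((q : ℤ) + 1) * |a - b * (q : ℤ) ^ i| * (q : ℤ) ^ l
        < ((q : ℤ) ^ i + 1) * (q : ℤ) ^ l := by
      calc ((q : ℤ) + 1) * |a - b * (q : ℤ) ^ i| * (q : ℤ) ^ l
          = ((q : ℤ) + 1) * (|a - b * (q : ℤ) ^ i| * (q : ℤ) ^ l) := by ring
        _ ≤ ((q : ℤ) + 1) * (|x - b * (q : ℤ) ^ (l + i)| + |r|) :=
            mul_le_mul_of_nonneg_left h1 (by positivity)
        _ = ((q : ℤ) + 1) * |x - b * (q : ℤ) ^ (l + i)| + ((q : ℤ) + 1) * |r| := by ring
        _ < (q : ℤ) ^ (l + i) + (q : ℤ) ^ l := add_lt_add hb hr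
        _ = _ := by ring
    have h3 : ((q : ℤ) + 1) * |a - b * (q : ℤ) ^ i| < (q : ℤ) ^ i + 1 :=
      lt_of_mul_lt_mul_right h2 hql.le
    have h4 : ((q : ℤ) + 1) * |a - b * (q : ℤ) ^ i| ≠ (q : ℤ) ^ i := by
      intro h5
      have h6 : ((q : ℤ) + 1) ∣ (q : ℤ) ^ i := ⟨_, h5.symm⟩
      have h7 : IsCoprime ((q : ℤ) + 1) ((q : ℤ) ^ i) := by
        apply IsCoprime.pow_right
        exact ⟨1, -1, by ring⟩
      have h8 : IsUnit ((q : ℤ) + 1) := h7.isUnit_of_dvd' dvd_rfl h6
      rw [Int.isUnit_iff] at h8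
      omega
    omega
  · rintro ⟨b, hb⟩
    refine ⟨b, ?_⟩
    rw [pow_zero, mul_one] at hb ⊢
    have e : x - b * (q : ℤ) ^ (l + i) = (a - b * (q : ℤ) ^ i) * (q : ℤ) ^ l + r := by
      rw [hx]; ring
    have h1 : |x - b * (q : ℤ) ^ (l + i)| ≤ |a - b * (q : ℤ) ^ i| * (q : ℤ) ^ l + |r| := by
      rw [e]
      refine (abs_add_le _ _).trans ?_
      rw [abs_mul, abs_of_pos hql]
    calc ((q : ℤ) + 1) * |x - b * (q : ℤ) ^ (l + i)|
        ≤ ((q : ℤ) + 1) * (|a - b * (q : ℤ) ^ i| * (q : ℤ) ^ l + |r|) :=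
          mul_le_mul_of_nonneg_left h1 (by positivity)
      _ = (((q : ℤ) + 1) * |a - b * (q : ℤ) ^ i|) * (q : ℤ) ^ l + ((q : ℤ) + 1) * |r| := by ring
      _ < ((q : ℤ) ^ i - 1) * (q : ℤ) ^ l + (q : ℤ) ^ l := by
          apply add_lt_add_of_le_of_lt _ hr
          apply mul_le_mul_of_nonneg_right _ hql.le
          omega
      _ = _ := by ring

/-- Additivity of the number of far levels. -/
lemma card_far_split (hq : 2 ≤ q) {l : ℕ} {x a r : ℤ} (hx : x = a * (q : ℤ) ^ l + r)
    (hr : ((q : ℤ) + 1) * |r| < (q : ℤ) ^ l) :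
    (farSet q 0 x).card = (farSet q 0 a).card + (farSet q 0 r).card := by
  classical
  have h1 : farSet q 0 x = (farSet q 0 a).image (fun i => l + i) ∪ farSet q 0 r := by
    ext j
    rw [Finset.mem_union, Finset.mem_image, mem_farSet hq, mem_farSet hq]
    constructor
    · intro h
      rcases le_or_gt j l with hj | hj
      · right
        rwa [near_low_iff hx hj] at h
      · left
        obtain ⟨i, rfl⟩ := Nat.exists_eq_add_of_le hj.le
        rw [near_high_iff hq hx hr] at h
        exact ⟨i, (mem_farSet hq).2 h, rfl⟩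
    · rintro (⟨i, hi, rfl⟩ | h)
      · rw [near_high_iff hq hx hr]
        exact (mem_farSet hq).1 hi
      · rcases le_or_gt j l with hj | hj
        · rwa [near_low_iff hx hj]
        · exfalso
          apply h
          apply near_of_small
          rw [pow_zero, mul_one]
          exact hr.trans_le (pow_le_pow_right₀ (by omega) hj.le)
  rw [h1, Finset.card_union_of_disjoint, Finset.card_image_of_injective _ (add_right_injective l)]
  rw [Finset.disjoint_left]
  intro j hj hj'
  rw [Finset.mem_image] at hj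
  obtain ⟨i, hi, rfl⟩ := hj
  rw [mem_farSet hq] at hj'
  apply hj'
  apply near_of_small
  rw [pow_zero, mul_one]
  exact hr.trans_le (pow_le_pow_right₀ (by omega) (by omega))

/-- Additivity of the number of blocks of far levels. -/
lemma card_up_split (hq : 2 ≤ q) {X l : ℕ} {x a r : ℤ} (hx : x = a * (q : ℤ) ^ l + r)
    (hr : ((q : ℤ) + 1) * (q : ℤ) ^ X * |r| < (q : ℤ) ^ l) :
    (upSteps q X x).card = (upSteps q X a).card + (upSteps q X r).card := by
  classical
  have hq0 : (0 : ℤ) < q := by exact_mod_cast (by omega : 0 < q)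
  have hX1 : (1 : ℤ) ≤ (q : ℤ) ^ X := one_le_pow₀ (by omega)
  have hr0 : ((q : ℤ) + 1) * |r| < (q : ℤ) ^ l := by
    refine lt_of_le_of_lt ?_ hr
    calc ((q : ℤ) + 1) * |r| = ((q : ℤ) + 1) * 1 * |r| := by ring
      _ ≤ ((q : ℤ) + 1) * (q : ℤ) ^ X * |r| := by gcongr
  -- all levels at least `l - X` are near for `r`
  have hrnear : ∀ j, l ≤ j + X → Near q 0 j r := by
    intro j hj
    apply near_of_small
    rw [pow_zero, mul_one]
    have h1 : (q : ℤ) ^ l ≤ (q : ℤ) ^ (j + X) := pow_le_pow_right₀ (by omega) hj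
    have h2 : (q : ℤ) ^ X * (((q : ℤ) + 1) * |r|) < (q : ℤ) ^ X * (q : ℤ) ^ j := by
      calc (q : ℤ) ^ X * (((q : ℤ) + 1) * |r|) = ((q : ℤ) + 1) * (q : ℤ) ^ X * |r| := by ring
        _ < (q : ℤ) ^ l := hr
        _ ≤ (q : ℤ) ^ (j + X) := h1
        _ = _ := by ring
    exact lt_of_mul_lt_mul_left h2 (by positivity)
  have h1 : upSteps q X x = (upSteps q X a).image (fun i => l + i) ∪ upSteps q X r := by
    ext j
    rw [Finset.mem_union, Finset.mem_image, mem_upSteps_iff hq, mem_upSteps_iff hq]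
    constructor
    · rintro ⟨k, rfl, h2, h3⟩
      rcases le_or_gt (k + 1) l with hj | hj
      · right
        refine ⟨k, rfl, ?_, ?_⟩
        · rw [near_iff_forall hq] at h2 ⊢
          intro i hi
          rw [← near_low_iff hx (by omega)]
          exact h2 i hi
        · rwa [near_low_iff hx hj] at h3
      · left
        obtain ⟨i, rfl⟩ := Nat.exists_eq_add_of_le (show l ≤ k by omega)
        refine ⟨i + 1, ?_, by ring⟩
        rw [mem_upSteps_iff hq]
        refine ⟨i, rfl, ?_, ?_⟩
        · rw [near_iff_forall hq] at h2 ⊢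
          intro t ht
          rcases le_or_gt t i with hti | hti
          · have := h2 t ht
            have e : l + i - t = l + (i - t) := by omega
            rw [e, near_high_iff hq hx hr0] at this
            exact this
          · have e : i - t = 0 := by omega
            rw [e]; exact near_zero_level _ _
        · rwa [add_assoc, near_high_iff hq hx hr0] at h3
    · rintro (⟨i', hi', rfl⟩ | ⟨k, rfl, h2, h3⟩)
      · rw [mem_upSteps_iff hq] at hi'
        obtain ⟨i, rfl, h2, h3⟩ := hi'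
        refine ⟨l + i, by ring, ?_, ?_⟩
        · rw [near_iff_forall hq] at h2 ⊢
          intro t ht
          rcases le_or_gt t i with hti | hti
          · have := h2 t ht
            have e : l + i - t = l + (i - t) := by omega
            rwa [e, near_high_iff hq hx hr0]
          · rcases le_or_gt (l + i - t) l with h4 | h4
            · rw [near_low_iff hx h4]
              apply hrnear
              omega
            · omega
        · rwa [add_assoc, near_high_iff hq hx hr0]
      · have hkl : k + 1 ≤ l := by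
          by_contra hlt
          exact h3 (hrnear _ (by omega))
        refine ⟨k, rfl, ?_, ?_⟩
        · rw [near_iff_forall hq] at h2 ⊢
          intro i hi
          rw [near_low_iff hx (by omega)]
          exact h2 i hi
        · rwa [near_low_iff hx hkl]
  rw [h1, Finset.card_union_of_disjoint, Finset.card_image_of_injective _ (add_right_injective l)]
  rw [Finset.disjoint_left]
  intro j hj hj'
  rw [Finset.mem_image] at hj
  obtain ⟨i, hi, rfl⟩ := hj
  rw [mem_upSteps_iff hq] at hi hj'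
  obtain ⟨k, -, -⟩ := hi
  obtain ⟨k', h2, -, h3⟩ := hj'
  exact h3 (hrnear _ (by omega))

lemma one_le_card_up (hq : 2 ≤ q) (X : ℕ) {x : ℤ} (hx : x ≠ 0) : 1 ≤ (upSteps q X x).card := by
  classical
  have h1 := succ_le_card_farSet hq X hx
  have hne : (farSet q X x).Nonempty := Finset.card_pos.1 (by omega)
  rw [Nat.one_le_iff_ne_zero, Ne, Finset.card_eq_zero]
  intro h0
  unfold upSteps at h0
  set m := (farSet q X x).min' hne with hm
  have hmem : m ∈ farSet q X x := Finset.min'_mem _ _
  have h2 : m ∉ farSet q X x \ (farSet q X x).image (· + 1) := by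
    rw [h0]; exact Finset.notMem_empty _
  apply h2
  rw [Finset.mem_sdiff, Finset.mem_image]
  refine ⟨hmem, ?_⟩
  rintro ⟨k, hk, hkm⟩
  have := Finset.min'_le _ k hk
  omega

lemma card_up_zero (hq : 2 ≤ q) (X : ℕ) : (upSteps q X 0).card = 0 := by
  rw [Finset.card_eq_zero, Finset.eq_empty_iff_forall_notMem]
  intro j hj
  rw [mem_upSteps_iff hq] at hj
  obtain ⟨k, rfl, -, h⟩ := hj
  exact h (near_int_zero hq _ _)

/-- Decomposition into `D_X (x)` pieces which evolve independently under multiplication by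
positive integers at most `q ^ X`. -/
theorem exists_pieces (hq : 2 ≤ q) (X : ℕ) : ∀ (n : ℕ) (x : ℤ), x ≠ 0 →
    (upSteps q X x).card = n → ∃ L : List ℤ, L.length = n ∧ (∀ A ∈ L, A ≠ 0) ∧
      ∀ m : ℤ, 0 < m → m ≤ (q : ℤ) ^ X →
        (farSet q 0 (m * x)).card = (L.map (fun A => (farSet q 0 (m * A)).card)).sum := by
  intro n
  induction n using Nat.strong_induction_on with
  | _ n ih =>
    intro x hx hn
    have hn1 : 1 ≤ n := by rw [← hn]; exact one_le_card_up hq X hx
    rcases Nat.lt_or_ge n 2 with h2 | h2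
    · obtain rfl : n = 1 := by omega
      exact ⟨[x], rfl, by simpa using hx, fun m _ _ => by simp⟩
    · -- two distinct up steps
      have h3 : 1 < (upSteps q X x).card := by omega
      obtain ⟨u, hu, v, hv, huv⟩ := Finset.one_lt_card.1 h3
      -- without loss of generality `u < v`
      obtain ⟨u, v, hu, hv, huv⟩ : ∃ u v, u ∈ upSteps q X x ∧ v ∈ upSteps q X x ∧ u < v := by
        rcases lt_or_gt_of_ne huv with h | h
        · exact ⟨u, v, hu, hv, h⟩
        · exact ⟨v, u, hv, hu, h⟩
      rw [mem_upSteps_iff hq] at hu hv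
      obtain ⟨k, rfl, hk1, hk2⟩ := hv
      obtain ⟨k', rfl, hk1', hk2'⟩ := hu
      obtain ⟨a, ha⟩ := hk1
      set r := x - a * (q : ℤ) ^ k with hr
      have hxr : x = a * (q : ℤ) ^ k + r := by rw [hr]; ring
      have hsplit := card_up_split hq hxr ha
      have hr0 : r ≠ 0 := by
        intro h0
        rw [near_low_iff hxr (by omega), h0] at hk2'
        exact hk2' (near_int_zero hq _ _)
      have hq0 : (0 : ℤ) < q := by exact_mod_cast (by omega : 0 < q)
      have hX1 : (1 : ℤ) ≤ (q : ℤ) ^ X := one_le_pow₀ (by omega)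
      have ha0 : a ≠ 0 := by
        intro h0
        apply hk2
        rw [h0, zero_mul, zero_add] at hxr
        apply near_of_small
        rw [pow_zero, mul_one]
        have h4 : ((q : ℤ) + 1) * |x| ≤ ((q : ℤ) + 1) * (q : ℤ) ^ X * |r| := by
          rw [← hxr]
          calc ((q : ℤ) + 1) * |x| = ((q : ℤ) + 1) * 1 * |x| := by ring
            _ ≤ ((q : ℤ) + 1) * (q : ℤ) ^ X * |x| := by gcongr
        exact (h4.trans_lt ha).trans_le (pow_le_pow_right₀ (by omega) (by omega))
      have hua := one_le_card_up hq X ha0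
      have hur := one_le_card_up hq X hr0
      obtain ⟨La, hLa1, hLa2, hLa3⟩ := ih _ (by omega) a ha0 rfl
      obtain ⟨Lr, hLr1, hLr2, hLr3⟩ := ih _ (by omega) r hr0 rfl
      refine ⟨La ++ Lr, ?_, ?_, ?_⟩
      · rw [List.length_append, hLa1, hLr1]; omega
      · intro A hA
        rcases List.mem_append.1 hA with h | h
        · exact hLa2 A h
        · exact hLr2 A h
      · intro m hm hmX
        rw [List.map_append, List.sum_append, ← hLa3 m hm hmX, ← hLr3 m hm hmX]
        refine card_far_split hq (l := k) ?_ ?_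
        · rw [hxr]; ring
        · rw [abs_mul, abs_of_pos hm]
          calc ((q : ℤ) + 1) * (m * |r|) = ((q : ℤ) + 1) * m * |r| := by ring
            _ ≤ ((q : ℤ) + 1) * (q : ℤ) ^ X * |r| := by gcongr
            _ < _ := ha

/-- If there is only one block, the far levels of the thick kind form an interval. -/
lemma far_interval (hq : 2 ≤ q) {X : ℕ} {x : ℤ} (h1 : (upSteps q X x).card ≤ 1) {l l' : ℕ}
    (hl : ¬ Near q 0 l x) (hl' : ¬ Near q 0 l' x) (hll : l ≤ l') :
    l' - l + X + 1 ≤ (farSet q X x).card := by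
  have hsub : Finset.Ico l (l' + X + 1) ⊆ farSet q X x := by
    intro m hm
    rw [Finset.mem_Ico] at hm
    rw [mem_farSet hq]
    by_cases hml : m < l'
    · intro hnear
      obtain ⟨a, ha⟩ := hnear
      set r := x - a * (q : ℤ) ^ m with hr
      have hxr : x = a * (q : ℤ) ^ m + r := by rw [hr]; ring
      have hsplit := card_up_split hq hxr ha
      have hr0 : r ≠ 0 := by
        intro h0
        rw [near_low_iff hxr hm.1, h0] at hl
        exact hl (near_int_zero hq _ _)
      have hX1 : (1 : ℤ) ≤ (q : ℤ) ^ X := one_le_pow₀ (by omega)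
      have ha0 : a ≠ 0 := by
        intro h0
        apply hl'
        rw [h0, zero_mul, zero_add] at hxr
        apply near_of_small
        rw [pow_zero, mul_one]
        have h4 : ((q : ℤ) + 1) * |x| ≤ ((q : ℤ) + 1) * (q : ℤ) ^ X * |r| := by
          rw [← hxr]
          calc ((q : ℤ) + 1) * |x| = ((q : ℤ) + 1) * 1 * |x| := by ring
            _ ≤ ((q : ℤ) + 1) * (q : ℤ) ^ X * |x| := by gcongr
        exact (h4.trans_lt ha).trans_le (pow_le_pow_right₀ (by omega) (by omega))
      have hua := one_le_card_up hq X ha0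
      have hur := one_le_card_up hq X hr0
      omega
    · have := not_near_of_le hq (X := X) (j := m - l') hl' (by omega)
      have e : l' + (m - l') = m := by omega
      rwa [e] at this
  have := Finset.card_le_card hsub
  rw [Nat.card_Ico] at this
  omega

/-- The far levels of a nonzero multiple of `M`, `M` prime to `q`, have large span. -/
lemma far_span (hq : 2 ≤ q) {M : ℕ} (hM : Nat.Coprime M q) {x : ℤ} (hx : x ≠ 0)
    (hdvd : (M : ℤ) ∣ x) : ∃ l l' : ℕ, ¬ Near q 0 l x ∧ ¬ Near q 0 l' x ∧ l + Nat.log q M ≤ l' := by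
  have hq0 : (0 : ℤ) < q := by exact_mod_cast (by omega : 0 < q)
  -- write `x = q ^ v * m` with `q ∤ m`
  have hfin : FiniteMultiplicity (q : ℤ) x := by
    rw [Int.finiteMultiplicity_iff]
    refine ⟨?_, hx⟩
    simp
    omega
  obtain ⟨m, hm, hm'⟩ := hfin.exists_eq_pow_mul_and_not_dvd
  set v := multiplicity (q : ℤ) x with hv
  have hm0 : m ≠ 0 := by
    rintro rfl
    exact hm' (dvd_zero _)
  have hMm : (M : ℤ) ∣ m := by
    rw [hm] at hdvd
    have : IsCoprime (M : ℤ) ((q : ℤ) ^ v) := (Nat.isCoprime_iff_coprime.2 hM).pow_right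
    exact this.dvd_of_dvd_mul_left hdvd
  have hMle : (M : ℤ) ≤ |m| := by
    have := Int.le_of_dvd (abs_pos.2 hm0) ((dvd_abs _ _).2 hMm)
    exact this
  refine ⟨v + 1, Nat.log q ((q + 1) * x.natAbs), ?_, ?_, ?_⟩
  · rintro ⟨a, ha⟩
    apply hm'
    refine ⟨a, ?_⟩
    rw [pow_zero, mul_one] at ha
    have hqv : (0 : ℤ) < (q : ℤ) ^ v := by positivity
    have e : x - a * (q : ℤ) ^ (v + 1) = (m - a * q) * (q : ℤ) ^ v := by rw [hm]; ring
    rw [e, abs_mul, abs_of_pos hqv, pow_succ] at ha
    have h1 : ((q : ℤ) + 1) * |m - a * q| < q := by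
      have : (((q : ℤ) + 1) * |m - a * q|) * (q : ℤ) ^ v < q * (q : ℤ) ^ v := by
        calc _ = ((q : ℤ) + 1) * (|m - a * q| * (q : ℤ) ^ v) := by ring
          _ < (q : ℤ) ^ v * q := ha
          _ = _ := by ring
      exact lt_of_mul_lt_mul_right this hqv.le
    have h2 : |m - a * q| = 0 := by
      by_contra hne
      have : 1 ≤ |m - a * q| := by
        have := abs_nonneg (m - a * q)
        omega
      nlinarith
    rw [abs_eq_zero] at h2
    linarith
  · set N := (q + 1) * x.natAbs with hN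
    have hNcast : ((N : ℕ) : ℤ) = ((q : ℤ) + 1) * |x| := by
      rw [hN]; push_cast; rfl
    have hNpos : N ≠ 0 := by
      rw [hN]
      have := Int.natAbs_ne_zero.2 hx
      positivity
    have hl1 : q ^ (Nat.log q N) ≤ N := Nat.pow_log_le_self q hNpos
    have hl2 : N < q ^ (Nat.log q N + 1) := Nat.lt_pow_succ_log_self (by omega) N
    exact not_near_of_remainder hq (e := Nat.log q N) (a := 0) (r := x) (by ring) le_rfl
      (by rw [← hNcast]; exact_mod_cast hl1) (by rw [← hNcast]; exact_mod_cast hl2)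
  · apply Nat.le_log_of_pow_le (by omega)
    have hM0 : M ≠ 0 := by
      rintro rfl
      rw [Nat.coprime_zero_left] at hM
      omega
    have h1 : q ^ (Nat.log q M) ≤ M := Nat.pow_log_le_self q hM0
    have h2 : (((q ^ (v + 1 + Nat.log q M) : ℕ)) : ℤ) ≤ (((q + 1) * x.natAbs : ℕ) : ℤ) := by
      push_cast
      rw [hm, abs_mul, abs_of_pos (by positivity : (0 : ℤ) < (q : ℤ) ^ v)]
      have h3 : (q : ℤ) ^ (Nat.log q M) ≤ |m| := le_trans (by exact_mod_cast h1) hMle
      calc (q : ℤ) ^ (v + 1 + Nat.log q M) = (q : ℤ) * ((q : ℤ) ^ v * (q : ℤ) ^ (Nat.log q M)) := by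
            ring
        _ ≤ ((q : ℤ) + 1) * ((q : ℤ) ^ v * |m|) := by gcongr; omega
    exact_mod_cast h2

end Pool.Agent.DigitPowers
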