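import Mathlib
import Pool.Agent.DigitPowers.Split
import Pool.Agent.DigitPowers.AverageThm

/-!
# The harmonic sum of the numbers of far levels
-/

open Finset

namespace Pool.Agent.DigitPowers

lemma list_sum_affine (L : List ℤ) (f : ℤ → ℝ) (c d : ℝ) :
    (L.map (fun A => c - f A * d)).sum = L.length * c - (L.map f).sum * d := by
  induction L with
  | nil => simp
  | cons a L ih =>
    rw [List.map_cons, List.sum_cons, ih, List.map_cons, List.sum_cons, List.length_cons]
    push_cast
    ring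

lemma list_amhm (L : List ℤ) (f : ℤ → ℝ) (hf : ∀ A ∈ L, 0 < f A) (hL : 0 < L.length) :
    1 / (L.map f).sum ≤ 1 / (L.length : ℝ) ^ 2 * (L.map (fun A => 1 / f A)).sum := by
  have hK : (0 : ℝ) < L.length := by exact_mod_cast hL
  have hS : 0 < (L.map f).sum := by
    apply List.sum_pos
    · intro x hx
      rw [List.mem_map] at hx
      obtain ⟨A, hA, rfl⟩ := hx
      exact hf A hA
    · intro h
      rw [List.map_eq_nil_iff] at h
      rw [h] at hL
      simp at hL
  set S := (L.map f).sum with hSdef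
  set M := S / L.length with hM
  have hM0 : 0 < M := by positivity
  have h1 : (L.map (fun A => 2 / M - f A * (1 / M ^ 2))).sum ≤ (L.map (fun A => 1 / f A)).sum := by
    apply List.sum_le_sum
    intro A hA
    have hfA := hf A hA
    have : 1 / f A - (2 / M - f A * (1 / M ^ 2)) = (M - f A) ^ 2 / (f A * M ^ 2) := by
      field_simp
      ring
    have h2 : 0 ≤ (M - f A) ^ 2 / (f A * M ^ 2) := by positivity
    linarith
  rw [list_sum_affine] at h1
  have h2 : (L.length : ℝ) * (2 / M) - S * (1 / M ^ 2) = (L.length : ℝ) ^ 2 / S := by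
    rw [hM]
    field_simp
    ring
  rw [← hSdef, h2] at h1
  calc 1 / S = 1 / (L.length : ℝ) ^ 2 * ((L.length : ℝ) ^ 2 / S) := by field_simp
    _ ≤ _ := by gcongr

lemma natcast_list_sum (L : List ℤ) (f : ℤ → ℕ) :
    (((L.map f).sum : ℕ) : ℝ) = (L.map (fun A => (f A : ℝ))).sum := by
  induction L with
  | nil => simp
  | cons a L ih =>
    rw [List.map_cons, List.sum_cons, List.map_cons, List.sum_cons, ← ih]
    push_cast
    ring

lemma list_sum_comm (L : List ℤ) (g : ℤ → ℕ → ℝ) (s : Finset ℕ) :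
    ∑ t ∈ s, (L.map (fun A => g A t)).sum = (L.map (fun A => ∑ t ∈ s, g A t)).sum := by
  induction L with
  | nil => simp
  | cons a L ih =>
    simp only [List.map_cons, List.sum_cons]
    rw [Finset.sum_add_distrib, ih]

variable {p q : ℕ}

lemma farN_pos (hq : 2 ≤ q) (hp : 2 ≤ p) {A : ℤ} (hA : A ≠ 0) (t : ℕ) :
    0 < (farN p q A 0 t : ℝ) := by
  have hx : (p : ℤ) ^ t * A ≠ 0 := by
    refine mul_ne_zero (pow_ne_zero _ ?_) hA
    exact_mod_cast (by omega : p ≠ 0)
  have := succ_le_card_farSet hq 0 hx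
  have h : 0 < farN p q A 0 t := by unfold farN; omega
  exact_mod_cast h

lemma window_bound (hq : 2 ≤ q) (hp : 2 ≤ p) {T : ℕ} {B : ℝ}
    (hB : ∀ A : ℤ, A ≠ 0 → ∑ s ∈ range T, 1 / (farN p q A 0 s : ℝ) ≤ B)
    {X w : ℕ} (hw : w ≤ T) (hwX : ∀ s < w, p ^ s ≤ q ^ X) {x : ℤ} (hx : x ≠ 0) :
    ∑ s ∈ range w, 1 / (farN p q x 0 s : ℝ) ≤ B / (upSteps q X x).card := by
  obtain ⟨L, hL1, hL2, hL3⟩ := exists_pieces hq X _ x hx rfl
  have hK := one_le_card_up hq X hx
  rw [← hL1] at hK ⊢
  have hKR : (0 : ℝ) < L.length := by exact_mod_cast hK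
  have h1 : ∀ s ∈ range w, 1 / (farN p q x 0 s : ℝ) ≤
      1 / (L.length : ℝ) ^ 2 * (L.map (fun A => 1 / (farN p q A 0 s : ℝ))).sum := by
    intro s hs
    have hsw := hwX s (Finset.mem_range.1 hs)
    have h2 : (farN p q x 0 s : ℝ) = (L.map (fun A => (farN p q A 0 s : ℝ))).sum := by
      have := hL3 ((p : ℤ) ^ s) (by
        have : (0 : ℤ) < p := by exact_mod_cast (by omega : 0 < p)
        positivity) (by exact_mod_cast hsw)
      unfold farN
      rw [this]
      exact natcast_list_sum L _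
    rw [h2]
    exact list_amhm L _ (fun A hA => farN_pos hq hp (hL2 A hA) s) hK
  refine (Finset.sum_le_sum h1).trans ?_
  rw [← Finset.mul_sum, list_sum_comm]
  have h3 : (L.map (fun A => ∑ t ∈ range w, 1 / (farN p q A 0 t : ℝ))).sum ≤ L.length * B := by
    have h4 : (L.map (fun A => ∑ t ∈ range w, 1 / (farN p q A 0 t : ℝ))).sum ≤
        (L.map (fun _ => B)).sum := by
      apply List.sum_le_sum
      intro A hA
      refine le_trans ?_ (hB A (hL2 A hA))
      apply Finset.sum_le_sum_of_subset_of_nonneg (Finset.range_mono hw)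
      intro _ _ _
      positivity
    rw [List.map_const', List.sum_replicate, nsmul_eq_mul] at h4
    exact h4
  calc 1 / (L.length : ℝ) ^ 2 * (L.map (fun A => ∑ t ∈ range w, 1 / (farN p q A 0 t : ℝ))).sum
      ≤ 1 / (L.length : ℝ) ^ 2 * (L.length * B) := by gcongr
    _ = B / L.length := by field_simp

lemma farN_shift (A : ℤ) (a t : ℕ) : farN p q ((p : ℤ) ^ a * A) 0 t = farN p q A 0 (a + t) := by
  unfold farN
  rw [← mul_assoc, ← pow_add, add_comm t a]

end Pool.Agent.DigitPowers
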