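import Mathlib
import Pool.Agent.DigitPowers.Harmonic

/-!
# The harmonic sum of the numbers of far levels: the recursion
-/

open Finset

namespace Pool.Agent.DigitPowers

variable {p q : ℕ}

/-- The greedy covering of the time interval `[0, R)` by windows. -/
lemma greedy (hq : 2 ≤ q) (hp : 2 ≤ p) {r C : ℝ} (hr1 : 3 / 2 ≤ r) (hr2 : r < 2) (hC : 0 < C)
    {j : ℕ}
    (hIH : ∀ i ≤ j, ∀ A : ℤ, A ≠ 0 → ∑ s ∈ range (2 ^ i), 1 / (farN p q A 0 s : ℝ) ≤ C * r ^ i)
    (hgood : ∀ x : ℤ, x ≠ 0 → ((p ^ (2 ^ j) : ℕ) : ℤ) ∣ x →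
      r / C * (2 / r) ^ j ≤ ((farSet q 0 x).card : ℝ) ∨
      ∃ i, i + 1 ≤ j ∧
        r * (2 / r) ^ (j - i) ≤ ((upSteps q (Nat.clog q (p ^ (2 ^ i))) x).card : ℝ)) :
    ∀ R : ℕ, ∀ x : ℤ, x ≠ 0 → ((p ^ (2 ^ j) : ℕ) : ℤ) ∣ x →
      ∑ s ∈ range R, 1 / (farN p q x 0 s : ℝ) ≤ C / r * (r / 2) ^ j * (R + 2 ^ j / 4) := by
  have hr0 : 0 < r := by linarith
  have hpZ : (0 : ℤ) < p := by exact_mod_cast (by omega : 0 < p)
  intro R
  induction R using Nat.strong_induction_on with
  | _ R ih =>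
    intro x hx hdvd
    rcases Nat.eq_zero_or_pos R with rfl | hR
    · simp only [Finset.range_zero, Finset.sum_empty]
      positivity
    rcases hgood x hx hdvd with hσ | ⟨i, hij, hi⟩
    · -- window of length one
      have h1 : ∑ s ∈ range R, 1 / (farN p q x 0 s : ℝ) =
          1 / (farN p q x 0 0 : ℝ)
            + ∑ s ∈ range (R - 1), 1 / (farN p q ((p : ℤ) ^ 1 * x) 0 s : ℝ) := by
        obtain ⟨R, rfl⟩ : ∃ R', R = R' + 1 := ⟨R - 1, by omega⟩
        rw [Finset.sum_range_succ', Nat.add_sub_cancel, add_comm]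
        congr 1
        apply Finset.sum_congr rfl
        intro s _
        rw [farN_shift, add_comm 1 s]
      have h2 := ih (R - 1) (by omega) ((p : ℤ) ^ 1 * x)
        (mul_ne_zero (pow_ne_zero _ hpZ.ne') hx) (hdvd.mul_left _)
      have h3 : 1 / (farN p q x 0 0 : ℝ) ≤ C / r * (r / 2) ^ j := by
        have e : farN p q x 0 0 = (farSet q 0 x).card := by unfold farN; simp
        rw [e]
        have h4 : 0 < r / C * (2 / r) ^ j := by positivity
        calc 1 / ((farSet q 0 x).card : ℝ) ≤ 1 / (r / C * (2 / r) ^ j) :=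
              one_div_le_one_div_of_le h4 hσ
          _ = C / r * (r / 2) ^ j := by
              rw [div_pow, div_pow]; field_simp
      have h5 : ((R - 1 : ℕ) : ℝ) = R - 1 := by
        rw [Nat.cast_sub (by omega)]; simp
      rw [h5] at h2
      rw [h1]
      calc 1 / (farN p q x 0 0 : ℝ)
            + ∑ s ∈ range (R - 1), 1 / (farN p q ((p : ℤ) ^ 1 * x) 0 s : ℝ)
          ≤ C / r * (r / 2) ^ j + C / r * (r / 2) ^ j * ((R : ℝ) - 1 + 2 ^ j / 4) :=
            add_le_add h3 h2
        _ = _ := by ring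
    · -- window of length `2 ^ i`
      set X := Nat.clog q (p ^ (2 ^ i)) with hX
      set K := ((upSteps q X x).card : ℝ) with hK
      have hKpos : 0 < r * (2 / r) ^ (j - i) := by positivity
      have hwX : ∀ s ≤ 2 ^ i, p ^ s ≤ q ^ X := by
        intro s hs
        calc p ^ s ≤ p ^ (2 ^ i) := Nat.pow_le_pow_right (by omega) hs
          _ ≤ q ^ X := Nat.le_pow_clog (by omega) _
      have hcost : ∀ i' : ℕ, C * r ^ i' / K ≤ C / r * (r / 2) ^ (j - i) * r ^ i' := by
        intro i'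
        have h4 : 1 / K ≤ 1 / (r * (2 / r) ^ (j - i)) := one_div_le_one_div_of_le hKpos hi
        calc C * r ^ i' / K = C * r ^ i' * (1 / K) := by ring
          _ ≤ C * r ^ i' * (1 / (r * (2 / r) ^ (j - i))) := by gcongr
          _ = C / r * (r / 2) ^ (j - i) * r ^ i' := by rw [div_pow, div_pow]; field_simp
      have hpowj : (r / 2) ^ (j - i) * (r / 2) ^ i = (r / 2) ^ j := by
        rw [← pow_add]; congr 1; omega
      rcases Nat.lt_or_ge R (2 ^ i) with hlt | hge
      · -- the last window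
        set i' := Nat.clog 2 R with hi'
        have hRi' : R ≤ 2 ^ i' := Nat.le_pow_clog (by norm_num) _
        have hi'i : i' ≤ i := Nat.clog_le_of_le_pow hlt.le
        have h1 := window_bound hq hp (hIH i' (by omega)) hRi'
          (fun s hs => hwX s (by omega)) hx
        refine h1.trans ((hcost i').trans ?_)
        -- `2 ^ i' ≤ 2 R`
        have h2 : (2 : ℝ) ^ i' ≤ 2 * R := by
          have : 2 ^ i' ≤ 2 * R := by
            rcases Nat.lt_or_ge R 2 with h | h
            · obtain rfl : R = 1 := by omega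
              simp [hi']
            · have h3 : 2 ^ (i' - 1) < R := Nat.pow_pred_clog_lt_self (by norm_num) (by omega)
              have h4 : 0 < i' := Nat.clog_pos (by norm_num) h
              have h5 : 2 ^ i' = 2 ^ (i' - 1) * 2 := by rw [← pow_succ]; congr 1; omega
              omega
          exact_mod_cast this
        obtain ⟨m, hm⟩ := Nat.exists_eq_add_of_le hi'i
        -- the numerical inequality
        have h3 : (1 / r) ^ m ≤ (1 + (1 / 2) ^ m) / 2 := by
          have hr3 : 1 / r ≤ 2 / 3 := by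
            rw [div_le_div_iff₀ hr0 (by norm_num)]; linarith
          have hr4 : 0 ≤ 1 / r := by positivity
          rcases m with _ | _ | m
          · norm_num
          · norm_num
            have : r⁻¹ = 1 / r := by rw [one_div]
            rw [this]
            linarith
          · have h5 : (1 / r) ^ (m + 2) ≤ (1 / r) ^ 2 := by
              apply pow_le_pow_of_le_one hr4 (by linarith) (by omega)
            have h6 : (1 / r) ^ 2 ≤ (2 / 3) ^ 2 := by gcongr
            have h7 : (0 : ℝ) ≤ (1 / 2) ^ (m + 2) := by positivity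
            have h8 : (1 / r) ^ (m + 1 + 1) = (1 / r) ^ (m + 2) := rfl
            have h9 : ((1 : ℝ) / 2) ^ (m + 1 + 1) = (1 / 2) ^ (m + 2) := rfl
            rw [h8, h9]
            have h10 : ((2 : ℝ) / 3) ^ 2 = 4 / 9 := by norm_num
            linarith
        have h4 : (2 : ℝ) ^ i ≤ 2 ^ j / 2 := by
          have : (2 : ℝ) ^ (i + 1) ≤ 2 ^ j := pow_le_pow_right₀ (by norm_num) hij
          rw [pow_succ] at this
          linarith
        have h5 : r ^ i' * (2 / r) ^ i = 2 ^ i * (1 / r) ^ m := by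
          rw [hm, pow_add, pow_add, div_pow, div_pow, div_pow]
          field_simp
          rw [one_pow]
        have h6 : r ^ i' * (2 / r) ^ i ≤ R + 2 ^ j / 4 := by
          rw [h5]
          calc (2 : ℝ) ^ i * (1 / r) ^ m ≤ 2 ^ i * ((1 + (1 / 2) ^ m) / 2) := by gcongr
            _ = 2 ^ i' / 2 + 2 ^ i / 2 := by
                rw [hm, pow_add, div_pow]
                field_simp
                ring
            _ ≤ _ := by linarith
        calc C / r * (r / 2) ^ (j - i) * r ^ i'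
            = C / r * ((r / 2) ^ (j - i) * (r / 2) ^ i) * (r ^ i' * (2 / r) ^ i) := by
              have : (r / 2) ^ i * (2 / r) ^ i = 1 := by
                rw [← mul_pow]
                have : r / 2 * (2 / r) = 1 := by field_simp
                rw [this, one_pow]
              calc C / r * (r / 2) ^ (j - i) * r ^ i'
                  = C / r * (r / 2) ^ (j - i) * r ^ i' * ((r / 2) ^ i * (2 / r) ^ i) := by
                    rw [this, mul_one]
                _ = _ := by ring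
          _ ≤ C / r * ((r / 2) ^ (j - i) * (r / 2) ^ i) * (R + 2 ^ j / 4) := by gcongr
          _ = _ := by rw [hpowj]
      · -- a full window
        have h1 := window_bound hq hp (hIH i (by omega)) le_rfl
          (fun s hs => hwX s (by omega)) hx
        have h2 := ih (R - 2 ^ i) (by have := Nat.one_le_two_pow (n := i); omega)
          ((p : ℤ) ^ (2 ^ i) * x)
          (mul_ne_zero (pow_ne_zero _ hpZ.ne') hx) (hdvd.mul_left _)
        have h3 : ∑ s ∈ range R, 1 / (farN p q x 0 s : ℝ) =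
            ∑ s ∈ range (2 ^ i), 1 / (farN p q x 0 s : ℝ)
            + ∑ s ∈ range (R - 2 ^ i), 1 / (farN p q ((p : ℤ) ^ (2 ^ i) * x) 0 s : ℝ) := by
          obtain ⟨R', rfl⟩ : ∃ R', R = 2 ^ i + R' := ⟨R - 2 ^ i, by omega⟩
          rw [Finset.sum_range_add, Nat.add_sub_cancel_left]
          congr 1
          apply Finset.sum_congr rfl
          intro s _
          rw [farN_shift]
        have h4 : ((R - 2 ^ i : ℕ) : ℝ) = R - 2 ^ i := by
          rw [Nat.cast_sub hge]; simp
        rw [h4] at h2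
        rw [h3]
        have h5 : C / r * (r / 2) ^ (j - i) * r ^ i = C / r * (r / 2) ^ j * 2 ^ i := by
          rw [← hpowj]
          have : (r / 2) ^ i * 2 ^ i = r ^ i := by
            rw [← mul_pow]; congr 1; ring
          calc C / r * (r / 2) ^ (j - i) * r ^ i
              = C / r * (r / 2) ^ (j - i) * ((r / 2) ^ i * 2 ^ i) := by rw [this]
            _ = _ := by ring
        calc ∑ s ∈ range (2 ^ i), 1 / (farN p q x 0 s : ℝ)
              + ∑ s ∈ range (R - 2 ^ i), 1 / (farN p q ((p : ℤ) ^ (2 ^ i) * x) 0 s : ℝ)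
            ≤ C / r * (r / 2) ^ j * 2 ^ i
              + C / r * (r / 2) ^ j * ((R : ℝ) - 2 ^ i + 2 ^ j / 4) := by
              apply add_le_add _ h2
              rw [← h5]
              exact h1.trans (hcost i)
          _ = _ := by ring

/-- Existence of a good scale. -/
lemma good_scale (hq : 2 ≤ q) (hp : 2 ≤ p) (hpq : Nat.Coprime p q) {r : ℝ} (hr1 : 17 / 10 ≤ r)
    (hr2 : r < 2) : ∃ j₀ : ℕ, 1 ≤ j₀ ∧ ∀ j : ℕ, j₀ ≤ j → ∀ C : ℝ, 1 ≤ C →
      ∀ x : ℤ, x ≠ 0 → ((p ^ (2 ^ j) : ℕ) : ℤ) ∣ x →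
      r / C * (2 / r) ^ j ≤ ((farSet q 0 x).card : ℝ) ∨
      ∃ i, i + 1 ≤ j ∧
        r * (2 / r) ^ (j - i) ≤ ((upSteps q (Nat.clog q (p ^ (2 ^ i))) x).card : ℝ) := by
  have hr0 : 0 < r := by linarith
  have hlp : 0 < Real.log p := Real.log_pos (by exact_mod_cast (by omega : 1 < p))
  have hlq : 0 < Real.log q := Real.log_pos (by exact_mod_cast (by omega : 1 < q))
  set γ := Real.log p / Real.log q with hγ
  have hγ0 : 0 < γ := by positivity
  set Xs : ℕ → ℕ := fun i => Nat.clog q (p ^ (2 ^ i)) with hXs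
  have hpR : (0 : ℝ) < p := by exact_mod_cast (by omega : 0 < p)
  have hqR : (0 : ℝ) < q := by exact_mod_cast (by omega : 0 < q)
  -- size of `Xs`
  have hlogpow : ∀ n : ℕ, Real.log ((p : ℝ) ^ n) = γ * n * Real.log q := by
    intro n
    rw [Real.log_pow, hγ]; field_simp
  have hXlow : ∀ i, γ * 2 ^ i ≤ (Xs i : ℝ) := by
    intro i
    have h1 : p ^ (2 ^ i) ≤ q ^ (Xs i) := Nat.le_pow_clog (by omega) _
    have h2 : (p : ℝ) ^ (2 ^ i) ≤ (q : ℝ) ^ (Xs i) := by exact_mod_cast h1
    have h3 := Real.log_le_log (by positivity) h2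
    rw [hlogpow, Real.log_pow] at h3
    have h4 := le_of_mul_le_mul_right h3 hlq
    push_cast at h4
    exact h4
  have hXup : ∀ i, (Xs i : ℝ) ≤ γ * 2 ^ i + 1 := by
    intro i
    have h0 : 1 < p ^ (2 ^ i) := Nat.one_lt_pow (by positivity) (by omega)
    have h1 : q ^ (Xs i - 1) < p ^ (2 ^ i) := Nat.pow_pred_clog_lt_self (by omega) h0
    have h2 : (q : ℝ) ^ (Xs i - 1) ≤ (p : ℝ) ^ (2 ^ i) := by exact_mod_cast h1.le
    have h3 := Real.log_le_log (by positivity) h2
    rw [hlogpow, Real.log_pow] at h3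
    have h4 := le_of_mul_le_mul_right h3 hlq
    push_cast at h4
    have h5 : (Xs i : ℝ) ≤ ((Xs i - 1 : ℕ) : ℝ) + 1 := by
      have : Xs i ≤ Xs i - 1 + 1 := by omega
      exact_mod_cast this
    linarith
  have hloglow : ∀ n : ℕ, γ * n - 1 ≤ (Nat.log q (p ^ n) : ℝ) := by
    intro n
    have h1 : p ^ n < q ^ (Nat.log q (p ^ n) + 1) := Nat.lt_pow_succ_log_self (by omega) _
    have h2 : (p : ℝ) ^ n ≤ (q : ℝ) ^ (Nat.log q (p ^ n) + 1) := by exact_mod_cast h1.le
    have h3 := Real.log_le_log (by positivity) h2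
    rw [hlogpow, Real.log_pow] at h3
    have h4 := le_of_mul_le_mul_right h3 hlq
    push_cast at h4
    linarith
  have hXmono : ∀ i, Xs i ≤ Xs (i + 1) := fun i =>
    Nat.clog_mono_right q (Nat.pow_le_pow_right (by omega)
      (Nat.pow_le_pow_right (by norm_num) (by omega)))
  set E : ℝ := (Xs 0 + 1) + 2 / (2 - r) with hE
  have h2r : 0 < 2 - r := by linarith
  have hE0 : 0 < E := by positivity
  have hη : 0 < (3 / 2 - 1 / (r - 1)) * γ := by
    have : 1 / (r - 1) < 3 / 2 := by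
      rw [div_lt_iff₀ (by linarith)]; linarith
    have : 0 < 3 / 2 - 1 / (r - 1) := by linarith
    positivity
  obtain ⟨j₀, hj₀⟩ := pow_unbounded_of_one_lt (r * E / ((3 / 2 - 1 / (r - 1)) * γ))
    (by linarith : 1 < r)
  refine ⟨j₀ + 1, by omega, ?_⟩
  intro j hj C hC x hx hdvd
  by_contra hcon
  push Not at hcon
  obtain ⟨hσ, hK⟩ := hcon
  have hj1 : 1 ≤ j := by omega
  have hpow0 : 0 < r * (2 / r) ^ j := by positivity
  have hσ' : ((farSet q 0 x).card : ℝ) ≤ r * (2 / r) ^ j := by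
    refine hσ.le.trans ?_
    have : r / C ≤ r := div_le_self hr0.le hC
    gcongr
  -- upper bound for the thick sets by induction
  have hup : ∀ i, i + 1 ≤ j → ((farSet q (Xs i) x).card : ℝ) ≤
      r * (2 / r) ^ j * ((Xs 0 + 1) + γ * r ^ i / (r - 1) + 2 / (2 - r) * (1 - (r / 2) ^ i)) := by
    intro i
    induction i with
    | zero =>
      intro _
      have h1 : ((farSet q (Xs 0) x).card : ℝ) ≤ (Xs 0 + 1) * ((farSet q 0 x).card : ℝ) := by
        exact_mod_cast card_farSet_le_mul hq (Xs 0) x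
      have h2 : 0 ≤ γ * r ^ 0 / (r - 1) := by
        have : 0 < r - 1 := by linarith
        positivity
      have h3 : 2 / (2 - r) * (1 - (r / 2) ^ 0) = 0 := by simp
      rw [h3, add_zero]
      calc ((farSet q (Xs 0) x).card : ℝ) ≤ (Xs 0 + 1) * ((farSet q 0 x).card : ℝ) := h1
        _ ≤ (Xs 0 + 1) * (r * (2 / r) ^ j) := by gcongr
        _ = r * (2 / r) ^ j * (Xs 0 + 1) := by ring
        _ ≤ _ := by
            apply mul_le_mul_of_nonneg_left _ hpow0.le
            linarith
    | succ i ih =>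
      intro hi
      have h1 := ih (by omega)
      have h2 := hK i (by omega)
      have h3 := card_farSet_add_le hq (Xs i) (Xs (i + 1) - Xs i) x
      have e1 : Xs i + (Xs (i + 1) - Xs i) = Xs (i + 1) := by have := hXmono i; omega
      rw [e1, ← card_upSteps_eq] at h3
      have h4 : ((farSet q (Xs (i + 1)) x).card : ℝ) ≤ ((farSet q (Xs i) x).card : ℝ)
          + ((Xs (i + 1) - Xs i : ℕ) : ℝ) * ((upSteps q (Xs i) x).card : ℝ) := by
        exact_mod_cast h3
      have h5 : ((Xs (i + 1) - Xs i : ℕ) : ℝ) ≤ γ * 2 ^ i + 1 := by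
        rw [Nat.cast_sub (hXmono i)]
        have h6 := hXup (i + 1)
        have h7 := hXlow i
        rw [pow_succ] at h6
        linarith
      have h6 : r * (2 / r) ^ (j - i) = r * (2 / r) ^ j * (r / 2) ^ i := by
        have h7 : (2 / r) ^ j = (2 / r) ^ (j - i) * (2 / r) ^ i := by
          rw [← pow_add]; congr 1; omega
        have h8 : (2 / r) ^ i * (r / 2) ^ i = 1 := by
          rw [← mul_pow]
          have : 2 / r * (r / 2) = 1 := by field_simp
          rw [this, one_pow]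
        rw [h7]
        calc r * (2 / r) ^ (j - i) = r * (2 / r) ^ (j - i) * ((2 / r) ^ i * (r / 2) ^ i) := by
              rw [h8, mul_one]
          _ = _ := by ring
      have h9 : ((Xs (i + 1) - Xs i : ℕ) : ℝ) * ((upSteps q (Xs i) x).card : ℝ) ≤
          (γ * 2 ^ i + 1) * (r * (2 / r) ^ j * (r / 2) ^ i) := by
        rw [← h6]
        apply mul_le_mul h5 h2.le (by positivity) (by positivity)
      have h10 : (2 : ℝ) ^ i * (r / 2) ^ i = r ^ i := by
        rw [← mul_pow]; congr 1; ring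
      have hr1' : r - 1 ≠ 0 := by linarith
      have h2r' : 2 - r ≠ 0 := h2r.ne'
      have h11 : (γ * 2 ^ i + 1) * (r * (2 / r) ^ j * (r / 2) ^ i)
          = r * (2 / r) ^ j * (γ * r ^ i + (r / 2) ^ i) := by
        rw [← h10]; ring
      have h12 : γ * r ^ (i + 1) / (r - 1) = γ * r ^ i / (r - 1) + γ * r ^ i := by
        rw [pow_succ]; field_simp; ring
      have h13 : 2 / (2 - r) * (1 - (r / 2) ^ (i + 1))
          = 2 / (2 - r) * (1 - (r / 2) ^ i) + (r / 2) ^ i := by
        rw [pow_succ]; field_simp; ring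
      rw [h12, h13]
      rw [h11] at h9
      linarith
  -- there is only one block at the last scale
  obtain ⟨i, rfl⟩ : ∃ i, j = i + 1 := ⟨j - 1, by omega⟩
  have hone : (upSteps q (Xs i) x).card ≤ 1 := by
    have h1 := hK i (by omega)
    have h2 : r * (2 / r) ^ (i + 1 - i) = 2 := by
      rw [Nat.add_sub_cancel_left, pow_one]; field_simp
    rw [h2] at h1
    have h3 : (upSteps q (Xs i) x).card < 2 := by exact_mod_cast h1
    omega
  obtain ⟨l, l', hl, hl', hll⟩ := far_span hq (M := p ^ (2 ^ (i + 1))) (hpq.pow_left _) hx hdvd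
  have hint := far_interval hq hone hl hl' (by omega)
  have h1 : Nat.log q (p ^ (2 ^ (i + 1))) + Xs i + 1 ≤ (farSet q (Xs i) x).card := by omega
  have h1R : (Nat.log q (p ^ (2 ^ (i + 1))) : ℝ) + Xs i + 1 ≤ ((farSet q (Xs i) x).card : ℝ) := by
    exact_mod_cast h1
  have h2 := hup i (by omega)
  have h3 := hloglow (2 ^ (i + 1))
  have h4 := hXlow i
  push_cast at h3
  have h5 : (3 / 2) * γ * 2 ^ (i + 1) ≤ ((farSet q (Xs i) x).card : ℝ) := by
    have : γ * (2 : ℝ) ^ i = 1 / 2 * γ * 2 ^ (i + 1) := by rw [pow_succ]; ring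
    linarith
  have h6 : r * (2 / r) ^ (i + 1) * (γ * r ^ i / (r - 1)) = 1 / (r - 1) * γ * 2 ^ (i + 1) := by
    have hr1' : r - 1 ≠ 0 := by linarith
    rw [div_pow, pow_succ r i]
    field_simp
  have h7 : r * (2 / r) ^ (i + 1) * ((Xs 0 + 1) + γ * r ^ i / (r - 1)
      + 2 / (2 - r) * (1 - (r / 2) ^ i)) ≤ 1 / (r - 1) * γ * 2 ^ (i + 1)
        + r * (2 / r) ^ (i + 1) * E := by
    have h8 : 2 / (2 - r) * (1 - (r / 2) ^ i) ≤ 2 / (2 - r) := by
      have : 0 ≤ (r / 2) ^ i := by positivity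
      have h9 : 0 ≤ 2 / (2 - r) := by positivity
      nlinarith
    rw [← h6, ← mul_add]
    apply mul_le_mul_of_nonneg_left _ hpow0.le
    rw [hE]
    linarith
  have h8 : (3 / 2 - 1 / (r - 1)) * γ * 2 ^ (i + 1) ≤ r * (2 / r) ^ (i + 1) * E := by
    have := h5.trans (h2.trans h7)
    linarith
  have h9 : r * (2 / r) ^ (i + 1) * E * r ^ (i + 1) = r * E * 2 ^ (i + 1) := by
    rw [div_pow]; field_simp
  have h10 : r ^ j₀ ≤ r ^ (i + 1) := pow_le_pow_right₀ (by linarith) (by omega)
  have h11 : r * E < (3 / 2 - 1 / (r - 1)) * γ * r ^ (i + 1) := by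
    have := lt_of_lt_of_le hj₀ h10
    rw [div_lt_iff₀ hη] at this
    linarith
  have h12 : (3 / 2 - 1 / (r - 1)) * γ * 2 ^ (i + 1) * r ^ (i + 1) ≤ r * E * 2 ^ (i + 1) := by
    rw [← h9]
    exact mul_le_mul_of_nonneg_right h8 (by positivity)
  have h13 : r * E * 2 ^ (i + 1) < (3 / 2 - 1 / (r - 1)) * γ * r ^ (i + 1) * 2 ^ (i + 1) :=
    mul_lt_mul_of_pos_right h11 (by positivity)
  linarith [mul_right_comm ((3 / 2 - 1 / (r - 1)) * γ) ((2 : ℝ) ^ (i + 1)) (r ^ (i + 1))]

/-- **Harmonic bound**: `∑_{t < N} 1 / σ (A p ^ t) ≤ C N ^ (4 / 5)`, uniformly in `A ≠ 0`. -/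
theorem harmonic_bound (hq : 2 ≤ q) (hp : 2 ≤ p) (hpq : Nat.Coprime p q) :
    ∃ C : ℝ, 0 < C ∧ ∀ A : ℤ, A ≠ 0 → ∀ N : ℕ,
      ∑ t ∈ range N, 1 / (farN p q A 0 t : ℝ) ≤ C * (N : ℝ) ^ ((4 : ℝ) / 5) := by
  set r : ℝ := (2 : ℝ) ^ ((4 : ℝ) / 5) with hr
  have hr0 : 0 < r := by positivity
  have hr5 : r ^ 5 = 16 := by
    rw [hr, ← Real.rpow_natCast, ← Real.rpow_mul (by norm_num)]
    norm_num
  have hr1 : 174 / 100 ≤ r := by
    by_contra hlt
    push Not at hlt
    have : r ^ 5 < (174 / 100) ^ 5 := pow_lt_pow_left₀ hlt hr0.le (by norm_num)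
    rw [hr5] at this
    norm_num at this
  have hr2 : r < 2 := by
    by_contra hle
    push Not at hle
    have : (2 : ℝ) ^ 5 ≤ r ^ 5 := pow_le_pow_left₀ (by norm_num) hle 5
    rw [hr5] at this
    norm_num at this
  obtain ⟨j₀, hj₀, hgs⟩ := good_scale hq hp hpq (by linarith : 17 / 10 ≤ r) hr2
  set C : ℝ := 2 ^ j₀ with hC
  have hC1 : 1 ≤ C := one_le_pow₀ (by norm_num)
  have hterm : ∀ A : ℤ, A ≠ 0 → ∀ t, 1 / (farN p q A 0 t : ℝ) ≤ 1 := by
    intro A hA t
    have h1 := farN_pos hq hp hA t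
    rw [div_le_one h1]
    have h2 : 0 < farN p q A 0 t := by exact_mod_cast h1
    exact_mod_cast h2
  have main : ∀ i : ℕ, ∀ A : ℤ, A ≠ 0 →
      ∑ s ∈ range (2 ^ i), 1 / (farN p q A 0 s : ℝ) ≤ C * r ^ i := by
    intro i
    induction i using Nat.strong_induction_on with
    | _ i ih =>
      intro A hA
      rcases Nat.lt_or_ge j₀ i with hlt | hge
      · obtain ⟨j, rfl⟩ : ∃ j, i = j + 1 := ⟨i - 1, by omega⟩
        have h1 := ih j (by omega) A hA
        have hpZ : (0 : ℤ) < p := by exact_mod_cast (by omega : 0 < p)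
        have h2 := greedy hq hp (by linarith : 3 / 2 ≤ r) hr2 (by linarith : 0 < C)
          (fun i hi => ih i (by omega)) (fun x hx hd => hgs j (by omega) C hC1 x hx hd)
          (2 ^ j) ((p : ℤ) ^ (2 ^ j) * A) (mul_ne_zero (pow_ne_zero _ hpZ.ne') hA)
          ⟨A, by push_cast; ring⟩
        have h3 : ∑ s ∈ range (2 ^ (j + 1)), 1 / (farN p q A 0 s : ℝ) =
            ∑ s ∈ range (2 ^ j), 1 / (farN p q A 0 s : ℝ)
            + ∑ s ∈ range (2 ^ j), 1 / (farN p q ((p : ℤ) ^ (2 ^ j) * A) 0 s : ℝ) := by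
          have e : 2 ^ (j + 1) = 2 ^ j + 2 ^ j := by ring
          rw [e, Finset.sum_range_add]
          congr 1
          apply Finset.sum_congr rfl
          intro s _
          rw [farN_shift]
        rw [h3]
        have h4 : C / r * (r / 2) ^ j * (((2 ^ j : ℕ) : ℝ) + 2 ^ j / 4) = C * r ^ j * (5 / (4 * r)) := by
          push_cast
          rw [div_pow]
          field_simp
          ring
        rw [h4] at h2
        have h5 : 1 + 5 / (4 * r) ≤ r := by
          have : 5 / (4 * r) ≤ r - 1 := by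
            rw [div_le_iff₀ (by positivity)]
            nlinarith
          linarith
        calc ∑ s ∈ range (2 ^ j), 1 / (farN p q A 0 s : ℝ)
            + ∑ s ∈ range (2 ^ j), 1 / (farN p q ((p : ℤ) ^ (2 ^ j) * A) 0 s : ℝ)
            ≤ C * r ^ j + C * r ^ j * (5 / (4 * r)) := add_le_add h1 h2
          _ = C * r ^ j * (1 + 5 / (4 * r)) := by ring
          _ ≤ C * r ^ j * r := by gcongr
          _ = _ := by ring
      · have h1 : ∑ s ∈ range (2 ^ i), 1 / (farN p q A 0 s : ℝ) ≤ ∑ s ∈ range (2 ^ i), (1 : ℝ) :=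
          Finset.sum_le_sum (fun s _ => hterm A hA s)
        rw [Finset.sum_const, Finset.card_range, nsmul_eq_mul, mul_one] at h1
        push_cast at h1
        have h2 : (2 : ℝ) ^ i ≤ C := pow_le_pow_right₀ (by norm_num) hge
        have h3 : 1 ≤ r ^ i := one_le_pow₀ (by linarith)
        calc ∑ s ∈ range (2 ^ i), 1 / (farN p q A 0 s : ℝ) ≤ C := h1.trans h2
          _ ≤ C * r ^ i := le_mul_of_one_le_right (by linarith) h3
  refine ⟨C * r, by positivity, ?_⟩
  intro A hA N
  rcases Nat.eq_zero_or_pos N with rfl | hN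
  · simp
  set i := Nat.log 2 N with hi
  have h1 : 2 ^ i ≤ N := Nat.pow_log_le_self 2 hN.ne'
  have h2 : N < 2 ^ (i + 1) := Nat.lt_pow_succ_log_self (by norm_num) N
  have h3 : ∑ t ∈ range N, 1 / (farN p q A 0 t : ℝ) ≤
      ∑ s ∈ range (2 ^ (i + 1)), 1 / (farN p q A 0 s : ℝ) := by
    apply Finset.sum_le_sum_of_subset_of_nonneg (Finset.range_mono h2.le)
    intro _ _ _
    positivity
  refine h3.trans ((main (i + 1) A hA).trans ?_)
  have h4 : r ^ i ≤ (N : ℝ) ^ ((4 : ℝ) / 5) := by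
    have h5 : ((2 : ℝ) ^ i) ≤ N := by exact_mod_cast h1
    calc r ^ i = ((2 : ℝ) ^ i) ^ ((4 : ℝ) / 5) := by
          rw [hr, ← Real.rpow_natCast, ← Real.rpow_natCast, ← Real.rpow_mul (by norm_num),
            ← Real.rpow_mul (by norm_num), mul_comm]
      _ ≤ _ := Real.rpow_le_rpow (by positivity) h5 (by norm_num)
  calc C * r ^ (i + 1) = C * r * r ^ i := by ring
    _ ≤ _ := by gcongr

end Pool.Agent.DigitPowers
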