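import Mathlib
import Pool.Agent.DigitPowers.HarmonicThm
import Pool.Agent.DigitPowers.DigitHit

/-!
# Digit changes and block occurrences for almost all powers
-/

open Finset

namespace Pool.Agent.DigitPowers

/-- Two equal consecutive digits give a near level of `(q - 1) x`. -/
lemma near_of_equal_digits {q : ℕ} (hq : 2 ≤ q) {x m : ℕ}
    (h : x / q ^ m % q = x / q ^ (m + 1) % q) :
    Near q 0 (m + 2) ((x : ℤ) * ((q - 1 : ℕ) : ℤ)) := by
  set d := x / q ^ m % q with hd
  have hdq : d < q := Nat.mod_lt _ (by omega)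
  set ρ := x % q ^ m with hρ
  have hqm : 0 < q ^ m := by positivity
  have hρm : ρ < q ^ m := Nat.mod_lt _ hqm
  set u := x / q ^ (m + 1) / q with hu
  have h1 : x = q ^ m * (x / q ^ m) + ρ := (Nat.div_add_mod _ _).symm
  have h2 : x / q ^ m = q * (x / q ^ (m + 1)) + d := by
    have := Nat.div_add_mod (x / q ^ m) q
    rw [Nat.div_div_eq_div_mul, ← pow_succ] at this
    exact this.symm
  have h3 : x / q ^ (m + 1) = q * u + d := by
    have := Nat.div_add_mod (x / q ^ (m + 1)) q
    rw [← h] at this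
    exact this.symm
  have h4 : x = q ^ m * (q * (q * u + d) + d) + ρ := by
    rw [← h3, ← h2]; exact h1
  have hq1 : (((q - 1 : ℕ)) : ℤ) = (q : ℤ) - 1 := by
    rw [Nat.cast_sub (by omega)]; simp
  refine ⟨((q : ℤ) - 1) * u + d, ?_⟩
  have e : (x : ℤ) * ((q - 1 : ℕ) : ℤ) - (((q : ℤ) - 1) * u + d) * (q : ℤ) ^ (m + 2)
      = ((q : ℤ) - 1) * ρ - d * (q : ℤ) ^ m := by
    rw [hq1]
    have : (x : ℤ) = (q : ℤ) ^ m * (q * (q * u + d) + d) + ρ := by exact_mod_cast h4
    rw [this]
    ring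
  rw [e, pow_zero, mul_one]
  have hq0 : (2 : ℤ) ≤ q := by exact_mod_cast hq
  have hqm' : (0 : ℤ) < (q : ℤ) ^ m := by positivity
  have h5 : |((q : ℤ) - 1) * ρ - d * (q : ℤ) ^ m| ≤ ((q : ℤ) - 1) * (q : ℤ) ^ m := by
    have hρ' : (ρ : ℤ) ≤ (q : ℤ) ^ m := by exact_mod_cast hρm.le
    have hρ0 : (0 : ℤ) ≤ ρ := by positivity
    have hd' : (d : ℤ) ≤ (q : ℤ) - 1 := by
      have : (d : ℤ) < q := by exact_mod_cast hdq
      omega
    have hd0 : (0 : ℤ) ≤ d := by positivity
    rw [abs_le]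
    have h6 : ((q : ℤ) - 1) * ρ ≤ ((q : ℤ) - 1) * (q : ℤ) ^ m :=
      mul_le_mul_of_nonneg_left hρ' (by omega)
    have h7 : (d : ℤ) * (q : ℤ) ^ m ≤ ((q : ℤ) - 1) * (q : ℤ) ^ m :=
      mul_le_mul_of_nonneg_right hd' hqm'.le
    have h8 : 0 ≤ ((q : ℤ) - 1) * ρ := mul_nonneg (by omega) hρ0
    have h9 : 0 ≤ (d : ℤ) * (q : ℤ) ^ m := by positivity
    constructor <;> linarith
  calc ((q : ℤ) + 1) * |((q : ℤ) - 1) * ρ - d * (q : ℤ) ^ m|
      ≤ ((q : ℤ) + 1) * (((q : ℤ) - 1) * (q : ℤ) ^ m) :=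
        mul_le_mul_of_nonneg_left h5 (by positivity)
    _ = (q : ℤ) ^ (m + 2) - (q : ℤ) ^ m := by ring
    _ < (q : ℤ) ^ (m + 2) := by linarith

/-- Positions `i` such that the digits in positions `i` and `i + 1` of `m` differ. -/
def changePos (q m : ℕ) : Finset ℕ :=
  (Finset.range (Nat.digits q m).length).filter
    (fun i => i + 1 < (Nat.digits q m).length ∧ m / q ^ i % q ≠ m / q ^ (i + 1) % q)

lemma far_le_changes {q : ℕ} (hq : 2 ≤ q) (x : ℕ) :
    (farSet q 0 ((x : ℤ) * ((q - 1 : ℕ) : ℤ))).card ≤ 2 + (changePos q x).card := by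
  classical
  set n := (Nat.digits q x).length with hn
  have hsub : farSet q 0 ((x : ℤ) * ((q - 1 : ℕ) : ℤ)) ⊆
      ({1, n + 1} : Finset ℕ) ∪ (changePos q x).image (fun i => i + 2) := by
    intro l hl
    rw [mem_farSet hq] at hl
    rw [Finset.mem_union]
    rcases l with _ | _ | m
    · exact absurd (near_zero_level _ _) hl
    · left; simp
    · have h1 : x / q ^ m % q ≠ x / q ^ (m + 1) % q := fun h => hl (near_of_equal_digits hq h)
      by_cases h2 : m + 1 < n
      · right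
        rw [Finset.mem_image]
        refine ⟨m, ?_, rfl⟩
        unfold changePos
        rw [Finset.mem_filter, Finset.mem_range]
        exact ⟨by omega, h2, h1⟩
      · left
        by_cases h3 : m + 1 = n
        · rw [← h3]; simp
        · exfalso
          apply h1
          have h4 : n ≤ m := by omega
          have h5 : x < q ^ m := by
            have h6 : x < q ^ n := by rw [hn]; exact Nat.lt_base_pow_length_digits (by omega)
            exact h6.trans_le (Nat.pow_le_pow_right (by omega) h4)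
          have h6 : x < q ^ (m + 1) := h5.trans_le (Nat.pow_le_pow_right (by omega) (by omega))
          rw [Nat.div_eq_of_lt h5, Nat.div_eq_of_lt h6]
  refine (Finset.card_le_card hsub).trans ?_
  refine (Finset.card_union_le _ _).trans ?_
  exact Nat.add_le_add (Finset.card_le_two) Finset.card_image_le

/-- Harmonic bound for digit changes, uniform in the starting value. -/
theorem changes_harmonic {p q : ℕ} (hp : 2 ≤ p) (hq : 2 ≤ q) (hpq : Nat.Coprime p q) :
    ∃ C : ℝ, 0 < C ∧ ∀ A : ℕ, 1 ≤ A → ∀ N : ℕ,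
      ∑ n ∈ Finset.range N, 1 / (1 + (changePos q (A * p ^ n)).card : ℝ)
        ≤ C * (N : ℝ) ^ ((4 : ℝ) / 5) := by
  obtain ⟨C, hC, hmain⟩ := harmonic_bound hq hp hpq
  refine ⟨2 * C, by positivity, ?_⟩
  intro A hA N
  have hA' : (A : ℤ) * ((q - 1 : ℕ) : ℤ) ≠ 0 := by
    have h1 : A ≠ 0 := by omega
    have h2 : q - 1 ≠ 0 := by omega
    exact mul_ne_zero (by exact_mod_cast h1) (by exact_mod_cast h2)
  have h1 := hmain _ hA' N
  calc ∑ n ∈ Finset.range N, 1 / (1 + (changePos q (A * p ^ n)).card : ℝ)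
      ≤ ∑ n ∈ Finset.range N, 2 * (1 / (farN p q ((A : ℤ) * ((q - 1 : ℕ) : ℤ)) 0 n : ℝ)) := by
        apply Finset.sum_le_sum
        intro n _
        have h2 := farN_pos hq hp hA' n
        have h3 : farN p q ((A : ℤ) * ((q - 1 : ℕ) : ℤ)) 0 n
            ≤ 2 + (changePos q (A * p ^ n)).card := by
          unfold farN
          have := far_le_changes hq (A * p ^ n)
          have e : (p : ℤ) ^ n * ((A : ℤ) * ((q - 1 : ℕ) : ℤ))
              = ((A * p ^ n : ℕ) : ℤ) * ((q - 1 : ℕ) : ℤ) := by push_cast; ring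
          rw [e]
          exact this
        have h4 : (farN p q ((A : ℤ) * ((q - 1 : ℕ) : ℤ)) 0 n : ℝ)
            ≤ 2 + (changePos q (A * p ^ n)).card := by exact_mod_cast h3
        have h5 : (0 : ℝ) ≤ (changePos q (A * p ^ n)).card := Nat.cast_nonneg _
        rw [mul_one_div, div_le_div_iff₀ (by positivity) h2]
        linarith
    _ = 2 * ∑ n ∈ Finset.range N, 1 / (farN p q ((A : ℤ) * ((q - 1 : ℕ) : ℤ)) 0 n : ℝ) := by
        rw [Finset.mul_sum]
    _ ≤ 2 * (C * (N : ℝ) ^ ((4 : ℝ) / 5)) := by gcongr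
    _ = _ := by ring

/-- General version of `far_le_blocks`. -/
theorem far_le_blocks_gen {p q : ℕ} (hp : 2 ≤ p) (hq : 2 ≤ q) (hpq : Nat.Coprime p q)
    {k w : ℕ} (hk : 1 ≤ k) (hw : w < q ^ k) :
    ∃ D K C : ℕ, 0 < D ∧ ∀ m : ℕ, 1 ≤ m → (farSet q 0 ((m : ℤ) * (D : ℤ))).card ≤
      C + (K + 1) * ∑ i ∈ Finset.range (K + 1), (blockPos q k w (m * p ^ i)).card := by
  classical
  have hq0 : (0 : ℝ) < q := by exact_mod_cast (by omega : 0 < q)
  set U : Set UnitAddCircle := (fun x : ℝ => (x : UnitAddCircle)) ''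
        Set.Ioo ((w : ℝ) / (q : ℝ) ^ k) (((w : ℝ) + 1) / (q : ℝ) ^ k) with hU
  have hUopen : IsOpen U := QuotientAddGroup.isOpenMap_coe _ isOpen_Ioo
  have hUne : U.Nonempty := by
    refine Set.Nonempty.image _ (Set.nonempty_Ioo.2 ?_)
    gcongr
    linarith
  obtain ⟨D, K, hD, hhit⟩ := exists_uniform_hit hp hq hpq hUopen hUne
    (show (0 : ℝ) < 1 / ((q : ℝ) + 1) by positivity)
  set B := (q + 1) * D with hB
  refine ⟨D, K, Nat.log q B + 2, hD, ?_⟩
  intro m hm
  -- the far levels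
  set T := Nat.log q m + 1 with hT
  have hsub : farSet q 0 ((m : ℤ) * (D : ℤ)) ⊆
      (Finset.Ico T (T + Nat.log q B + 2)) ∪
        (Finset.range (K + 1) ×ˢ Finset.range (K + 1)).biUnion (fun ij =>
          (blockPos q k w (m * p ^ ij.1)).image (fun e => e + ij.2 + k)) := by
    intro l hl
    rw [mem_farSet hq] at hl
    rw [Finset.mem_union]
    by_cases hlT : T ≤ l
    · left
      rw [Finset.mem_Ico]
      refine ⟨hlT, ?_⟩
      by_contra hlt
      push Not at hlt
      apply hl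
      apply near_of_log_lt hq
      have e1 : (q + 1) * ((m : ℤ) * (D : ℤ)).natAbs = B * m := by
        rw [Int.natAbs_mul, Int.natAbs_natCast, Int.natAbs_natCast]; ring
      rw [e1, Nat.add_zero]
      have h1 : B * m < q ^ (Nat.log q B + 1 + (Nat.log q m + 1)) := by
        rw [pow_add]
        exact Nat.mul_lt_mul'' (Nat.lt_pow_succ_log_self (by omega) B)
          (Nat.lt_pow_succ_log_self (by omega) _)
      have h2 := Nat.log_lt_of_lt_pow' (by omega) h1
      omega
    · right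
      push Not at hlT
      set y : UnitAddCircle := (((m : ℝ) / (q : ℝ) ^ l : ℝ) : UnitAddCircle) with hy
      have h1 : 1 / ((q : ℝ) + 1) ≤ ‖D • y‖ := by
        have := norm_of_not_near hq hl
        rw [hy, circle_nsmul_coe]
        have e : (D : ℝ) * ((m : ℝ) / (q : ℝ) ^ l)
            = (((m : ℤ) * (D : ℤ) : ℤ) : ℝ) / (q : ℝ) ^ l := by
          push_cast; ring
        rw [e]
        exact this
      obtain ⟨i, hi, j, hj, hij⟩ := hhit y h1
      have h2 : (p ^ i * q ^ j) • y =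
          ((((q ^ j : ℕ) : ℝ) * (((m * p ^ i : ℕ) : ℝ) / (q : ℝ) ^ l) : ℝ) : UnitAddCircle) := by
        rw [hy, circle_nsmul_coe]
        congr 1
        push_cast
        ring
      rw [h2] at hij
      obtain ⟨e, he, hew⟩ := block_of_hit hq hw hij
      rw [Finset.mem_biUnion]
      refine ⟨(i, j), Finset.mem_product.2
        ⟨Finset.mem_range.2 (by omega), Finset.mem_range.2 (by omega)⟩, ?_⟩
      rw [Finset.mem_image]
      refine ⟨e, ?_, he.symm⟩
      unfold blockPos
      have hlen : (Nat.digits q (m * p ^ i)).length = Nat.log q (m * p ^ i) + 1 :=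
        Nat.length_digits q _ (by omega) (by positivity)
      have hmono : Nat.log q m ≤ Nat.log q (m * p ^ i) :=
        Nat.log_mono_right (Nat.le_mul_of_pos_right m (by positivity))
      rw [Finset.mem_filter, Finset.mem_range, hlen]
      exact ⟨by omega, by omega, hew⟩
  refine (Finset.card_le_card hsub).trans ?_
  refine (Finset.card_union_le _ _).trans ?_
  have h1 : (Finset.Ico T (T + Nat.log q B + 2)).card = Nat.log q B + 2 := by
    rw [Nat.card_Ico]; omega
  rw [h1]
  apply Nat.add_le_add_left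
  refine Finset.card_biUnion_le.trans ?_
  rw [Finset.sum_product, Finset.mul_sum]
  apply Finset.sum_le_sum
  intro i _
  calc ∑ j ∈ Finset.range (K + 1), ((blockPos q k w (m * p ^ i)).image (fun e => e + j + k)).card
      ≤ ∑ j ∈ Finset.range (K + 1), (blockPos q k w (m * p ^ i)).card :=
        Finset.sum_le_sum (fun j _ => Finset.card_image_le)
    _ = (K + 1) * (blockPos q k w (m * p ^ i)).card := by
        rw [Finset.sum_const, Finset.card_range, smul_eq_mul]

/-- Harmonic bound for block occurrences in windows of bounded length. -/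
theorem blocks_harmonic {p q : ℕ} (hp : 2 ≤ p) (hq : 2 ≤ q) (hpq : Nat.Coprime p q)
    {k w : ℕ} (hk : 1 ≤ k) (hw : w < q ^ k) :
    ∃ K : ℕ, ∃ C : ℝ, 0 < C ∧ ∀ A : ℕ, 1 ≤ A → ∀ N : ℕ,
      ∑ n ∈ Finset.range N,
        1 / (1 + ∑ i ∈ Finset.range (K + 1), ((blockPos q k w (A * p ^ (n + i))).card : ℝ))
        ≤ C * (N : ℝ) ^ ((4 : ℝ) / 5) := by
  obtain ⟨C, hC, hmain⟩ := harmonic_bound hq hp hpq
  obtain ⟨D, K, C', hD, hfar⟩ := far_le_blocks_gen hp hq hpq hk hw
  have hCK : (0 : ℝ) < (C' : ℝ) + K + 1 := by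
    have h1 := Nat.cast_nonneg (α := ℝ) C'
    have h2 := Nat.cast_nonneg (α := ℝ) K
    linarith
  refine ⟨K, (C' + K + 1) * C, mul_pos hCK hC, ?_⟩
  intro A hA N
  have hA' : (A : ℤ) * (D : ℤ) ≠ 0 := by
    have h1 : A ≠ 0 := by omega
    exact mul_ne_zero (by exact_mod_cast h1) (by exact_mod_cast hD.ne')
  have h1 := hmain _ hA' N
  calc ∑ n ∈ Finset.range N,
        1 / (1 + ∑ i ∈ Finset.range (K + 1), ((blockPos q k w (A * p ^ (n + i))).card : ℝ))
      ≤ ∑ n ∈ Finset.range N, ((C' : ℝ) + K + 1) * (1 / (farN p q ((A : ℤ) * (D : ℤ)) 0 n : ℝ)) := by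
        apply Finset.sum_le_sum
        intro n _
        have h2 := farN_pos hq hp hA' n
        have h3 : farN p q ((A : ℤ) * (D : ℤ)) 0 n
            ≤ C' + (K + 1) * ∑ i ∈ Finset.range (K + 1),
              (blockPos q k w (A * p ^ (n + i))).card := by
          unfold farN
          have := hfar (A * p ^ n) (Nat.mul_pos (by omega) (by positivity))
          have e : (p : ℤ) ^ n * ((A : ℤ) * (D : ℤ))
              = ((A * p ^ n : ℕ) : ℤ) * (D : ℤ) := by push_cast; ring
          rw [e]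
          simp only [pow_add, ← mul_assoc]
          exact this
        set S : ℝ := ∑ i ∈ Finset.range (K + 1),
          ((blockPos q k w (A * p ^ (n + i))).card : ℝ) with hS
        have hS0 : 0 ≤ S := Finset.sum_nonneg (fun _ _ => Nat.cast_nonneg _)
        have h4 : (farN p q ((A : ℤ) * (D : ℤ)) 0 n : ℝ) ≤ C' + (K + 1) * S := by
          rw [hS]
          exact_mod_cast h3
        have h5 : (farN p q ((A : ℤ) * (D : ℤ)) 0 n : ℝ) ≤ (C' + K + 1) * (1 + S) := by
          have h6 : 0 ≤ (C' : ℝ) * S := mul_nonneg (Nat.cast_nonneg _) hS0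
          have h7 := Nat.cast_nonneg (α := ℝ) K
          have h8 : ((C' : ℝ) + K + 1) * (1 + S) = C' + (K + 1) * S + (K + 1) + C' * S := by ring
          rw [h8]
          linarith
        rw [mul_one_div, div_le_div_iff₀ (by linarith) h2]
        linarith
    _ = ((C' : ℝ) + K + 1) * ∑ n ∈ Finset.range N, 1 / (farN p q ((A : ℤ) * (D : ℤ)) 0 n : ℝ) := by
        rw [Finset.mul_sum]
    _ ≤ ((C' : ℝ) + K + 1) * (C * (N : ℝ) ^ ((4 : ℝ) / 5)) :=
        mul_le_mul_of_nonneg_left h1 hCK.le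
    _ = _ := by ring

end Pool.Agent.DigitPowers
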