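import Mathlib

/-!
# A Fejér-type counting bound on `ZMod n`

For a finite set `S` in `ZMod n`, a finite set `U` of units, an arbitrary shift `y c` for each
`c ∈ U` and an interval `[0, J)`, we bound the total number of `j < J` with `y c + c * j ∈ S`.
-/

set_option autoImplicit false

namespace Pool.Agent.DigitPowers

open Finset Complex

/-- Fejér lower bound: for `6 * (H - 1) * J ≤ n` and `j < J`, the sum of `ψ (t j)` over `t < H`
has absolute value at least `H / 2`. -/
theorem fejer_lower (n : ℕ) [NeZero n] (H J j : ℕ) (hJ : 6 * ((H - 1) * J) ≤ n) (hj : j < J) :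
    (H : ℝ) / 2 ≤ ‖∑ t ∈ range H, (ZMod.stdAddChar (N := n) ((t : ZMod n) * (j : ZMod n)))‖ := by
  have hn : (0 : ℝ) < n := by
    have := NeZero.pos n
    exact_mod_cast this
  have h1 : ∀ t ∈ range H, (1 : ℝ) / 2 ≤
      (ZMod.stdAddChar (N := n) ((t : ZMod n) * (j : ZMod n))).re := by
    intro t ht
    rw [mem_range] at ht
    have hcast : ((t : ZMod n) * (j : ZMod n)) = (((t * j : ℕ) : ℤ) : ZMod n) := by
      push_cast; ring
    rw [hcast, ZMod.stdAddChar_coe]
    have hexp : Complex.exp (2 * Real.pi * Complex.I * (((t * j : ℕ) : ℤ) : ℂ) / (n : ℂ)) =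
        Complex.exp (((2 * Real.pi * (t * j : ℕ) / n : ℝ) : ℂ) * Complex.I) := by
      congr 1
      push_cast
      ring
    rw [hexp, Complex.exp_ofReal_mul_I_re]
    have h0 : 0 ≤ 2 * Real.pi * (t * j : ℕ) / n := by positivity
    have hle : 2 * Real.pi * (t * j : ℕ) / n ≤ Real.pi / 3 := by
      rw [div_le_div_iff₀ hn (by norm_num)]
      have h2 : 6 * (t * j) ≤ n := by
        refine le_trans ?_ hJ
        have : t * j ≤ (H - 1) * J := Nat.mul_le_mul (by omega) (by omega)
        omega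
      have h3 : (6 : ℝ) * ((t * j : ℕ) : ℝ) ≤ n := by exact_mod_cast h2
      nlinarith [Real.pi_pos]
    calc (1 : ℝ) / 2 = Real.cos (Real.pi / 3) := by rw [Real.cos_pi_div_three]
      _ ≤ Real.cos (2 * Real.pi * (t * j : ℕ) / n) := by
        apply Real.cos_le_cos_of_nonneg_of_le_pi h0 _ hle
        linarith [Real.pi_pos]
  calc (H : ℝ) / 2 = ∑ t ∈ range H, (1 : ℝ) / 2 := by
        rw [sum_const, card_range]; simp; ring
    _ ≤ ∑ t ∈ range H, (ZMod.stdAddChar (N := n) ((t : ZMod n) * (j : ZMod n))).re :=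
        sum_le_sum h1
    _ = (∑ t ∈ range H, (ZMod.stdAddChar (N := n) ((t : ZMod n) * (j : ZMod n)))).re := by
        rw [Complex.re_sum]
    _ ≤ _ := Complex.re_le_norm _

/-- exponential sum over `S` at frequency `x`. -/
noncomputable def expSum (n : ℕ) [NeZero n] (S : Finset (ZMod n)) (x : ZMod n) : ℂ :=
  ∑ z ∈ S, ZMod.stdAddChar (N := n) (x * z)

theorem norm_stdAddChar (n : ℕ) [NeZero n] (x : ZMod n) :
    ‖ZMod.stdAddChar (N := n) x‖ = 1 := by
  rw [ZMod.stdAddChar_apply]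
  exact Circle.norm_coe _

theorem conj_stdAddChar (n : ℕ) [NeZero n] (x : ZMod n) :
    (starRingEnd ℂ) (ZMod.stdAddChar (N := n) x) = ZMod.stdAddChar (N := n) (-x) := by
  rw [AddChar.map_neg_eq_inv, ZMod.stdAddChar_apply]
  rw [← Circle.coe_inv_eq_conj]
  simp

theorem norm_expSum_zero (n : ℕ) [NeZero n] (S : Finset (ZMod n)) :
    ‖expSum n S 0‖ = S.card := by
  simp [expSum]

/-- Expansion of the Fejér square. -/
theorem fejer_sq_expand (n : ℕ) [NeZero n] (S : Finset (ZMod n)) (H : ℕ) (a y : ZMod n) :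
    ∑ z ∈ S, ‖∑ t ∈ range H, ZMod.stdAddChar (N := n) ((t : ZMod n) * (a * (z - y)))‖ ^ 2 ≤
      ∑ t ∈ range H, ∑ t' ∈ range H, ‖expSum n S (((t : ZMod n) - (t' : ZMod n)) * a)‖ := by
  have key : (((∑ z ∈ S, ‖∑ t ∈ range H,
      ZMod.stdAddChar (N := n) ((t : ZMod n) * (a * (z - y)))‖ ^ 2 : ℝ)) : ℂ) =
      ∑ t ∈ range H, ∑ t' ∈ range H,
        ZMod.stdAddChar (N := n) (-((((t : ZMod n) - (t' : ZMod n)) * a) * y)) *
          expSum n S (((t : ZMod n) - (t' : ZMod n)) * a) := by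
    push_cast
    have h1 : ∀ z ∈ S, ((‖∑ t ∈ range H,
        ZMod.stdAddChar (N := n) ((t : ZMod n) * (a * (z - y)))‖ : ℂ)) ^ 2 =
        ∑ t ∈ range H, ∑ t' ∈ range H,
          ZMod.stdAddChar (N := n) ((((t : ZMod n) - (t' : ZMod n)) * a) * (z - y)) := by
      intro z _
      rw [← Complex.mul_conj', map_sum, sum_mul_sum]
      refine sum_congr rfl fun t _ => sum_congr rfl fun t' _ => ?_
      rw [conj_stdAddChar, ← AddChar.map_add_eq_mul]
      congr 1
      ring
    rw [sum_congr rfl h1, sum_comm]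
    refine sum_congr rfl fun t _ => ?_
    rw [sum_comm]
    refine sum_congr rfl fun t' _ => ?_
    rw [expSum, mul_sum]
    refine sum_congr rfl fun z _ => ?_
    rw [← AddChar.map_add_eq_mul]
    congr 1
    ring
  have hnonneg : 0 ≤ ∑ z ∈ S, ‖∑ t ∈ range H,
      ZMod.stdAddChar (N := n) ((t : ZMod n) * (a * (z - y)))‖ ^ 2 :=
    sum_nonneg fun _ _ => by positivity
  have h2 : (∑ z ∈ S, ‖∑ t ∈ range H,
      ZMod.stdAddChar (N := n) ((t : ZMod n) * (a * (z - y)))‖ ^ 2) =
      ‖(((∑ z ∈ S, ‖∑ t ∈ range H,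
      ZMod.stdAddChar (N := n) ((t : ZMod n) * (a * (z - y)))‖ ^ 2 : ℝ)) : ℂ)‖ := by
    rw [Complex.norm_real, Real.norm_of_nonneg hnonneg]
  rw [h2, key]
  refine (norm_sum_le _ _).trans (sum_le_sum fun t _ => ?_)
  refine (norm_sum_le _ _).trans (sum_le_sum fun t' _ => ?_)
  rw [norm_mul, norm_stdAddChar, one_mul]

/-- second moment: `∑_a |Ŝ(h a)|² = n · #{(z,z') : h (z - z') = 0}`. -/
theorem expSum_second_moment (n : ℕ) [NeZero n] (S : Finset (ZMod n)) (h : ZMod n) :
    ∑ a : ZMod n, ‖expSum n S (h * a)‖ ^ 2 =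
      n * (((S ×ˢ S).filter (fun p => h * (p.1 - p.2) = 0)).card : ℝ) := by
  have key : ((∑ a : ZMod n, ‖expSum n S (h * a)‖ ^ 2 : ℝ) : ℂ) =
      (((n * (((S ×ˢ S).filter (fun p => h * (p.1 - p.2) = 0)).card : ℝ)) : ℝ) : ℂ) := by
    push_cast
    have h1 : ∀ a : ZMod n, ((‖expSum n S (h * a)‖ : ℂ)) ^ 2 =
        ∑ p ∈ S ×ˢ S, ZMod.stdAddChar (N := n) (a * (h * (p.1 - p.2))) := by
      intro a
      rw [← Complex.mul_conj', expSum, map_sum, sum_mul_sum, sum_product]
      refine sum_congr rfl fun z _ => sum_congr rfl fun z' _ => ?_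
      rw [conj_stdAddChar, ← AddChar.map_add_eq_mul]
      congr 1
      ring
    rw [sum_congr rfl (fun a _ => h1 a), sum_comm]
    have h2 : ∀ p ∈ S ×ˢ S, ∑ a : ZMod n, ZMod.stdAddChar (N := n) (a * (h * (p.1 - p.2))) =
        if h * (p.1 - p.2) = 0 then (n : ℂ) else 0 := by
      intro p _
      rw [AddChar.sum_mulShift _ (ZMod.isPrimitive_stdAddChar n)]
      split_ifs <;> simp [ZMod.card]
    rw [sum_congr rfl h2, ← sum_filter, sum_const, nsmul_eq_mul, mul_comm]
  exact_mod_cast key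

/-- number of `x` with `h x = 0` in `ZMod n` is at most `gcd`. -/
theorem card_kernel_le (n : ℕ) [NeZero n] (h : ℕ) :
    ((univ : Finset (ZMod n)).filter (fun x => (h : ZMod n) * x = 0)).card ≤ Nat.gcd h n := by
  classical
  have hn : 0 < n := NeZero.pos n
  set g := Nat.gcd h n with hg
  have hgpos : 0 < g := Nat.gcd_pos_of_pos_right _ hn
  obtain ⟨m, hm⟩ : g ∣ n := Nat.gcd_dvd_right h n
  have hmpos : 0 < m := by
    rcases Nat.eq_zero_or_pos m with h0 | h0
    · subst h0; simp at hm; omega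
    · exact h0
  -- each solution is a multiple of m
  have hsub : ((univ : Finset (ZMod n)).filter (fun x => (h : ZMod n) * x = 0)) ⊆
      (range g).image (fun i => ((m * i : ℕ) : ZMod n)) := by
    intro x hx
    rw [mem_filter] at hx
    have hx2 := hx.2
    have hxv : ((x.val : ℕ) : ZMod n) = x := ZMod.natCast_zmod_val x
    have hdvd : n ∣ h * x.val := by
      rw [← ZMod.natCast_eq_zero_iff]
      push_cast
      rw [hxv]
      exact hx2
    have hmd : m ∣ x.val := by
      have h1 : g * m ∣ h * x.val := by rw [← hm]; exact hdvd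
      obtain ⟨h', hh'⟩ : g ∣ h := Nat.gcd_dvd_left h n
      have h2 : m ∣ h' * x.val := by
        have : g * m ∣ g * (h' * x.val) := by
          rw [← mul_assoc, ← hh']; exact h1
        exact Nat.dvd_of_mul_dvd_mul_left hgpos this
      have hcop : Nat.Coprime m h' := by
        have h3 : Nat.gcd h n / g = 1 := Nat.div_self hgpos
        have h4 : Nat.gcd (h / g) (n / g) = 1 := by
          rw [Nat.gcd_div (Nat.gcd_dvd_left h n) (Nat.gcd_dvd_right h n)]
          exact h3
        have h5 : h / g = h' := by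
          rw [hh']; exact Nat.mul_div_cancel_left _ hgpos
        have h6 : n / g = m := by
          rw [hm]; exact Nat.mul_div_cancel_left _ hgpos
        rw [h5, h6] at h4
        exact (Nat.coprime_comm.mp h4)
      exact hcop.dvd_of_dvd_mul_left h2
    obtain ⟨i, hi⟩ := hmd
    rw [mem_image]
    refine ⟨i, ?_, ?_⟩
    · rw [mem_range]
      have : x.val < n := ZMod.val_lt x
      rw [hi, hm] at this
      nlinarith
    · rw [← hi, hxv]
  calc _ ≤ ((range g).image (fun i => ((m * i : ℕ) : ZMod n))).card := card_le_card hsub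
    _ ≤ (range g).card := card_image_le
    _ = g := card_range g

theorem card_pairs_le (n : ℕ) [NeZero n] (S : Finset (ZMod n)) (h : ℕ) :
    ((S ×ˢ S).filter (fun p => (h : ZMod n) * (p.1 - p.2) = 0)).card ≤ S.card * Nat.gcd h n := by
  classical
  have : ((S ×ˢ S).filter (fun p => (h : ZMod n) * (p.1 - p.2) = 0)) ⊆
      (S ×ˢ ((univ : Finset (ZMod n)).filter (fun x => (h : ZMod n) * x = 0))).image
        (fun p => (p.1, p.1 - p.2)) := by
    intro p hp
    rw [mem_filter, mem_product] at hp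
    rw [mem_image]
    refine ⟨(p.1, p.1 - p.2), ?_, ?_⟩
    · rw [mem_product]
      exact ⟨hp.1.1, by simpa using hp.2⟩
    · ext <;> simp
  calc _ ≤ _ := card_le_card this
    _ ≤ (S ×ˢ ((univ : Finset (ZMod n)).filter (fun x => (h : ZMod n) * x = 0))).card :=
        card_image_le
    _ = S.card * ((univ : Finset (ZMod n)).filter (fun x => (h : ZMod n) * x = 0)).card :=
        card_product _ _
    _ ≤ _ := Nat.mul_le_mul_left _ (card_kernel_le n h)

theorem expSum_second_moment_le (n : ℕ) [NeZero n] (S : Finset (ZMod n)) (h : ℕ) :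
    ∑ a : ZMod n, ‖expSum n S ((h : ZMod n) * a)‖ ^ 2 ≤ n * (S.card * Nat.gcd h n) := by
  rw [expSum_second_moment]
  have := card_pairs_le n S h
  have h2 : ((((S ×ˢ S).filter (fun p => (h : ZMod n) * (p.1 - p.2) = 0)).card : ℕ) : ℝ) ≤
      ((S.card * Nat.gcd h n : ℕ) : ℝ) := by exact_mod_cast this
  push_cast at h2
  exact mul_le_mul_of_nonneg_left h2 (Nat.cast_nonneg n)

theorem norm_expSum_neg (n : ℕ) [NeZero n] (S : Finset (ZMod n)) (x : ZMod n) :
    ‖expSum n S (-x)‖ = ‖expSum n S x‖ := by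
  have : expSum n S (-x) = (starRingEnd ℂ) (expSum n S x) := by
    rw [expSum, expSum, map_sum]
    refine sum_congr rfl fun z _ => ?_
    rw [conj_stdAddChar]
    congr 1
    ring
  rw [this, Complex.norm_conj]

/-- For an indexed family `u i` of distinct units, first moment of `|Ŝ(h (u i)⁻¹)|`. -/
theorem sum_units_le {ι : Type*} (n : ℕ) [NeZero n] (S : Finset (ZMod n)) (U : Finset ι)
    (u : ι → (ZMod n)ˣ) (hu : Set.InjOn u (U : Set ι)) (h : ℕ) :
    ∑ c ∈ U, ‖expSum n S ((h : ZMod n) * (((u c)⁻¹ : (ZMod n)ˣ) : ZMod n))‖ ≤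
      Real.sqrt U.card * Real.sqrt (n * (S.card * Nat.gcd h n)) := by
  have h1 : (∑ c ∈ U, ‖expSum n S ((h : ZMod n) * (((u c)⁻¹ : (ZMod n)ˣ) : ZMod n))‖) ^ 2 ≤
      U.card * (n * (S.card * Nat.gcd h n)) := by
    calc (∑ c ∈ U, ‖expSum n S ((h : ZMod n) * (((u c)⁻¹ : (ZMod n)ˣ) : ZMod n))‖) ^ 2
        ≤ U.card * ∑ c ∈ U, ‖expSum n S ((h : ZMod n) * (((u c)⁻¹ : (ZMod n)ˣ) : ZMod n))‖ ^ 2 :=
          sq_sum_le_card_mul_sum_sq
      _ ≤ U.card * ∑ a : ZMod n, ‖expSum n S ((h : ZMod n) * a)‖ ^ 2 := by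
          refine mul_le_mul_of_nonneg_left ?_ (Nat.cast_nonneg _)
          have hinj : Set.InjOn (fun c : ι => (((u c)⁻¹ : (ZMod n)ˣ) : ZMod n)) (U : Set ι) := by
            intro a ha b hb hab
            have : (u a)⁻¹ = (u b)⁻¹ := Units.ext hab
            exact hu ha hb (inv_injective this)
          have := sum_image (f := fun a : ZMod n => ‖expSum n S ((h : ZMod n) * a)‖ ^ 2) hinj
          rw [← this]
          refine sum_le_sum_of_subset_of_nonneg (subset_univ _) (fun _ _ _ => by positivity)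
      _ ≤ U.card * (n * (S.card * Nat.gcd h n)) :=
          mul_le_mul_of_nonneg_left (expSum_second_moment_le n S h) (Nat.cast_nonneg _)
  rw [← Real.sqrt_mul (Nat.cast_nonneg _)]
  exact Real.le_sqrt_of_sq_le h1


theorem sum_dist_le (g : ℕ → ℝ) (hg : ∀ h, 0 ≤ g h) (H t : ℕ) (ht : t < H) :
    ∑ t' ∈ range H, g (if t' ≤ t then t - t' else t' - t) ≤ g 0 + 2 * ∑ h ∈ Ico 1 H, g h := by
  have hsplit : range H = range (t + 1) ∪ Ico (t + 1) H := by
    ext x
    simp only [mem_range, mem_union, mem_Ico]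
    omega
  have hdisj : Disjoint (range (t + 1)) (Ico (t + 1) H) := by
    rw [disjoint_left]
    intro x hx hx'
    rw [mem_range] at hx
    rw [mem_Ico] at hx'
    omega
  rw [hsplit, sum_union hdisj]
  have h1 : ∑ t' ∈ range (t + 1), g (if t' ≤ t then t - t' else t' - t) ≤
      g 0 + ∑ h ∈ Ico 1 H, g h := by
    have e1 : ∑ t' ∈ range (t + 1), g (if t' ≤ t then t - t' else t' - t) =
        ∑ t' ∈ range (t + 1), g (t + 1 - 1 - t') := by
      refine sum_congr rfl fun x hx => ?_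
      rw [mem_range] at hx
      rw [if_pos (by omega)]
      rfl
    rw [e1, sum_range_reflect g (t + 1)]
    have e2 : ∑ h ∈ range (t + 1), g h ≤ ∑ h ∈ range H, g h :=
      sum_le_sum_of_subset_of_nonneg (range_subset_range.mpr (by omega)) (fun _ _ _ => hg _)
    refine e2.trans ?_
    rw [range_eq_Ico, sum_eq_sum_Ico_succ_bot (by omega)]
  have h2 : ∑ t' ∈ Ico (t + 1) H, g (if t' ≤ t then t - t' else t' - t) ≤
      ∑ h ∈ Ico 1 H, g h := by
    have e1 : ∑ t' ∈ Ico (t + 1) H, g (if t' ≤ t then t - t' else t' - t) =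
        ∑ h ∈ Ico 1 (H - t), g h := by
      have := sum_Ico_add' (fun x => g (x - t)) 1 (H - t) t
      have e3 : H - t + t = H := by omega
      rw [e3, add_comm 1 t] at this
      rw [← (show (∑ x ∈ Ico 1 (H - t), g (x + t - t)) = ∑ h ∈ Ico 1 (H - t), g h from
        sum_congr rfl fun x _ => by simp), this]
      refine sum_congr rfl fun x hx => ?_
      rw [mem_Ico] at hx
      rw [if_neg (by omega)]
    rw [e1]
    exact sum_le_sum_of_subset_of_nonneg (Ico_subset_Ico_right (by omega)) (fun _ _ _ => hg _)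
  linarith

/-- the main counting inequality in `ZMod n`. -/
theorem count_le {ι : Type*} (n : ℕ) [NeZero n] (S : Finset (ZMod n)) (U : Finset ι)
    (u : ι → (ZMod n)ˣ) (hu : Set.InjOn u (U : Set ι)) (y : ι → ZMod n) (H J : ℕ) (hH : 0 < H) (hJn : J ≤ n) (hJ : 6 * ((H - 1) * J) ≤ n)
    (G : ℝ) (hG : ∑ h ∈ Ico 1 H, Real.sqrt (Nat.gcd h n) ≤ G * H) :
    (∑ c ∈ U, (((range J).filter (fun j : ℕ => y c + (u c : ZMod n) * (j : ZMod n) ∈ S)).card : ℝ)) ≤
      4 / H * (U.card * S.card) + 8 * G * (Real.sqrt U.card * Real.sqrt (n * S.card)) := by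
  classical
  have hHpos : (0 : ℝ) < H := by exact_mod_cast hH
  -- per `c` bound
  have hc : ∀ c ∈ U, (((range J).filter (fun j : ℕ => y c + (u c : ZMod n) * (j : ZMod n) ∈ S)).card : ℝ) *
      ((H : ℝ) ^ 2 / 4) ≤ ∑ t ∈ range H, ∑ t' ∈ range H,
        ‖expSum n S (((t : ZMod n) - (t' : ZMod n)) * (((u c)⁻¹ : (ZMod n)ˣ) : ZMod n))‖ := by
    intro c _
    refine le_trans ?_ (fejer_sq_expand n S H (((u c)⁻¹ : (ZMod n)ˣ) : ZMod n) (y c))
    set T := (range J).filter (fun j : ℕ => y c + (u c : ZMod n) * (j : ZMod n) ∈ S) with hT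
    have hinj : Set.InjOn (fun j : ℕ => y c + (u c : ZMod n) * (j : ZMod n)) (T : Set ℕ) := by
      intro a ha b hb hab
      have ha' : a < J := by
        have := ha
        rw [hT, mem_coe, mem_filter, mem_range] at this
        exact this.1
      have hb' : b < J := by
        have := hb
        rw [hT, mem_coe, mem_filter, mem_range] at this
        exact this.1
      have h1 : (u c : ZMod n) * (a : ZMod n) = (u c : ZMod n) * (b : ZMod n) := add_left_cancel hab
      have h2 : (a : ZMod n) = (b : ZMod n) := by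
        have := congrArg (fun x => (((u c)⁻¹ : (ZMod n)ˣ) : ZMod n) * x) h1
        simpa [← mul_assoc] using this
      rw [ZMod.natCast_eq_natCast_iff'] at h2
      rwa [Nat.mod_eq_of_lt (by omega), Nat.mod_eq_of_lt (by omega)] at h2
    have hsub : T.image (fun j : ℕ => y c + (u c : ZMod n) * (j : ZMod n)) ⊆ S := by
      intro x hx
      rw [mem_image] at hx
      obtain ⟨j, hj, rfl⟩ := hx
      rw [hT, mem_filter] at hj
      exact hj.2
    calc (T.card : ℝ) * ((H : ℝ) ^ 2 / 4) = ∑ j ∈ T, ((H : ℝ) / 2) ^ 2 := by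
          rw [sum_const, nsmul_eq_mul]; ring
      _ ≤ ∑ j ∈ T, ‖∑ t ∈ range H, ZMod.stdAddChar (N := n)
            ((t : ZMod n) * ((((u c)⁻¹ : (ZMod n)ˣ) : ZMod n) *
              ((y c + (u c : ZMod n) * (j : ZMod n)) - y c)))‖ ^ 2 := by
          refine sum_le_sum fun j hj => ?_
          have hj' : j < J := by
            rw [hT, mem_filter, mem_range] at hj
            exact hj.1
          have e1 : (((u c)⁻¹ : (ZMod n)ˣ) : ZMod n) *
              ((y c + (u c : ZMod n) * (j : ZMod n)) - y c) = (j : ZMod n) := by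
            rw [add_sub_cancel_left, ← mul_assoc, Units.inv_mul, one_mul]
          rw [e1]
          exact pow_le_pow_left₀ (by positivity) (fejer_lower n H J j hJ hj') 2
      _ = ∑ z ∈ T.image (fun j : ℕ => y c + (u c : ZMod n) * (j : ZMod n)),
            ‖∑ t ∈ range H, ZMod.stdAddChar (N := n)
            ((t : ZMod n) * ((((u c)⁻¹ : (ZMod n)ˣ) : ZMod n) * (z - y c)))‖ ^ 2 := by
          rw [sum_image hinj]
      _ ≤ _ := sum_le_sum_of_subset_of_nonneg hsub (fun _ _ _ => by positivity)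
  -- fold the double sum
  have hfold : ∀ c ∈ U, ∑ t ∈ range H, ∑ t' ∈ range H,
        ‖expSum n S (((t : ZMod n) - (t' : ZMod n)) * (((u c)⁻¹ : (ZMod n)ˣ) : ZMod n))‖ ≤
      H * (S.card + 2 * ∑ h ∈ Ico 1 H,
        ‖expSum n S ((h : ZMod n) * (((u c)⁻¹ : (ZMod n)ˣ) : ZMod n))‖) := by
    intro c _
    have : ∀ t ∈ range H, ∑ t' ∈ range H,
        ‖expSum n S (((t : ZMod n) - (t' : ZMod n)) * (((u c)⁻¹ : (ZMod n)ˣ) : ZMod n))‖ ≤
        S.card + 2 * ∑ h ∈ Ico 1 H,
        ‖expSum n S ((h : ZMod n) * (((u c)⁻¹ : (ZMod n)ˣ) : ZMod n))‖ := by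
      intro t ht
      rw [mem_range] at ht
      have h1 := sum_dist_le
        (fun h => ‖expSum n S ((h : ZMod n) * (((u c)⁻¹ : (ZMod n)ˣ) : ZMod n))‖)
        (fun _ => norm_nonneg _) H t ht
      refine le_trans (le_of_eq ?_) (le_trans h1 (le_of_eq ?_))
      · refine sum_congr rfl fun t' ht' => ?_
        by_cases hle : t' ≤ t
        · rw [if_pos hle, Nat.cast_sub hle]
        · rw [if_neg hle, Nat.cast_sub (by omega), ← norm_expSum_neg]
          congr 2
          ring
      · simp [norm_expSum_zero]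
    calc _ ≤ ∑ t ∈ range H, ((S.card : ℝ) + 2 * ∑ h ∈ Ico 1 H,
        ‖expSum n S ((h : ZMod n) * (((u c)⁻¹ : (ZMod n)ˣ) : ZMod n))‖) := sum_le_sum this
      _ = _ := by rw [sum_const, card_range, nsmul_eq_mul]
  -- sum over c
  have htot : (∑ c ∈ U, (((range J).filter (fun j : ℕ => y c + (u c : ZMod n) * (j : ZMod n) ∈ S)).card : ℝ)) *
      ((H : ℝ) ^ 2 / 4) ≤ H * (U.card * S.card) + 2 * H * ∑ h ∈ Ico 1 H,
        (Real.sqrt U.card * Real.sqrt (n * (S.card * Nat.gcd h n))) := by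
    rw [sum_mul]
    calc _ ≤ ∑ c ∈ U, (H * ((S.card : ℝ) + 2 * ∑ h ∈ Ico 1 H,
        ‖expSum n S ((h : ZMod n) * (((u c)⁻¹ : (ZMod n)ˣ) : ZMod n))‖)) :=
          sum_le_sum fun c hcU => (hc c hcU).trans (hfold c hcU)
      _ = H * (U.card * S.card) + 2 * H * ∑ h ∈ Ico 1 H, ∑ c ∈ U,
        ‖expSum n S ((h : ZMod n) * (((u c)⁻¹ : (ZMod n)ˣ) : ZMod n))‖ := by
          rw [← mul_sum, sum_add_distrib, sum_const, nsmul_eq_mul, ← mul_sum, sum_comm]
          ring
      _ ≤ _ := by
          gcongr with h hh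
          exact sum_units_le n S U u hu h
  have hsq : ∑ h ∈ Ico 1 H, (Real.sqrt U.card * Real.sqrt (n * (S.card * Nat.gcd h n))) ≤
      (Real.sqrt U.card * Real.sqrt (n * S.card)) * (G * H) := by
    calc _ = ∑ h ∈ Ico 1 H, (Real.sqrt U.card * Real.sqrt (n * S.card)) * Real.sqrt (Nat.gcd h n) := by
          refine sum_congr rfl fun h _ => ?_
          rw [← mul_assoc (n : ℝ), Real.sqrt_mul (by positivity)]
          ring
      _ = (Real.sqrt U.card * Real.sqrt (n * S.card)) * ∑ h ∈ Ico 1 H, Real.sqrt (Nat.gcd h n) := by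
          rw [mul_sum]
      _ ≤ _ := mul_le_mul_of_nonneg_left hG (by positivity)
  have hfin : (∑ c ∈ U, (((range J).filter (fun j : ℕ => y c + (u c : ZMod n) * (j : ZMod n) ∈ S)).card : ℝ)) *
      ((H : ℝ) ^ 2 / 4) ≤ (4 / H * (U.card * S.card) +
        8 * G * (Real.sqrt U.card * Real.sqrt (n * S.card))) * ((H : ℝ) ^ 2 / 4) := by
    refine htot.trans ?_
    have : 2 * (H : ℝ) * ∑ h ∈ Ico 1 H,
        (Real.sqrt U.card * Real.sqrt (n * (S.card * Nat.gcd h n))) ≤
        2 * H * ((Real.sqrt U.card * Real.sqrt (n * S.card)) * (G * H)) :=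
      mul_le_mul_of_nonneg_left hsq (by positivity)
    have h3 : (H : ℝ) * (U.card * S.card) + 2 * H * ∑ h ∈ Ico 1 H,
        (Real.sqrt U.card * Real.sqrt (n * (S.card * Nat.gcd h n))) ≤
        H * (U.card * S.card) +
        2 * H * ((Real.sqrt U.card * Real.sqrt (n * S.card)) * (G * H)) := by linarith
    refine h3.trans (le_of_eq ?_)
    field_simp
    ring
  exact le_of_mul_le_mul_right hfin (by positivity)

/-- `∑_{1 ≤ h < H} √gcd(h, q^r) ≤ 4 H` for `q ≥ 3`. -/
theorem sum_sqrt_gcd_le (q r H : ℕ) (hqp : q.Prime) (hq : 3 ≤ q) :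
    ∑ h ∈ Ico 1 H, Real.sqrt (Nat.gcd h (q ^ r)) ≤ 4 * H := by
  have hq0 : (0 : ℝ) < q := by exact_mod_cast hqp.pos
  have h1 : ∀ h ∈ Ico 1 H, Real.sqrt (Nat.gcd h (q ^ r)) ≤
      ∑ i ∈ range (r + 1), (if q ^ i ∣ h then Real.sqrt ((q : ℝ) ^ i) else 0) := by
    intro h _
    obtain ⟨v, hv, hv'⟩ := (Nat.dvd_prime_pow hqp).mp (Nat.gcd_dvd_right h (q ^ r))
    have hvd : q ^ v ∣ h := by
      rw [← hv']; exact Nat.gcd_dvd_left _ _
    rw [hv']
    push_cast
    have hmem : v ∈ range (r + 1) := by rw [mem_range]; omega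
    refine le_trans (le_of_eq ?_) (single_le_sum (f := fun i => (if q ^ i ∣ h then
      Real.sqrt ((q : ℝ) ^ i) else 0)) (fun i _ => ?_) hmem)
    · rw [if_pos hvd]
    · split_ifs <;> positivity
  calc ∑ h ∈ Ico 1 H, Real.sqrt (Nat.gcd h (q ^ r))
      ≤ ∑ h ∈ Ico 1 H, ∑ i ∈ range (r + 1),
          (if q ^ i ∣ h then Real.sqrt ((q : ℝ) ^ i) else 0) := sum_le_sum h1
    _ = ∑ i ∈ range (r + 1), ∑ h ∈ Ico 1 H,
          (if q ^ i ∣ h then Real.sqrt ((q : ℝ) ^ i) else 0) := sum_comm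
    _ ≤ ∑ i ∈ range (r + 1), H * (1 / Real.sqrt 3) ^ i := by
        refine sum_le_sum fun i _ => ?_
        rw [← sum_filter, sum_const, nsmul_eq_mul]
        have hcard : ((Ico 1 H).filter (fun h => q ^ i ∣ h)).card ≤ H / q ^ i := by
          have hsub : (Ico 1 H).filter (fun h => q ^ i ∣ h) ⊆
              (Ioc 0 H).filter (fun h => q ^ i ∣ h) := by
            intro x hx
            rw [mem_filter, mem_Ico] at hx
            rw [mem_filter, mem_Ioc]
            exact ⟨⟨by omega, by omega⟩, hx.2⟩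
          refine (card_le_card hsub).trans ?_
          rw [Nat.Ioc_filter_dvd_card_eq_div]
        have h2 : (((Ico 1 H).filter (fun h => q ^ i ∣ h)).card : ℝ) ≤ H / (q : ℝ) ^ i := by
          calc _ ≤ ((H / q ^ i : ℕ) : ℝ) := by exact_mod_cast hcard
            _ ≤ (H : ℝ) / ((q ^ i : ℕ) : ℝ) := Nat.cast_div_le
            _ = _ := by push_cast; ring
        calc (((Ico 1 H).filter (fun h => q ^ i ∣ h)).card : ℝ) * Real.sqrt ((q : ℝ) ^ i)
            ≤ (H / (q : ℝ) ^ i) * Real.sqrt ((q : ℝ) ^ i) :=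
              mul_le_mul_of_nonneg_right h2 (Real.sqrt_nonneg _)
          _ = H * (1 / Real.sqrt ((q : ℝ) ^ i)) := by
              have hpos : 0 < Real.sqrt ((q : ℝ) ^ i) := Real.sqrt_pos.mpr (by positivity)
              have hsq : Real.sqrt ((q : ℝ) ^ i) * Real.sqrt ((q : ℝ) ^ i) = (q : ℝ) ^ i :=
                Real.mul_self_sqrt (by positivity)
              field_simp
              nlinarith [hsq]
          _ ≤ H * (1 / Real.sqrt 3) ^ i := by
              refine mul_le_mul_of_nonneg_left ?_ (Nat.cast_nonneg _)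
              have h3 : Real.sqrt ((q : ℝ) ^ i) = (Real.sqrt q) ^ i := by
                rw [Real.sqrt_eq_iff_mul_self_eq (by positivity) (by positivity), ← mul_pow,
                  Real.mul_self_sqrt hq0.le]
              rw [h3, div_pow, one_pow]
              refine one_div_le_one_div_of_le (by positivity) ?_
              refine pow_le_pow_left₀ (Real.sqrt_nonneg _) ?_ i
              exact Real.sqrt_le_sqrt (by exact_mod_cast hq)
    _ = H * ∑ i ∈ range (r + 1), (1 / Real.sqrt 3) ^ i := by rw [mul_sum]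
    _ ≤ H * 4 := by
        refine mul_le_mul_of_nonneg_left ?_ (Nat.cast_nonneg _)
        have hs : (1.7 : ℝ) ≤ Real.sqrt 3 := by
          apply Real.le_sqrt_of_sq_le
          norm_num
        have h0 : 0 < Real.sqrt 3 := by linarith
        set x := 1 / Real.sqrt 3 with hx
        have hx0 : 0 ≤ x := by positivity
        have hx1 : x ≤ 10 / 17 := by
          rw [hx, div_le_div_iff₀ h0 (by norm_num)]
          linarith
        have hgeo : ∑ i ∈ range (r + 1), x ^ i * (1 - x) = 1 - x ^ (r + 1) := by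
          rw [← sum_mul]
          have := geom_sum_mul x (r + 1)
          linarith
        rw [← sum_mul] at hgeo
        have hxp : 0 ≤ x ^ (r + 1) := by positivity
        have hS : 0 ≤ ∑ i ∈ range (r + 1), x ^ i := sum_nonneg fun _ _ => by positivity
        nlinarith
    _ = 4 * H := by ring

end Pool.Agent.DigitPowers
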