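import Mathlib
import Pool.Agent.DigitPowers.Fejer

/-!
# `q`-adic linearisation of `p ^ n`
-/

set_option autoImplicit false

namespace Pool.Agent.DigitPowers

open Finset

/-- the `R` lowest base-`q` digits of `x` all lie in `D`. -/
def lowOK (D : Finset ℕ) (q R x : ℕ) : Prop := ∀ i < R, x / q ^ i % q ∈ D

instance (D : Finset ℕ) (q R x : ℕ) : Decidable (lowOK D q R x) := by
  unfold lowOK; infer_instance

theorem lowOK_mod (D : Finset ℕ) (q R x : ℕ) (hq : 0 < q) :
    lowOK D q R (x % q ^ R) ↔ lowOK D q R x := by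
  unfold lowOK
  refine forall_congr' fun i => forall_congr' fun hi => ?_
  have : x % q ^ R / q ^ i % q = x / q ^ i % q := by
    obtain ⟨k, rfl⟩ : ∃ k, R = i + (k + 1) := ⟨R - i - 1, by omega⟩
    rw [pow_add, Nat.mod_mul_right_div_self, pow_succ']
    exact Nat.mod_mul_right_mod _ _ _
  rw [this]

theorem lowOK_add (D : Finset ℕ) (q R R' x : ℕ) :
    lowOK D q (R + R') x ↔ lowOK D q R x ∧ lowOK D q R' (x / q ^ R) := by
  unfold lowOK
  constructor
  · intro h
    refine ⟨fun i hi => h i (by omega), fun i hi => ?_⟩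
    have := h (R + i) (by omega)
    rwa [pow_add, ← Nat.div_div_eq_div_mul] at this
  · rintro ⟨h1, h2⟩ i hi
    by_cases hiR : i < R
    · exact h1 i hiR
    · have := h2 (i - R) (by omega)
      rwa [Nat.div_div_eq_div_mul, ← pow_add, show R + (i - R) = i by omega] at this

/-- the set of residues mod `q^r` whose `r` digits lie in `D`. -/
noncomputable def digitRes (D : Finset ℕ) (q r : ℕ) [NeZero (q ^ r)] : Finset (ZMod (q ^ r)) :=
  (univ : Finset (ZMod (q ^ r))).filter (fun z => lowOK D q r z.val)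

theorem mem_digitRes_natCast (D : Finset ℕ) (q r x : ℕ) [NeZero (q ^ r)] (hq : 0 < q) :
    ((x : ℕ) : ZMod (q ^ r)) ∈ digitRes D q r ↔ lowOK D q r x := by
  unfold digitRes
  rw [mem_filter, ZMod.val_natCast, lowOK_mod D q r x hq]
  simp

theorem card_lowOK (D : Finset ℕ) (q : ℕ) (hq : 0 < q) (r : ℕ) :
    ((range (q ^ r)).filter (fun x => lowOK D q r x)).card ≤ D.card ^ r := by
  induction r with
  | zero => simp [lowOK]
  | succ r ih =>
    have hsub : (range (q ^ (r + 1))).filter (fun x => lowOK D q (r + 1) x) ⊆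
        (D ×ˢ ((range (q ^ r)).filter (fun x => lowOK D q r x))).image
          (fun z => z.1 + q * z.2) := by
      intro x hx
      rw [mem_filter, mem_range] at hx
      rw [mem_image]
      refine ⟨(x % q, x / q), ?_, ?_⟩
      · rw [mem_product, mem_filter, mem_range]
        have h1 := (lowOK_add D q 1 r x).mp (by rw [add_comm 1 r]; exact hx.2)
        refine ⟨?_, ?_, ?_⟩
        · have := h1.1 0 (by norm_num)
          simpa using this
        · rw [Nat.div_lt_iff_lt_mul hq]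
          rw [pow_succ] at hx
          exact hx.1
        · simpa using h1.2
      · simp only
        exact Nat.mod_add_div x q
    calc _ ≤ _ := card_le_card hsub
      _ ≤ (D ×ˢ ((range (q ^ r)).filter (fun x => lowOK D q r x))).card := card_image_le
      _ = D.card * ((range (q ^ r)).filter (fun x => lowOK D q r x)).card := card_product _ _
      _ ≤ D.card * D.card ^ r := Nat.mul_le_mul_left _ ih
      _ = D.card ^ (r + 1) := by ring

theorem card_digitRes (D : Finset ℕ) (q r : ℕ) [NeZero (q ^ r)] (hq : 0 < q) :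
    (digitRes D q r).card ≤ D.card ^ r := by
  refine le_trans ?_ (card_lowOK D q hq r)
  refine card_le_card_of_injOn (fun z => z.val) ?_ ?_
  · intro z hz
    unfold digitRes at hz
    rw [mem_coe, mem_filter] at hz
    rw [mem_coe, mem_filter, mem_range]
    exact ⟨ZMod.val_lt z, hz.2⟩
  · intro a _ b _ hab
    exact ZMod.val_injective _ hab

/-- `(1 + x)^j ≡ 1 + j x (mod x²)`. -/
theorem one_add_pow_expand (x j : ℕ) : ∃ k, (1 + x) ^ j = 1 + j * x + x ^ 2 * k := by
  induction j with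
  | zero => exact ⟨0, by simp⟩
  | succ j ih =>
    obtain ⟨k, hk⟩ := ih
    refine ⟨j + k + x * k, ?_⟩
    rw [pow_succ, hk]
    ring

section LTE

variable (p q : ℕ) (hp : 2 ≤ p) (hq : q.Prime) (hq3 : 3 ≤ q) (hpq : ¬ q ∣ p)

/-- the exponent `e` with `q^e ∥ p^(q-1) - 1`. -/
noncomputable def wexp (p q : ℕ) : ℕ := padicValNat q (p ^ (q - 1) - 1)

include hp hq hq3 hpq

theorem dvd_fermat : q ∣ p ^ (q - 1) - 1 := by
  have := Nat.ModEq.pow_totient (n := q) (x := p) ((Nat.coprime_comm.mp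
    ((Nat.Prime.coprime_iff_not_dvd hq).mpr hpq)))
  rw [Nat.totient_prime hq] at this
  exact (Nat.modEq_iff_dvd' (Nat.one_le_pow _ _ (by omega))).mp this.symm

theorem one_lt_pow_pred : 1 < p ^ (q - 1) := Nat.one_lt_pow (by omega) (by omega)

theorem wexp_pos : 1 ≤ wexp p q := by
  have := Fact.mk hq
  have h1 := one_lt_pow_pred p q hp hq hq3 hpq
  exact one_le_padicValNat_of_dvd (by omega) (dvd_fermat p q hp hq hq3 hpq)

theorem val_pow (d : ℕ) (hd : d ≠ 0) :
    padicValNat q (p ^ ((q - 1) * d) - 1) = wexp p q + padicValNat q d := by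
  have := Fact.mk hq
  have hodd : Odd q := hq.odd_of_ne_two (by omega)
  have h1 := one_lt_pow_pred p q hp hq hq3 hpq
  have h2 := padicValNat.pow_sub_pow (x := p ^ (q - 1)) (y := 1) hodd h1
    (dvd_fermat p q hp hq hq3 hpq) (fun h => hpq (hq.dvd_of_dvd_pow h)) hd
  rw [one_pow, ← pow_mul] at h2
  exact h2

/-- `p^((q-1) q^l) = 1 + q^(e+l) w` with `q ∤ w`. -/
theorem exists_w (l : ℕ) : ∃ w, ¬ q ∣ w ∧ p ^ ((q - 1) * q ^ l) = 1 + q ^ (wexp p q + l) * w := by
  have := Fact.mk hq
  have hql : q ^ l ≠ 0 := pow_ne_zero _ hq.ne_zero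
  have hval := val_pow p q hp hq hq3 hpq (q ^ l) hql
  rw [padicValNat.prime_pow] at hval
  have h1 : 1 < p ^ ((q - 1) * q ^ l) :=
    Nat.one_lt_pow (Nat.mul_ne_zero (by omega) hql) (by omega)
  have hne : p ^ ((q - 1) * q ^ l) - 1 ≠ 0 := by omega
  obtain ⟨w, hw⟩ : q ^ (wexp p q + l) ∣ p ^ ((q - 1) * q ^ l) - 1 := by
    rw [← hval]; exact pow_padicValNat_dvd
  refine ⟨w, ?_, by omega⟩
  intro hqw
  have hdvd : q ^ (wexp p q + l + 1) ∣ p ^ ((q - 1) * q ^ l) - 1 := by
    rw [hw, pow_succ]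
    exact Nat.mul_dvd_mul_left _ hqw
  have := (padicValNat_dvd_iff_le hne).mp hdvd
  omega

/-- injectivity of `n ↦ p^n mod q^(e+l)` on windows of length `q^l`. -/
theorem pow_inj (l a b : ℕ) (hab : a < b) (hb : b < a + q ^ l)
    (hmod : ((p ^ a : ℕ) : ZMod (q ^ (wexp p q + l))) = ((p ^ b : ℕ) : ZMod (q ^ (wexp p q + l)))) :
    False := by
  have := Fact.mk hq
  obtain ⟨d, rfl⟩ : ∃ d, b = a + d := ⟨b - a, by omega⟩
  have hd0 : d ≠ 0 := by omega
  have hdl : d < q ^ l := by omega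
  rw [ZMod.natCast_eq_natCast_iff] at hmod
  have hcop : Nat.Coprime (q ^ (wexp p q + l)) (p ^ a) := by
    apply Nat.Coprime.pow
    exact (Nat.Prime.coprime_iff_not_dvd hq).mpr hpq
  have h1 : 1 ≡ p ^ d [MOD q ^ (wexp p q + l)] := by
    have h2 : p ^ a * 1 ≡ p ^ a * p ^ d [MOD q ^ (wexp p q + l)] := by
      rw [mul_one, ← pow_add]; exact hmod
    exact Nat.ModEq.cancel_left_of_coprime hcop h2
  have h3 : 1 ≡ p ^ ((q - 1) * d) [MOD q ^ (wexp p q + l)] := by
    have := h1.pow (q - 1)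
    rwa [one_pow, ← pow_mul, mul_comm d] at this
  have h4 : q ^ (wexp p q + l) ∣ p ^ ((q - 1) * d) - 1 :=
    (Nat.modEq_iff_dvd' (Nat.one_le_pow _ _ (by omega))).mp h3
  have hgt : 1 < p ^ ((q - 1) * d) := Nat.one_lt_pow (Nat.mul_ne_zero (by omega) hd0) (by omega)
  have h5 := (padicValNat_dvd_iff_le (by omega)).mp h4
  rw [val_pow p q hp hq hq3 hpq d hd0] at h5
  have h6 : l ≤ padicValNat q d := by omega
  have h7 : q ^ l ∣ d := (padicValNat_dvd_iff_le hd0).mpr h6
  exact absurd (Nat.le_of_dvd (by omega) h7) (by omega)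

end LTE

end Pool.Agent.DigitPowers
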