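import Mathlib
import Pool.Agent.DigitPowers.Linear

/-!
# Counting exponents whose power has `2 r` good low digits
-/

set_option autoImplicit false

namespace Pool.Agent.DigitPowers

open Finset

theorem sum_range_mul_block {M : Type*} [AddCommMonoid M] (g : ℕ → M) (K L : ℕ) :
    ∑ a ∈ range (K * L), g a = ∑ s ∈ range K, ∑ i ∈ range L, g (L * s + i) := by
  induction K with
  | zero => simp
  | succ K ih =>
    rw [Nat.succ_mul, sum_range_add, ih, sum_range_succ, Nat.mul_comm K L]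

/-- one residue-block estimate. -/
theorem block_count_one (p q : ℕ) (hp : 2 ≤ p) (hq : q.Prime) (hq3 : 3 ≤ q) (hpq : ¬ q ∣ p)
    (D : Finset ℕ) (l J H s : ℕ) (hH : 0 < H) (hJq : J ≤ q ^ (wexp p q + l))
    (hJ : 6 * ((H - 1) * J) ≤ q ^ (wexp p q + l)) :
    (∑ i ∈ range (q ^ l), (((range J).filter (fun j : ℕ =>
      lowOK D q ((wexp p q + l) + (wexp p q + l))
        (p ^ ((q ^ l * s + i) + (q - 1) * q ^ l * j)))).card : ℝ)) ≤
      4 / H * ((D.card : ℝ) ^ (wexp p q + l) * (D.card : ℝ) ^ (wexp p q + l)) +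
      32 * (Real.sqrt ((D.card : ℝ) ^ (wexp p q + l)) *
        Real.sqrt ((q : ℝ) ^ (wexp p q + l) * (D.card : ℝ) ^ (wexp p q + l))) := by
  classical
  set r := wexp p q + l with hr
  have hqpos : 0 < q := hq.pos
  have : NeZero (q ^ r) := ⟨pow_ne_zero _ hq.ne_zero⟩
  obtain ⟨w, hw, hPw⟩ := exists_w p q hp hq hq3 hpq l
  rw [← hr] at hPw
  have hcop : ∀ a : ℕ, Nat.Coprime (w * p ^ a) (q ^ r) := by
    intro a
    apply Nat.Coprime.pow_right
    apply Nat.Coprime.mul_left
    · exact Nat.coprime_comm.mp ((Nat.Prime.coprime_iff_not_dvd hq).mpr hw)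
    · exact Nat.Coprime.pow_left _ (Nat.coprime_comm.mp ((Nat.Prime.coprime_iff_not_dvd hq).mpr hpq))
  set u : ℕ → (ZMod (q ^ r))ˣ := fun i => ZMod.unitOfCoprime (w * p ^ (q ^ l * s + i)) (hcop _) with hu
  set y : ℕ → ZMod (q ^ r) := fun i => ((p ^ (q ^ l * s + i) / q ^ r : ℕ) : ZMod (q ^ r)) with hy
  set S := digitRes D q r with hS
  set U := (range (q ^ l)).filter (fun i => lowOK D q r (p ^ (q ^ l * s + i))) with hU
  -- expansion of the power
  have hexp : ∀ i j : ℕ, ∃ k, p ^ ((q ^ l * s + i) + (q - 1) * q ^ l * j) =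
      p ^ (q ^ l * s + i) + q ^ r * (w * p ^ (q ^ l * s + i) * j + q ^ r * k) := by
    intro i j
    obtain ⟨k, hk⟩ := one_add_pow_expand (q ^ r * w) j
    refine ⟨p ^ (q ^ l * s + i) * w ^ 2 * k, ?_⟩
    rw [pow_add, pow_mul p ((q - 1) * q ^ l) j, hPw, hk]
    ring
  have hmodr : ∀ i j : ℕ, lowOK D q r (p ^ ((q ^ l * s + i) + (q - 1) * q ^ l * j)) ↔
      lowOK D q r (p ^ (q ^ l * s + i)) := by
    intro i j
    obtain ⟨k, hk⟩ := hexp i j
    rw [← lowOK_mod D q r _ hqpos, hk, Nat.add_mul_mod_self_left, lowOK_mod D q r _ hqpos]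
  have hdiv : ∀ i j : ℕ, ((p ^ ((q ^ l * s + i) + (q - 1) * q ^ l * j) / q ^ r : ℕ) : ZMod (q ^ r)) =
      y i + (u i : ZMod (q ^ r)) * (j : ZMod (q ^ r)) := by
    intro i j
    obtain ⟨k, hk⟩ := hexp i j
    rw [hk, Nat.add_mul_div_left _ _ (pow_pos hqpos r)]
    rw [hu, hy]
    simp only [ZMod.coe_unitOfCoprime]
    push_cast
    have : ((q : ZMod (q ^ r)) ^ r) = 0 := by
      have := ZMod.natCast_self (q ^ r)
      push_cast at this
      exact this
    rw [this]
    ring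
  have hinj : Set.InjOn u (U : Set ℕ) := by
    intro a ha b hb hab
    rw [hU, mem_coe, mem_filter, mem_range] at ha hb
    have h1 : ((w * p ^ (q ^ l * s + a) : ℕ) : ZMod (q ^ r)) =
        ((w * p ^ (q ^ l * s + b) : ℕ) : ZMod (q ^ r)) := by
      have := congrArg (fun x : (ZMod (q ^ r))ˣ => (x : ZMod (q ^ r))) hab
      simpa [hu, ZMod.coe_unitOfCoprime] using this
    have h2 : ((p ^ (q ^ l * s + a) : ℕ) : ZMod (q ^ r)) =
        ((p ^ (q ^ l * s + b) : ℕ) : ZMod (q ^ r)) := by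
      rw [ZMod.natCast_eq_natCast_iff] at h1 ⊢
      refine Nat.ModEq.cancel_left_of_coprime ?_ h1
      exact Nat.Coprime.pow_left _ ((Nat.Prime.coprime_iff_not_dvd hq).mpr hw)
    rcases lt_trichotomy a b with h | h | h
    · exact (pow_inj p q hp hq hq3 hpq l _ _ (by omega) (by omega) h2).elim
    · exact h
    · exact (pow_inj p q hp hq hq3 hpq l _ _ (by omega) (by omega) h2.symm).elim
  have hSU : U.card ≤ D.card ^ r := by
    refine le_trans ?_ (card_digitRes D q r hqpos)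
    refine card_le_card_of_injOn (fun i => ((p ^ (q ^ l * s + i) : ℕ) : ZMod (q ^ r))) ?_ ?_
    · intro i hi
      rw [hU, mem_coe, mem_filter] at hi
      rw [mem_coe]
      exact (mem_digitRes_natCast D q r _ hqpos).mpr hi.2
    · intro a ha b hb hab
      rw [hU, mem_coe, mem_filter, mem_range] at ha hb
      simp only at hab
      rcases lt_trichotomy a b with h | h | h
      · exact (pow_inj p q hp hq hq3 hpq l _ _ (by omega) (by omega) hab).elim
      · exact h
      · exact (pow_inj p q hp hq hq3 hpq l _ _ (by omega) (by omega) hab.symm).elim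
  have hScard : S.card ≤ D.card ^ r := card_digitRes D q r hqpos
  -- reduce to `count_le`
  have hmain := count_le (q ^ r) S U u hinj y H J hH hJq hJ 4
    (by simpa using sum_sqrt_gcd_le q r H hq hq3)
  have hred : (∑ i ∈ range (q ^ l), (((range J).filter (fun j : ℕ =>
      lowOK D q (r + r) (p ^ ((q ^ l * s + i) + (q - 1) * q ^ l * j)))).card : ℝ)) ≤
      ∑ i ∈ U, (((range J).filter (fun j : ℕ => y i + (u i : ZMod (q ^ r)) * (j : ZMod (q ^ r)) ∈ S)).card : ℝ) := by
    rw [hU, sum_filter]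
    refine sum_le_sum fun i _ => ?_
    split_ifs with hlow
    · have : ((range J).filter (fun j : ℕ =>
          lowOK D q (r + r) (p ^ ((q ^ l * s + i) + (q - 1) * q ^ l * j)))) ⊆
          ((range J).filter (fun j : ℕ => y i + (u i : ZMod (q ^ r)) * (j : ZMod (q ^ r)) ∈ S)) := by
        intro j hj
        rw [mem_filter] at hj ⊢
        refine ⟨hj.1, ?_⟩
        rw [← hdiv i j, hS, mem_digitRes_natCast D q r _ hqpos]
        exact ((lowOK_add D q r r _).mp hj.2).2
      exact_mod_cast card_le_card this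
    · have : ((range J).filter (fun j : ℕ =>
          lowOK D q (r + r) (p ^ ((q ^ l * s + i) + (q - 1) * q ^ l * j)))) = ∅ := by
        rw [filter_eq_empty_iff]
        intro j _ hcon
        exact hlow ((hmodr i j).mp ((lowOK_add D q r r _).mp hcon).1)
      rw [this]; simp
  refine hred.trans (hmain.trans ?_)
  have hU' : (U.card : ℝ) ≤ (D.card : ℝ) ^ r := by exact_mod_cast hSU
  have hS' : (S.card : ℝ) ≤ (D.card : ℝ) ^ r := by exact_mod_cast hScard
  have hHpos : (0 : ℝ) < H := by exact_mod_cast hH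
  have e1 : 4 / (H : ℝ) * (U.card * S.card) ≤ 4 / H * ((D.card : ℝ) ^ r * (D.card : ℝ) ^ r) := by
    gcongr
  have e2 : 8 * (4 : ℝ) * (Real.sqrt U.card * Real.sqrt (((q ^ r : ℕ) : ℝ) * S.card)) ≤
      32 * (Real.sqrt ((D.card : ℝ) ^ r) * Real.sqrt ((q : ℝ) ^ r * (D.card : ℝ) ^ r)) := by
    have e3 : (((q ^ r : ℕ) : ℝ) * S.card) ≤ (q : ℝ) ^ r * (D.card : ℝ) ^ r := by
      push_cast
      gcongr
    have e4 := Real.sqrt_le_sqrt hU'
    have e5 := Real.sqrt_le_sqrt e3
    have e6 : Real.sqrt U.card * Real.sqrt (((q ^ r : ℕ) : ℝ) * S.card) ≤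
      (Real.sqrt ((D.card : ℝ) ^ r) * Real.sqrt ((q : ℝ) ^ r * (D.card : ℝ) ^ r)) := by
      exact mul_le_mul e4 e5 (Real.sqrt_nonneg _) (Real.sqrt_nonneg _)
    linarith
  linarith

/-- the full count below `(q-1) q^l J`. -/
theorem block_count (p q : ℕ) (hp : 2 ≤ p) (hq : q.Prime) (hq3 : 3 ≤ q) (hpq : ¬ q ∣ p)
    (D : Finset ℕ) (l J H : ℕ) (hH : 0 < H) (hJq : J ≤ q ^ (wexp p q + l))
    (hJ : 6 * ((H - 1) * J) ≤ q ^ (wexp p q + l)) :
    (((range ((q - 1) * q ^ l * J)).filter (fun n =>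
      lowOK D q ((wexp p q + l) + (wexp p q + l)) (p ^ n))).card : ℝ) ≤
      q * (4 / H * ((D.card : ℝ) ^ (wexp p q + l) * (D.card : ℝ) ^ (wexp p q + l)) +
      32 * (Real.sqrt ((D.card : ℝ) ^ (wexp p q + l)) *
        Real.sqrt ((q : ℝ) ^ (wexp p q + l) * (D.card : ℝ) ^ (wexp p q + l)))) := by
  classical
  set r := wexp p q + l with hr
  set B := 4 / (H : ℝ) * ((D.card : ℝ) ^ r * (D.card : ℝ) ^ r) +
      32 * (Real.sqrt ((D.card : ℝ) ^ r) * Real.sqrt ((q : ℝ) ^ r * (D.card : ℝ) ^ r)) with hB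
  have hB0 : 0 ≤ B := by positivity
  set L := (q - 1) * q ^ l with hL
  have hLpos : 0 < L := Nat.mul_pos (by omega) (pow_pos hq.pos l)
  have h1 : (((range (L * J)).filter (fun n => lowOK D q (r + r) (p ^ n))).card : ℝ) =
      ∑ a ∈ range L, ∑ j ∈ range J, (if lowOK D q (r + r) (p ^ (a + L * j)) then (1 : ℝ) else 0) := by
    rw [sum_comm]
    have := sum_range_mul_block (fun n => if lowOK D q (r + r) (p ^ n) then (1 : ℝ) else 0) J L
    rw [mul_comm J L] at this
    rw [card_filter]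
    push_cast
    rw [this]
    refine sum_congr rfl fun j _ => sum_congr rfl fun a _ => ?_
    rw [add_comm (L * j) a]
  have h2 : ∑ a ∈ range L, ∑ j ∈ range J, (if lowOK D q (r + r) (p ^ (a + L * j)) then (1 : ℝ) else 0) =
      ∑ s ∈ range (q - 1), ∑ i ∈ range (q ^ l), (((range J).filter (fun j : ℕ =>
        lowOK D q (r + r) (p ^ ((q ^ l * s + i) + (q - 1) * q ^ l * j)))).card : ℝ) := by
    rw [hL, sum_range_mul_block]
    refine sum_congr rfl fun s _ => sum_congr rfl fun i _ => ?_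
    rw [card_filter]
    push_cast
    rfl
  rw [h1, h2]
  calc _ ≤ ∑ s ∈ range (q - 1), B := by
        refine sum_le_sum fun s _ => ?_
        exact block_count_one p q hp hq hq3 hpq D l J H s hH hJq hJ
    _ = (q - 1 : ℕ) * B := by rw [sum_const, card_range, nsmul_eq_mul]
    _ ≤ q * B := by
        refine mul_le_mul_of_nonneg_right ?_ hB0
        exact_mod_cast Nat.sub_le q 1

end Pool.Agent.DigitPowers
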