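import Mathlib
import Pool.Agent.DigitPowers.Block

/-!
# Missing digits in powers: the exponent `(1 + 2α)/(5 - 2α)`
-/

set_option autoImplicit false

namespace Pool.Agent.DigitPowers

open Finset

theorem lowOK_of_digits (D : Finset ℕ) (q R x : ℕ) (hq : 2 ≤ q) (hx : q ^ R ≤ x)
    (h : (Nat.digits q x).toFinset ⊆ D) : lowOK D q R x := by
  intro i hi
  have hlen : i < (Nat.digits q x).length := by
    by_contra hcon
    push Not at hcon
    have h1 : x < q ^ (Nat.digits q x).length := Nat.lt_base_pow_length_digits (by omega)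
    have h2 : q ^ (Nat.digits q x).length ≤ q ^ R :=
      Nat.pow_le_pow_right (by omega) (by omega)
    omega
  have h3 : (Nat.digits q x)[i] = x / q ^ i % q := by
    have := Nat.getD_digits x i hq
    rw [List.getD_eq_getElem _ _ hlen] at this
    exact this
  rw [← h3]
  exact h (List.mem_toFinset.mpr (List.getElem_mem hlen))

theorem small_exponents (p q R N : ℕ) (hp : 2 ≤ p) :
    ((range N).filter (fun n => p ^ n < q ^ R)).card ≤ q * R := by
  have : (range N).filter (fun n => p ^ n < q ^ R) ⊆ range (q * R) := by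
    intro n hn
    rw [mem_filter] at hn
    rw [mem_range]
    by_contra hcon
    push Not at hcon
    have h1 : q ^ R ≤ (2 ^ q) ^ R := Nat.pow_le_pow_left (Nat.lt_two_pow_self).le R
    have h2 : (2 ^ q) ^ R = 2 ^ (q * R) := by rw [← pow_mul]
    have h3 : 2 ^ (q * R) ≤ 2 ^ n := Nat.pow_le_pow_right (by norm_num) hcon
    have h4 : 2 ^ n ≤ p ^ n := Nat.pow_le_pow_left hp n
    omega
  calc _ ≤ (range (q * R)).card := card_le_card this
    _ = q * R := card_range _

theorem missing_count (p q : ℕ) (hp : 2 ≤ p) (hq : q.Prime) (hq3 : 3 ≤ q) (hpq : ¬ q ∣ p)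
    (D : Finset ℕ) (hDq : D.card ≤ q) (hD : q ≤ D.card ^ 2) :
    ∃ C : ℝ, ∀ N : ℕ, (((range N).filter (fun n => (Nat.digits q (p ^ n)).toFinset ⊆ D)).card : ℝ) ≤
      C * (N : ℝ) ^ ((1 + 2 * Real.logb q D.card) / (5 - 2 * Real.logb q D.card)) := by
  classical
  set d : ℝ := (D.card : ℝ) with hd
  set α := Real.logb q d with hα
  set γ := (1 + 2 * α) / (5 - 2 * α) with hγ
  have hq0 : (0 : ℝ) < q := by exact_mod_cast hq.pos
  have hq3' : (3 : ℝ) ≤ q := by exact_mod_cast hq3
  have hd2 : (2 : ℝ) ≤ d := by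
    have : 2 ≤ D.card := by
      by_contra hcon
      push Not at hcon
      have : D.card ^ 2 ≤ 1 ^ 2 := Nat.pow_le_pow_left (by omega) 2
      omega
    rw [hd]; exact_mod_cast this
  have hd0 : 0 < d := by linarith
  have hdq : d ≤ q := by rw [hd]; exact_mod_cast hDq
  have hqd : (q : ℝ) ≤ d ^ 2 := by rw [hd]; exact_mod_cast hD
  set s := Real.sqrt q with hs
  have hs0 : 0 < s := Real.sqrt_pos.mpr hq0
  have hss : s * s = q := Real.mul_self_sqrt hq0.le
  have hs1 : 1 < s := by
    rw [hs]; apply Real.lt_sqrt_of_sq_lt; linarith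
  have hsd : s ≤ d := by
    rw [hs]; exact Real.sqrt_le_iff.mpr ⟨hd0.le, hqd⟩
  set lam := (q : ℝ) ^ 2 * s / d with hlam
  set rho := d * s with hrho
  have hlam0 : 0 < lam := by positivity
  have hrho0 : 0 < rho := by positivity
  have hlam1 : 1 < lam := by
    rw [hlam, one_lt_div hd0]
    have t1 : (q : ℝ) ^ 2 ≤ (q : ℝ) ^ 2 * s := le_mul_of_one_le_right (by positivity) hs1.le
    have t2 : (q : ℝ) < (q : ℝ) ^ 2 := by nlinarith only [hq3']
    linarith only [t1, t2, hdq]
  have hrho2 : 2 ≤ rho := by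
    rw [hrho]
    nlinarith only [hd2, hs1]
  have hlamq : lam ≤ (q : ℝ) ^ 2 := by
    rw [hlam, div_le_iff₀ hd0]
    exact mul_le_mul_of_nonneg_left hsd (by positivity)
  -- `lam ^ γ = rho`
  have hα1 : α ≤ 1 := by
    rw [hα, Real.logb_le_iff_le_rpow (by linarith) hd0, Real.rpow_one]
    exact hdq
  have hα0 : 0 ≤ α := Real.logb_nonneg (by linarith) (by linarith)
  have hden : 0 < 5 - 2 * α := by linarith
  have hγ0 : 0 < γ := by rw [hγ]; positivity
  have hpowγ : lam ^ γ = rho := by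
    have h1 : d = (q : ℝ) ^ α := by
      rw [hα, Real.rpow_logb hq0 (by linarith) hd0]
    have h2 : s = (q : ℝ) ^ (1 / 2 : ℝ) := by rw [hs, Real.sqrt_eq_rpow]
    have h3 : lam = (q : ℝ) ^ (5 / 2 - α) := by
      rw [hlam, h1, h2, ← Real.rpow_natCast, ← Real.rpow_add hq0, ← Real.rpow_sub hq0]
      congr 1
      push_cast
      ring
    have h4 : rho = (q : ℝ) ^ (α + 1 / 2) := by
      rw [hrho, h1, h2, ← Real.rpow_add hq0]
    rw [h3, h4, ← Real.rpow_mul hq0.le]
    congr 1
    rw [hγ]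
    field_simp
    ring
  clear_value lam rho γ α s
  set e := wexp p q with he
  have he1 : 1 ≤ e := wexp_pos p q hp hq hq3 hpq
  refine ⟨70 * q * rho ^ e * (lam * (2 * (q : ℝ) ^ e)) ^ γ, fun N => ?_⟩
  rcases Nat.eq_zero_or_pos N with hN | hN
  · subst hN
    rw [Nat.cast_zero, Real.zero_rpow hγ0.ne']
    simp
  have hN1 : (1 : ℝ) ≤ N := by exact_mod_cast hN
  set X : ℝ := 2 * (q : ℝ) ^ e * N with hX
  have hqe : (1 : ℝ) ≤ (q : ℝ) ^ e := one_le_pow₀ (by linarith)
  have hX1 : 1 ≤ X := by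
    rw [hX]
    have t1 : (1 : ℝ) ≤ (q : ℝ) ^ e * N := one_le_mul_of_one_le_of_one_le hqe hN1
    linarith only [t1]
  obtain ⟨n0, hn0, hn1⟩ := exists_nat_pow_near hX1 hlam1
  set l := n0 + 1 with hl
  have hlX : X ≤ lam ^ l := hn1.le
  have hlX' : lam ^ l ≤ lam * X := by
    rw [hl, pow_succ, mul_comm]
    exact mul_le_mul_of_nonneg_left hn0 hlam0.le
  set r := e + l with hr
  have hr2 : 2 ≤ r := by omega
  have hqr : (0 : ℝ) < (q : ℝ) ^ r := by positivity
  set L : ℕ := (q - 1) * q ^ l with hL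
  have hLpos : 0 < L := Nat.mul_pos (by omega) (pow_pos hq.pos l)
  set J : ℕ := N / L + 1 with hJ
  set H : ℕ := q ^ r / (6 * J) + 1 with hH
  have hJpos : 0 < J := Nat.succ_pos _
  have hLJ : N ≤ L * J := by
    have := Nat.lt_mul_div_succ N hLpos
    rw [hJ]
    exact this.le
  -- real bound on J
  have hLreal : 2 * (q : ℝ) ^ l ≤ L := by
    rw [hL]; push_cast
    have : (2 : ℝ) ≤ ((q - 1 : ℕ) : ℝ) := by
      have : 2 ≤ q - 1 := by omega
      exact_mod_cast this
    exact mul_le_mul_of_nonneg_right this (by positivity)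
  have hJreal : (J : ℝ) ≤ (lam / q) ^ r / 2 + 1 := by
    have h1 : ((N / L : ℕ) : ℝ) ≤ (N : ℝ) / L := Nat.cast_div_le
    have h2 : (N : ℝ) / L ≤ (lam / q) ^ r / 2 := by
      have h3 : (N : ℝ) ≤ lam ^ l / (2 * (q : ℝ) ^ e) := by
        rw [le_div_iff₀ (by positivity)]
        calc (N : ℝ) * (2 * (q : ℝ) ^ e) = X := by rw [hX]; ring
          _ ≤ _ := hlX
      have h4 : (N : ℝ) / L ≤ (lam ^ l / (2 * (q : ℝ) ^ e)) / (2 * (q : ℝ) ^ l) := by
        gcongr
      have h5 : lam ^ l ≤ lam ^ r := pow_le_pow_right₀ hlam1.le (by omega)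
      calc (N : ℝ) / L ≤ (lam ^ l / (2 * (q : ℝ) ^ e)) / (2 * (q : ℝ) ^ l) := h4
        _ = lam ^ l / (q : ℝ) ^ r / 4 := by
            rw [hr, pow_add]; field_simp; ring
        _ ≤ lam ^ r / (q : ℝ) ^ r / 4 := by gcongr
        _ = (lam / q) ^ r / 4 := by rw [div_pow lam]
        _ ≤ (lam / q) ^ r / 2 := by
            have : 0 ≤ (lam / q) ^ r := by positivity
            linarith
    rw [hJ]; push_cast
    linarith
  have hlamqq : (lam / q) ^ r ≤ (q : ℝ) ^ r := by
    refine pow_le_pow_left₀ (by positivity) ?_ r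
    rw [div_le_iff₀ hq0]
    linarith only [hlamq, sq (q : ℝ)]
  have hJq : J ≤ q ^ r := by
    have h1 : (J : ℝ) ≤ (q : ℝ) ^ r / 2 + 1 := by linarith
    have h2 : (2 : ℝ) ≤ (q : ℝ) ^ r := by
      calc (2 : ℝ) ≤ (q : ℝ) ^ 1 := by rw [pow_one]; linarith
        _ ≤ (q : ℝ) ^ r := pow_le_pow_right₀ (by linarith) (by omega)
    have h3 : (J : ℝ) ≤ (q : ℝ) ^ r := by linarith
    exact_mod_cast h3
  have hHJ : 6 * ((H - 1) * J) ≤ q ^ r := by
    rw [hH, Nat.add_sub_cancel]
    calc 6 * (q ^ r / (6 * J) * J) = q ^ r / (6 * J) * (6 * J) := by ring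
      _ ≤ q ^ r := Nat.div_mul_le_self _ _
  have hHreal : 4 / (H : ℝ) ≤ 24 * J / (q : ℝ) ^ r := by
    have hHpos : (0 : ℝ) < H := by rw [hH]; positivity
    rw [div_le_div_iff₀ hHpos hqr]
    have h1 : (q : ℝ) ^ r ≤ H * (6 * J) := by
      have := Nat.lt_mul_div_succ (q ^ r) (show 0 < 6 * J by omega)
      have h2 : q ^ r ≤ H * (6 * J) := by
        rw [hH, mul_comm]; exact this.le
      have h3 : (q : ℝ) ^ r ≤ H * (6 * J) := by exact_mod_cast h2
      exact h3
    calc (4 : ℝ) * (q : ℝ) ^ r ≤ 4 * (H * (6 * J)) := by linarith only [h1]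
      _ = 24 * J * H := by ring
  have hHpos' : 0 < H := Nat.succ_pos _
  have hblock := block_count p q hp hq hq3 hpq D l J H hHpos' hJq hHJ
  -- simplify the block bound
  have hB : (q : ℝ) * (4 / H * ((D.card : ℝ) ^ r * (D.card : ℝ) ^ r) +
      32 * (Real.sqrt ((D.card : ℝ) ^ r) *
        Real.sqrt ((q : ℝ) ^ r * (D.card : ℝ) ^ r))) ≤ 68 * q * rho ^ r := by
    rw [← hd]
    have e1 : Real.sqrt (d ^ r) * Real.sqrt ((q : ℝ) ^ r * d ^ r) = rho ^ r := by
      rw [← Real.sqrt_mul (by positivity)]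
      have : d ^ r * ((q : ℝ) ^ r * d ^ r) = (rho ^ r) ^ 2 := by
        rw [hrho, ← hss]; ring
      rw [this, Real.sqrt_sq (by positivity)]
    have e2 : 4 / (H : ℝ) * (d ^ r * d ^ r) ≤ 36 * rho ^ r := by
      calc 4 / (H : ℝ) * (d ^ r * d ^ r) ≤ 24 * J / (q : ℝ) ^ r * (d ^ r * d ^ r) := by
            gcongr
        _ ≤ 24 * ((lam / q) ^ r / 2 + 1) / (q : ℝ) ^ r * (d ^ r * d ^ r) := by
            gcongr
        _ = 12 * (lam / q * d * d / q) ^ r + 24 * (d * d / q) ^ r := by
            have g1 : (lam / q * d * d / q) ^ r = (lam / q) ^ r * (d ^ r * d ^ r) / (q : ℝ) ^ r := by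
              rw [← mul_pow, ← mul_pow, ← div_pow]
              congr 1
              ring
            have g2 : (d * d / q) ^ r = (d ^ r * d ^ r) / (q : ℝ) ^ r := by
              rw [← mul_pow, ← div_pow]
            rw [g1, g2]
            ring
        _ ≤ 12 * rho ^ r + 24 * rho ^ r := by
            have f1 : lam / q * d * d / q = rho := by
              rw [hlam, hrho]; field_simp
            have f2 : d * d / q ≤ rho := by
              rw [div_le_iff₀ hq0, hrho]
              have t1 : d ≤ s * q := hdq.trans (le_mul_of_one_le_left hq0.le hs1.le)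
              calc d * d ≤ d * (s * q) := mul_le_mul_of_nonneg_left t1 hd0.le
                _ = d * s * q := by ring
            rw [f1]
            have f3 : (d * d / q) ^ r ≤ rho ^ r := pow_le_pow_left₀ (by positivity) f2 r
            linarith
        _ = 36 * rho ^ r := by ring
    rw [e1]
    calc (q : ℝ) * (4 / H * (d ^ r * d ^ r) + 32 * rho ^ r)
        ≤ q * (36 * rho ^ r + 32 * rho ^ r) := by gcongr
      _ = 68 * q * rho ^ r := by ring
  -- split the count
  have hsplit : ((range N).filter (fun n => (Nat.digits q (p ^ n)).toFinset ⊆ D)) ⊆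
      ((range (L * J)).filter (fun n => lowOK D q (r + r) (p ^ n))) ∪
      ((range N).filter (fun n => p ^ n < q ^ (r + r))) := by
    intro n hn
    rw [mem_filter, mem_range] at hn
    rw [mem_union, mem_filter, mem_filter, mem_range, mem_range]
    by_cases hlt : p ^ n < q ^ (r + r)
    · right; exact ⟨hn.1, hlt⟩
    · left
      push Not at hlt
      exact ⟨by omega, lowOK_of_digits D q _ _ (by omega) hlt hn.2⟩
  have hcard := (card_le_card hsplit).trans (card_union_le _ _)
  have hsmall := small_exponents p q (r + r) N hp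
  have hfin : (((range N).filter (fun n => (Nat.digits q (p ^ n)).toFinset ⊆ D)).card : ℝ) ≤
      70 * q * rho ^ r := by
    have h1 : (((range N).filter (fun n => (Nat.digits q (p ^ n)).toFinset ⊆ D)).card : ℝ) ≤
        (((range (L * J)).filter (fun n => lowOK D q (r + r) (p ^ n))).card : ℝ) +
        ((q * (r + r) : ℕ) : ℝ) := by
      have : ((range N).filter (fun n => (Nat.digits q (p ^ n)).toFinset ⊆ D)).card ≤
        ((range (L * J)).filter (fun n => lowOK D q (r + r) (p ^ n))).card + q * (r + r) := by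
        omega
      exact_mod_cast this
    have h2 : ((q * (r + r) : ℕ) : ℝ) ≤ 2 * q * rho ^ r := by
      push_cast
      have h3 : (r : ℝ) ≤ rho ^ r := by
        calc (r : ℝ) ≤ 2 ^ r := by exact_mod_cast (Nat.lt_two_pow_self).le
          _ ≤ rho ^ r := pow_le_pow_left₀ (by norm_num) hrho2 r
      calc (q : ℝ) * ((r : ℝ) + r) = 2 * q * r := by ring
        _ ≤ 2 * q * rho ^ r := by gcongr
    have h4 := hblock.trans hB
    linarith only [h1, h2, h4]
  -- conclude
  calc (((range N).filter (fun n => (Nat.digits q (p ^ n)).toFinset ⊆ D)).card : ℝ)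
      ≤ 70 * q * rho ^ r := hfin
    _ = 70 * q * rho ^ e * rho ^ l := by rw [hr, pow_add]; ring
    _ = 70 * q * rho ^ e * (lam ^ l) ^ γ := by
        rw [← hpowγ]
        congr 1
        rw [← Real.rpow_natCast, ← Real.rpow_natCast, ← Real.rpow_mul hlam0.le,
          ← Real.rpow_mul hlam0.le, mul_comm]
    _ ≤ 70 * q * rho ^ e * (lam * X) ^ γ := by
        gcongr
    _ = 70 * q * rho ^ e * (lam * (2 * (q : ℝ) ^ e)) ^ γ * (N : ℝ) ^ γ := by
        rw [hX, show lam * (2 * (q : ℝ) ^ e * N) = (lam * (2 * (q : ℝ) ^ e)) * N by ring,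
          Real.mul_rpow (by positivity) (by positivity)]
        ring

end Pool.Agent.DigitPowers
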